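import Mathlib

/-!
# Integer quadratic forms and sign vectors
-/

set_option autoImplicit false
set_option linter.unusedSectionVars false

namespace Pool.Agent.Bisect

open Finset

variable {V : Type*} [Fintype V] [DecidableEq V]

/-- The bilinear form of a weight function. -/
def bil (w : V → V → ℤ) (x y : V → ℤ) : ℤ := ∑ u, ∑ v, w u v * x u * y v

/-- The quadratic form of a weight function. -/
def qf (w : V → V → ℤ) (x : V → ℤ) : ℤ := bil w x x

omit [DecidableEq V] in
lemma bil_add_left (w : V → V → ℤ) (x y z : V → ℤ) :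
    bil w (x + y) z = bil w x z + bil w y z := by
  simp only [bil, Pi.add_apply, ← Finset.sum_add_distrib]
  exact Finset.sum_congr rfl fun u _ => Finset.sum_congr rfl fun v _ => by ring

omit [DecidableEq V] in
lemma bil_add_right (w : V → V → ℤ) (x y z : V → ℤ) :
    bil w x (y + z) = bil w x y + bil w x z := by
  simp only [bil, Pi.add_apply, ← Finset.sum_add_distrib]
  exact Finset.sum_congr rfl fun u _ => Finset.sum_congr rfl fun v _ => by ring

omit [DecidableEq V] in
lemma bil_smul_right (w : V → V → ℤ) (x y : V → ℤ) (a : ℤ) :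
    bil w x (a • y) = a * bil w x y := by
  simp only [bil, Pi.smul_apply, smul_eq_mul, Finset.mul_sum]
  exact Finset.sum_congr rfl fun u _ => Finset.sum_congr rfl fun v _ => by ring

omit [DecidableEq V] in
lemma bil_smul_left (w : V → V → ℤ) (x y : V → ℤ) (a : ℤ) :
    bil w (a • x) y = a * bil w x y := by
  simp only [bil, Pi.smul_apply, smul_eq_mul, Finset.mul_sum]
  exact Finset.sum_congr rfl fun u _ => Finset.sum_congr rfl fun v _ => by ring

omit [DecidableEq V] in
lemma bil_comm {w : V → V → ℤ} (hw : ∀ u v, w u v = w v u) (x y : V → ℤ) :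
    bil w x y = bil w y x := by
  unfold bil
  rw [Finset.sum_comm]
  exact Finset.sum_congr rfl fun u _ => Finset.sum_congr rfl fun v _ => by rw [hw v u]; ring

omit [DecidableEq V] in
lemma qf_add {w : V → V → ℤ} (hw : ∀ u v, w u v = w v u) (x y : V → ℤ) :
    qf w (x + y) = qf w x + 2 * bil w x y + qf w y := by
  unfold qf
  rw [bil_add_left, bil_add_right, bil_add_right, bil_comm hw y x]
  ring

omit [DecidableEq V] in
lemma qf_smul (w : V → V → ℤ) (x : V → ℤ) (a : ℤ) : qf w (a • x) = a * a * qf w x := by
  unfold qf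
  rw [bil_smul_left, bil_smul_right]
  ring

/-- unit vector -/
def ee (v : V) : V → ℤ := Pi.single v 1

lemma ee_same (v : V) : ee v v = 1 := by simp [ee]
lemma ee_ne {u v : V} (h : u ≠ v) : ee v u = 0 := by simp [ee, h]
lemma ee_apply (u v : V) : ee v u = if u = v then 1 else 0 := by
  simp [ee, Pi.single_apply]

lemma sum_ee (v : V) : ∑ u, ee v u = 1 := by
  simp [ee_apply]

lemma bil_ee_right (w : V → V → ℤ) (x : V → ℤ) (v : V) :
    bil w x (ee v) = ∑ u, w u v * x u := by
  unfold bil
  refine Finset.sum_congr rfl fun u _ => ?_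
  simp [ee_apply]

lemma bil_ee_ee (w : V → V → ℤ) (u v : V) : bil w (ee u) (ee v) = w u v := by
  rw [bil_ee_right]
  simp [ee_apply]

lemma qf_ee (w : V → V → ℤ) (v : V) : qf w (ee v) = w v v := bil_ee_ee w v v

/-- Choosing a sign: one of the two signs does not increase the quadratic form beyond `qf y`. -/
lemma exists_sign {w : V → V → ℤ} (hw : ∀ u v, w u v = w v u) (x y : V → ℤ) :
    ∃ a : ℤ, (a = 1 ∨ a = -1) ∧ qf w (x + a • y) ≤ qf w x + qf w y - 2 * |bil w x y| := by
  rcases le_total (bil w x y) 0 with h | h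
  · refine ⟨1, Or.inl rfl, ?_⟩
    rw [qf_add hw, bil_smul_right, qf_smul, abs_of_nonpos h]
    linarith
  · refine ⟨-1, Or.inr rfl, ?_⟩
    rw [qf_add hw, bil_smul_right, qf_smul, abs_of_nonneg h]
    linarith

lemma qf_ee_sub {w : V → V → ℤ} (hw : ∀ u v, w u v = w v u) (h0 : ∀ v, w v v = 0) (u v : V) :
    qf w (ee u + (-1 : ℤ) • ee v) = - 2 * w u v := by
  rw [qf_add hw, bil_smul_right, qf_smul, qf_ee, qf_ee, bil_ee_ee, h0, h0]
  ring

/-- A vector with entries in `{-1, 0, 1}`. -/
def IsTri (x : V → ℤ) : Prop := ∀ v, x v = 0 ∨ x v = 1 ∨ x v = -1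

/-- A vector with entries in `{-1, 1}`. -/
def IsSign (x : V → ℤ) : Prop := ∀ v, x v = 1 ∨ x v = -1

/-- The zeros of a vector. -/
def zeros (x : V → ℤ) : Finset V := univ.filter fun v => x v = 0

omit [DecidableEq V] in
lemma mem_zeros {x : V → ℤ} {v : V} : v ∈ zeros x ↔ x v = 0 := by simp [zeros]

/-- Adding a signed pair. -/
lemma add_pair {w : V → V → ℤ} (hw : ∀ u v, w u v = w v u) (h0 : ∀ v, w v v = 0)
    {x : V → ℤ} (hx : IsTri x) {u v : V} (huv : u ≠ v) (hu : x u = 0) (hv : x v = 0) :
    ∃ y : V → ℤ, IsTri y ∧ (∀ z, z ≠ u → z ≠ v → y z = x z) ∧ y u ≠ 0 ∧ y v ≠ 0 ∧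
      ∑ z, y z = ∑ z, x z ∧
      qf w y ≤ qf w x - 2 * w u v - 2 * |bil w x (ee u + (-1 : ℤ) • ee v)| := by
  obtain ⟨a, ha, hq⟩ := exists_sign hw x (ee u + (-1 : ℤ) • ee v)
  refine ⟨x + a • (ee u + (-1 : ℤ) • ee v), ?_, ?_, ?_, ?_, ?_, ?_⟩
  · intro z
    simp only [Pi.add_apply, Pi.smul_apply, smul_eq_mul]
    by_cases h1 : z = u
    · subst h1
      rw [hu, ee_same, ee_ne huv]
      rcases ha with h | h <;> simp [h]
    · by_cases h2 : z = v
      · subst h2
        rw [hv, ee_same, ee_ne h1]
        rcases ha with h | h <;> simp [h]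
      · rw [ee_ne h1, ee_ne h2]
        simpa using hx z
  · intro z h1 h2
    simp [ee_ne h1, ee_ne h2]
  · simp only [Pi.add_apply, Pi.smul_apply, smul_eq_mul]
    rw [hu, ee_same, ee_ne huv]
    rcases ha with h | h <;> simp [h]
  · simp only [Pi.add_apply, Pi.smul_apply, smul_eq_mul]
    rw [hv, ee_same, ee_ne huv.symm]
    rcases ha with h | h <;> simp [h]
  · simp only [Pi.add_apply, Pi.smul_apply, smul_eq_mul, Finset.sum_add_distrib,
      ← Finset.mul_sum, sum_ee]
    ring
  · refine hq.trans (le_of_eq ?_)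
    rw [qf_ee_sub hw h0]
    ring

/-- Extension lemma: a partial signing with balanced sum extends to a full balanced signing
without increasing the quadratic form. -/
lemma extension {w : V → V → ℤ} (hw : ∀ u v, w u v = w v u) (h0 : ∀ v, w v v = 0)
    (hpos : ∀ u v, 0 ≤ w u v) (N : ℕ) :
    ∀ x : V → ℤ, (zeros x).card = N → IsTri x →
      (∑ z, x z = 0 ∨ (|∑ z, x z| = 1 ∧ Even N)) →
      ∃ y : V → ℤ, IsSign y ∧ |∑ z, y z| ≤ 1 ∧ qf w y ≤ qf w x := by
  induction N using Nat.strong_induction_on with
  | _ N ih =>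
    intro x hN hx hs
    rcases Nat.lt_or_ge N 2 with hlt | hge
    · interval_cases N
      · refine ⟨x, ?_, ?_, le_rfl⟩
        · intro v
          have : v ∉ zeros x := by
            rw [Finset.card_eq_zero.mp hN]; simp
          rcases hx v with h | h
          · exact absurd (mem_zeros.mpr h) this
          · exact h
        · rcases hs with h | h
          · rw [h]; simp
          · rw [h.1]
      · have hs0 : ∑ z, x z = 0 := by
          rcases hs with h | h
          · exact h
          · exact absurd h.2 (by decide)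
        obtain ⟨v, hv⟩ := Finset.card_eq_one.mp hN
        have hxv : x v = 0 := mem_zeros.mp (by rw [hv]; simp)
        obtain ⟨a, ha, hq⟩ := exists_sign hw x (ee v)
        refine ⟨x + a • ee v, ?_, ?_, ?_⟩
        · intro z
          simp only [Pi.add_apply, Pi.smul_apply, smul_eq_mul]
          by_cases h : z = v
          · subst h
            rw [hxv, ee_same]
            rcases ha with h | h <;> simp [h]
          · rw [ee_ne h]
            have : z ∉ zeros x := by rw [hv]; simpa using h
            rcases hx z with h' | h'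
            · exact absurd (mem_zeros.mpr h') this
            · simpa using h'
        · simp only [Pi.add_apply, Pi.smul_apply, smul_eq_mul, Finset.sum_add_distrib,
            ← Finset.mul_sum, sum_ee, hs0]
          rcases ha with h | h <;> simp [h]
        · refine hq.trans ?_
          rw [qf_ee, h0]
          have := abs_nonneg (bil w x (ee v))
          linarith
    · have h2 : 1 < (zeros x).card := by omega
      obtain ⟨u, hu, v, hv, huv⟩ := Finset.one_lt_card.mp h2
      obtain ⟨y, hy1, hy2, hy3, hy4, hy5, hy6⟩ :=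
        add_pair hw h0 hx huv (mem_zeros.mp hu) (mem_zeros.mp hv)
      have hz : zeros y = ((zeros x).erase u).erase v := by
        ext z
        simp only [mem_zeros, Finset.mem_erase]
        constructor
        · intro h
          have h1 : z ≠ v := fun h' => hy4 (h' ▸ h)
          have h2 : z ≠ u := fun h' => hy3 (h' ▸ h)
          exact ⟨h1, h2, by rw [← hy2 z h2 h1]; exact h⟩
        · rintro ⟨h1, h2, h3⟩
          rw [hy2 z h2 h1]; exact h3
      have hcard : (zeros y).card = N - 2 := by
        rw [hz, Finset.card_erase_of_mem (Finset.mem_erase.mpr ⟨huv.symm, hv⟩),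
          Finset.card_erase_of_mem hu, hN]
        omega
      obtain ⟨y', h1, h2', h3⟩ := ih (N - 2) (by omega) y hcard hy1 (by
        rw [hy5]
        rcases hs with h | h
        · exact Or.inl h
        · refine Or.inr ⟨h.1, ?_⟩
          obtain ⟨r, hr⟩ := h.2
          exact ⟨r - 1, by omega⟩)
      refine ⟨y', h1, h2', h3.trans (hy6.trans ?_)⟩
      have := abs_nonneg (bil w x (ee u + (-1 : ℤ) • ee v))
      have := hpos u v
      linarith

end Pool.Agent.Bisect
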