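import Mathlib
import Pool.Agent.Bisect.QF

/-!
# Balanced sign vectors with small quadratic form
-/

set_option autoImplicit false
set_option linter.unusedSectionVars false

namespace Pool.Agent.Bisect

open Finset

variable {V : Type*} [Fintype V] [DecidableEq V]

/-- The sign vector of a finite set. -/
def sg (A : Finset V) : V → ℤ := fun v => if v ∈ A then 1 else -1

lemma sg_mem {A : Finset V} {v : V} (h : v ∈ A) : sg A v = 1 := by simp [sg, h]
lemma sg_not_mem {A : Finset V} {v : V} (h : v ∉ A) : sg A v = -1 := by simp [sg, h]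

lemma sg_isSign (A : Finset V) : IsSign (sg A) := by
  intro v
  by_cases h : v ∈ A
  · left; exact sg_mem h
  · right; exact sg_not_mem h

lemma sg_surj {x : V → ℤ} (hx : IsSign x) : x = sg (univ.filter fun v => x v = 1) := by
  funext v
  rcases hx v with h | h
  · rw [sg_mem (by simp [h]), h]
  · rw [sg_not_mem (by simp [h]), h]

lemma sg_sq (A : Finset V) (v : V) : sg A v * sg A v = 1 := by
  rcases sg_isSign A v with h | h <;> rw [h] <;> norm_num

lemma sum_sg (A : Finset V) : ∑ v, sg A v = (A.card : ℤ) - (Aᶜ.card : ℤ) := by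
  have : ∀ v, sg A v = (if v ∈ A then (1:ℤ) else 0) - (if v ∈ Aᶜ then (1:ℤ) else 0) := by
    intro v
    by_cases h : v ∈ A <;> simp [sg, h]
  simp_rw [this]
  rw [Finset.sum_sub_distrib, Finset.sum_ite_mem, Finset.sum_ite_mem]
  simp

/-- The local optimum lemma. -/
lemma balanced {w : V → V → ℤ} (hw : ∀ u v, w u v = w v u) (h0 : ∀ v, w v v = 0) :
    ∃ A : Finset V, |∑ v, sg A v| ≤ 1 ∧
      ((Fintype.card V : ℤ) - 1 + (∑ v, sg A v) ^ 2) * qf w (sg A) ≤ - ∑ u, ∑ v, w u v := by
  classical
  -- existence of a balanced vector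
  have hne : ((univ : Finset (Finset V)).filter fun A => |∑ v, sg A v| ≤ 1).Nonempty := by
    obtain ⟨y, hy1, hy2, _⟩ := extension (V := V) (w := fun _ _ => 0) (fun _ _ => rfl)
      (fun _ => rfl) (fun _ _ => le_rfl) _ 0 rfl (fun _ => Or.inl rfl) (Or.inl (by simp))
    refine ⟨univ.filter fun v => y v = 1, ?_⟩
    rw [Finset.mem_filter]
    refine ⟨Finset.mem_univ _, ?_⟩
    rw [← sg_surj hy1]
    exact hy2
  obtain ⟨A, hA, hmin⟩ := Finset.exists_min_image _ (fun A => qf w (sg A)) hne
  rw [Finset.mem_filter] at hA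
  have hbal := hA.2
  refine ⟨A, hbal, ?_⟩
  set τ := sg A with hτ
  set s : V → ℤ := fun a => ∑ c, w c a * τ c with hs
  set T := ∑ v, τ v with hT
  set t : ℤ := (Fintype.card V : ℤ) with ht
  have hmin' : ∀ y : V → ℤ, IsSign y → |∑ v, y v| ≤ 1 → qf w τ ≤ qf w y := by
    intro y hy hyb
    have h1 := hmin (univ.filter fun v => y v = 1) (by
      rw [Finset.mem_filter]
      refine ⟨Finset.mem_univ _, ?_⟩
      rw [← sg_surj hy]
      exact hyb)
    rwa [← sg_surj hy] at h1
  -- swap condition
  have hswap : ∀ a b, τ a = 1 → τ b = -1 → s a - s b + 2 * w a b ≤ 0 := by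
    intro a b ha hb
    have hab : a ≠ b := by
      rintro rfl
      rw [ha] at hb
      norm_num at hb
    have h1 := hmin' (τ + (-2 : ℤ) • (ee a + (-1 : ℤ) • ee b)) (by
      intro v
      simp only [Pi.add_apply, Pi.smul_apply, smul_eq_mul]
      by_cases hva : v = a
      · subst hva
        rw [ha, ee_same, ee_ne hab]; right; norm_num
      · by_cases hvb : v = b
        · subst hvb
          rw [hb, ee_same, ee_ne hva]; left; norm_num
        · rw [ee_ne hva, ee_ne hvb]
          simpa using sg_isSign A v) (by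
      simp only [Pi.add_apply, Pi.smul_apply, smul_eq_mul, Finset.sum_add_distrib,
        ← Finset.mul_sum, sum_ee]
      simpa using hbal)
    rw [qf_add hw, bil_smul_right, qf_smul, qf_ee_sub hw h0, bil_add_right, bil_smul_right,
      bil_ee_right, bil_ee_right] at h1
    have h2 : s a - s b + 2 * w a b ≤ 0 := by
      simp only [hs]
      linarith
    exact h2
  -- the quadratic form as a sum
  have hQ : qf w τ = ∑ a, τ a * s a := by
    simp only [qf, bil, hs]
    rw [Finset.sum_comm]
    refine Finset.sum_congr rfl fun a _ => ?_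
    rw [Finset.mul_sum]
    exact Finset.sum_congr rfl fun c _ => by ring
  set Ss := ∑ a, s a with hSs
  have hcard : ∑ _a : V, (1 : ℤ) = t := by simp [ht]
  have hterm : ∀ a b, (1 + τ a) * (1 - τ b) * (s a - s b + 2 * w a b) ≤ 0 := by
    intro a b
    rcases sg_isSign A a with ha | ha
    · rcases sg_isSign A b with hb | hb
      · rw [← hτ] at hb
        rw [hb]; simp
      · rw [← hτ] at ha hb
        have := hswap a b ha hb
        rw [ha, hb]; linarith
    · rw [← hτ] at ha
      rw [ha]; simp
  have hsum : ∑ a, ∑ b, (1 + τ a) * (1 - τ b) * (s a - s b + 2 * w a b) ≤ 0 :=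
    Finset.sum_nonpos fun a _ => Finset.sum_nonpos fun b _ => hterm a b
  have hexp : ∑ a, ∑ b, (1 + τ a) * (1 - τ b) * (s a - s b + 2 * w a b)
      = (Ss + qf w τ) * (t - T) - (t + T) * (Ss - qf w τ)
        + 2 * ((∑ u, ∑ v, w u v) - qf w τ) := by
    have e1 : ∑ a, ∑ b, (1 + τ a) * (1 - τ b) * s a = (Ss + qf w τ) * (t - T) := by
      have : ∀ a, ∑ b, (1 + τ a) * (1 - τ b) * s a = (s a + τ a * s a) * (t - T) := by
        intro a
        rw [← hcard, hT, ← Finset.sum_sub_distrib, Finset.mul_sum]
        exact Finset.sum_congr rfl fun b _ => by ring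
      simp_rw [this]
      rw [← Finset.sum_mul, Finset.sum_add_distrib, ← hQ]
    have e2 : ∑ a, ∑ b, (1 + τ a) * (1 - τ b) * s b = (t + T) * (Ss - qf w τ) := by
      rw [Finset.sum_comm]
      have : ∀ b, ∑ a, (1 + τ a) * (1 - τ b) * s b = (t + T) * (s b - τ b * s b) := by
        intro b
        rw [← hcard, hT, ← Finset.sum_add_distrib, Finset.sum_mul]
        exact Finset.sum_congr rfl fun a _ => by ring
      simp_rw [this]
      rw [← Finset.mul_sum, Finset.sum_sub_distrib, ← hQ]
    have e3 : ∑ a, ∑ b, (1 + τ a) * (1 - τ b) * w a b = (∑ u, ∑ v, w u v) - qf w τ := by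
      have h1 : ∑ a, ∑ b, τ a * w a b = ∑ a, ∑ b, τ b * w a b := by
        rw [Finset.sum_comm]
        exact Finset.sum_congr rfl fun a _ => Finset.sum_congr rfl fun b _ => by rw [hw b a]
      have h2 : ∑ a, ∑ b, (1 + τ a) * (1 - τ b) * w a b
          = (∑ a, ∑ b, w a b) + (∑ a, ∑ b, τ a * w a b) - (∑ a, ∑ b, τ b * w a b)
            - ∑ a, ∑ b, w a b * τ a * τ b := by
        simp only [← Finset.sum_add_distrib, ← Finset.sum_sub_distrib]
        exact Finset.sum_congr rfl fun a _ => Finset.sum_congr rfl fun b _ => by ring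
      rw [h2, h1]
      simp only [qf, bil]
      ring
    rw [← e1, ← e2, ← e3]
    simp only [Finset.mul_sum, ← Finset.sum_add_distrib, ← Finset.sum_sub_distrib]
    exact Finset.sum_congr rfl fun a _ => Finset.sum_congr rfl fun b _ => by ring
  rw [hexp] at hsum
  have hmain : (t - 1) * qf w τ + (∑ u, ∑ v, w u v) ≤ T * Ss := by nlinarith
  have hTcases : T = 0 ∨ T = 1 ∨ T = -1 := by
    have h1 := abs_le.mp hbal
    omega
  rcases hTcases with h | h | h
  · rw [h] at hmain ⊢
    linarith
  · have hflip : ∀ a, (1 + τ a) * s a ≤ 0 := by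
      intro a
      rcases sg_isSign A a with ha | ha
      · rw [← hτ] at ha
        have h1 := hmin' (τ + (-2 : ℤ) • ee a) (by
          intro v
          simp only [Pi.add_apply, Pi.smul_apply, smul_eq_mul]
          by_cases hva : v = a
          · subst hva
            rw [ha, ee_same]; right; norm_num
          · rw [ee_ne hva]
            simpa using sg_isSign A v) (by
          simp only [Pi.add_apply, Pi.smul_apply, smul_eq_mul, Finset.sum_add_distrib,
            ← Finset.mul_sum, sum_ee, ← hT, h]
          norm_num)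
        rw [qf_add hw, bil_smul_right, qf_smul, qf_ee, h0, bil_ee_right] at h1
        have h2 : s a ≤ 0 := by simp only [hs]; linarith
        rw [ha]; linarith
      · rw [← hτ] at ha
        rw [ha]; simp
    have h1 : ∑ a, (1 + τ a) * s a ≤ 0 := Finset.sum_nonpos fun a _ => hflip a
    have h2 : ∑ a, (1 + τ a) * s a = Ss + qf w τ := by
      rw [hQ, hSs, ← Finset.sum_add_distrib]
      exact Finset.sum_congr rfl fun a _ => by ring
    rw [h2] at h1
    rw [h] at hmain ⊢
    linarith
  · have hflip : ∀ a, 0 ≤ (1 - τ a) * s a := by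
      intro a
      rcases sg_isSign A a with ha | ha
      · rw [← hτ] at ha
        rw [ha]; simp
      · rw [← hτ] at ha
        have h1 := hmin' (τ + (2 : ℤ) • ee a) (by
          intro v
          simp only [Pi.add_apply, Pi.smul_apply, smul_eq_mul]
          by_cases hva : v = a
          · subst hva
            rw [ha, ee_same]; left; norm_num
          · rw [ee_ne hva]
            simpa using sg_isSign A v) (by
          simp only [Pi.add_apply, Pi.smul_apply, smul_eq_mul, Finset.sum_add_distrib,
            ← Finset.mul_sum, sum_ee, ← hT, h]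
          norm_num)
        rw [qf_add hw, bil_smul_right, qf_smul, qf_ee, h0, bil_ee_right] at h1
        have h2 : 0 ≤ s a := by simp only [hs]; linarith
        rw [ha]; linarith
    have h1 : 0 ≤ ∑ a, (1 - τ a) * s a := Finset.sum_nonneg fun a _ => hflip a
    have h2 : ∑ a, (1 - τ a) * s a = Ss - qf w τ := by
      rw [hQ, hSs, ← Finset.sum_sub_distrib]
      exact Finset.sum_congr rfl fun a _ => by ring
    rw [h2] at h1
    rw [h] at hmain ⊢
    linarith

end Pool.Agent.Bisect
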