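import Mathlib
import Pool.Agent.Bisect.Balanced

/-!
# Weighted cuts: merging argument
-/

set_option autoImplicit false
set_option linter.unusedSectionVars false

namespace Pool.Agent.Bisect

open Finset

variable {V : Type*} [Fintype V] [DecidableEq V]

/-- The weight of a cut. -/
def wcut (w : V → V → ℤ) (A : Finset V) : ℤ := ∑ u ∈ A, ∑ v ∈ Aᶜ, w u v

lemma four_wcut {w : V → V → ℤ} (hw : ∀ u v, w u v = w v u) (A : Finset V) :
    4 * wcut w A = (∑ u, ∑ v, w u v) - qf w (sg A) := by
  have h1 : ∑ a, ∑ b, sg A a * w a b = ∑ a, ∑ b, sg A b * w a b := by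
    rw [Finset.sum_comm]
    exact Finset.sum_congr rfl fun a _ => Finset.sum_congr rfl fun b _ => by rw [hw b a]
  have h2 : ∑ a, ∑ b, (1 + sg A a) * (1 - sg A b) * w a b
      = (∑ a, ∑ b, w a b) + (∑ a, ∑ b, sg A a * w a b) - (∑ a, ∑ b, sg A b * w a b)
        - ∑ a, ∑ b, w a b * sg A a * sg A b := by
    simp only [← Finset.sum_add_distrib, ← Finset.sum_sub_distrib]
    exact Finset.sum_congr rfl fun a _ => Finset.sum_congr rfl fun b _ => by ring
  have h3 : ∑ a, ∑ b, (1 + sg A a) * (1 - sg A b) * w a b = 4 * wcut w A := by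
    unfold wcut
    rw [Finset.mul_sum, ← Finset.sum_subset (Finset.subset_univ A)]
    · refine Finset.sum_congr rfl fun a ha => ?_
      rw [Finset.mul_sum, ← Finset.sum_subset (Finset.subset_univ Aᶜ)]
      · refine Finset.sum_congr rfl fun b hb => ?_
        rw [sg_mem ha, sg_not_mem (Finset.mem_compl.mp hb)]
        ring
      · intro b _ hb
        rw [Finset.mem_compl, not_not] at hb
        rw [sg_mem hb]
        ring
    · intro a _ ha
      refine Finset.sum_eq_zero fun b _ => ?_
      rw [sg_not_mem ha]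
      ring
  rw [← h3, h2, h1]
  simp only [qf, bil]
  ring

/-- internal weight of a merging map -/
def inner (w : V → V → ℤ) (π : V → V) : ℤ := ∑ u, ∑ v, if π u = π v then w u v else 0

/-- merged weights -/
def wp (w : V → V → ℤ) (π : V → V) (a b : V) : ℤ :=
  ∑ u, ∑ v, if π u = a ∧ π v = b then w u v else 0

lemma wp_symm {w : V → V → ℤ} (hw : ∀ u v, w u v = w v u) (π : V → V) (a b : V) :
    wp w π a b = wp w π b a := by
  unfold wp
  rw [Finset.sum_comm]
  refine Finset.sum_congr rfl fun u _ => Finset.sum_congr rfl fun v _ => ?_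
  rw [hw v u]
  exact if_congr and_comm rfl rfl

lemma inner_merge (w : V → V → ℤ) (π : V → V) {a b : V} (hab : a ≠ b) :
    inner w (fun v => if π v = b then a else π v) = inner w π + wp w π a b + wp w π b a := by
  unfold inner wp
  simp only [← Finset.sum_add_distrib]
  refine Finset.sum_congr rfl fun u _ => Finset.sum_congr rfl fun v _ => ?_
  by_cases h1 : π u = b <;> by_cases h2 : π v = b
  · simp [h1, h2, hab.symm]
  · by_cases h3 : π v = a
    · simp [h1, h3, hab, hab.symm]
    · have h4 : ¬ b = π v := fun h => h2 h.symm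
      have h5 : ¬ a = π v := fun h => h3 h.symm
      simp [h1, h2, h3, h4, h5, hab.symm]
  · by_cases h3 : π u = a
    · simp [h2, h3, hab, hab.symm]
    · simp [h1, h2, h3, hab.symm]
  · simp [h1, h2]

/-- The basic merging lemma. -/
lemma exists_merge {w : V → V → ℤ} (hw : ∀ u v, w u v = w v u) (h0 : ∀ v, w v v = 0) :
    ∃ π : V → V, inner w π ≤ 0 ∧
      ∀ a ∈ univ.image π, ∀ b ∈ univ.image π, a ≠ b → 1 ≤ wp w π a b := by
  classical
  set N := Fintype.card V with hN
  obtain ⟨π, _, hmin⟩ := Finset.exists_min_image (univ : Finset (V → V))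
    (fun π => inner w π * (N + 1) + (univ.image π).card) ⟨id, Finset.mem_univ _⟩
  refine ⟨π, ?_, ?_⟩
  · have h1 := hmin id (Finset.mem_univ _)
    have h2 : inner w (id : V → V) = 0 := by
      unfold inner
      refine Finset.sum_eq_zero fun u _ => Finset.sum_eq_zero fun v _ => ?_
      by_cases h : u = v
      · subst h; simp [h0]
      · simp [h]
    rw [h2] at h1
    have h3 : ((univ.image (id : V → V)).card : ℤ) ≤ N := by
      exact_mod_cast (Finset.card_le_univ _)
    have h4 : (0:ℤ) ≤ ((univ.image π).card : ℤ) := by positivity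
    by_contra hcon
    push Not at hcon
    have : (N:ℤ) + 1 ≤ inner w π * (N + 1) := by nlinarith
    linarith
  · intro a ha b hb hab
    by_contra hcon
    push Not at hcon
    have h1 := hmin (fun v => if π v = b then a else π v) (Finset.mem_univ _)
    rw [inner_merge w π hab, wp_symm hw π b a] at h1
    have hsub : univ.image (fun v => if π v = b then a else π v) ⊆ (univ.image π).erase b := by
      intro c hc
      obtain ⟨v, _, rfl⟩ := Finset.mem_image.mp hc
      rw [Finset.mem_erase]
      by_cases h : π v = b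
      · simp only [h, if_true]
        exact ⟨hab, ha⟩
      · simp only [h, if_false]
        exact ⟨h, Finset.mem_image_of_mem _ (Finset.mem_univ _)⟩
    have hc1 := Finset.card_le_card hsub
    have hc2 := Finset.card_erase_lt_of_mem hb
    have hc : ((univ.image (fun v => if π v = b then a else π v)).card : ℤ) <
        ((univ.image π).card : ℤ) := by exact_mod_cast (lt_of_le_of_lt hc1 hc2)
    have hN0 : (0:ℤ) ≤ (N:ℤ) + 1 := by positivity
    have h5 : wp w π a b ≤ 0 := by linarith
    nlinarith

/-- Weighted cut lemma: there is `t ≥ 1` and a cut `A` of large weight. -/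
lemma weighted_cut [Nonempty V] {w : V → V → ℤ} (hw : ∀ u v, w u v = w v u)
    (h0 : ∀ v, w v v = 0) :
    ∃ (t : ℕ) (U : ℤ) (A : Finset V), 1 ≤ t ∧ (∑ u, ∑ v, w u v) ≤ U ∧ (t:ℤ) * (t - 1) ≤ U ∧
      (Even t → U * t ≤ 4 * (t - 1) * wcut w A) ∧ (Odd t → U * (t + 1) ≤ 4 * t * wcut w A) ∧
      ((t * t / 4 : ℕ) : ℤ) ≤ wcut w A := by
  classical
  obtain ⟨π, hin, hone⟩ := exists_merge hw h0
  set K := univ.image π with hK
  let u : K → K → ℤ := fun a b => if a = b then 0 else wp w π a b
  have hu : ∀ a b, u a b = u b a := by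
    intro a b
    simp only [u]
    by_cases h : a = b
    · simp [h]
    · rw [if_neg h, if_neg (fun h' => h h'.symm), wp_symm hw]
  have hu0 : ∀ a, u a a = 0 := fun a => by simp [u]
  have hu1 : ∀ a b, a ≠ b → 1 ≤ u a b := by
    intro a b hab
    simp only [u, if_neg hab]
    exact hone a a.2 b b.2 (fun h => hab (Subtype.ext h))
  obtain ⟨B, hB1, hB2⟩ := balanced hu hu0
  set t := Fintype.card K with ht
  set U := ∑ a, ∑ b, u a b with hU
  have hmem : ∀ v, π v ∈ K := fun v => Finset.mem_image_of_mem _ (Finset.mem_univ _)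
  have htpos : 1 ≤ t := by
    obtain ⟨v⟩ := ‹Nonempty V›
    exact Fintype.card_pos_iff.mpr ⟨⟨π v, hmem v⟩⟩
  -- the cut
  let A : Finset V := univ.filter fun v => (⟨π v, hmem v⟩ : K) ∈ B
  -- rewriting sums over K
  have hpush : ∀ f : K → K → ℤ, ∑ a, ∑ b, f a b * wp w π a b
      = ∑ x, ∑ y, f ⟨π x, hmem x⟩ ⟨π y, hmem y⟩ * w x y := by
    intro f
    simp only [wp, Finset.mul_sum]
    rw [Finset.sum_congr rfl fun a _ => Finset.sum_comm]
    rw [Finset.sum_comm]
    refine Finset.sum_congr rfl fun x _ => ?_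
    rw [Finset.sum_congr rfl fun a _ => Finset.sum_comm]
    rw [Finset.sum_comm]
    refine Finset.sum_congr rfl fun y _ => ?_
    rw [Finset.sum_eq_single (⟨π x, hmem x⟩ : K), Finset.sum_eq_single (⟨π y, hmem y⟩ : K)]
    · simp
    · intro b _ hb
      have : ¬ π y = (b : V) := fun h => hb (Subtype.ext h.symm)
      simp [this]
    · simp
    · intro a _ ha
      refine Finset.sum_eq_zero fun b _ => ?_
      have : ¬ π x = (a : V) := fun h => ha (Subtype.ext h.symm)
      simp [this]
    · simp
  have hUle : (∑ x, ∑ y, w x y) ≤ U := by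
    have h1 : U = ∑ a : K, ∑ b : K, (if a = b then (0:ℤ) else 1) * wp w π a b := by
      rw [hU]
      refine Finset.sum_congr rfl fun a _ => Finset.sum_congr rfl fun b _ => ?_
      simp only [u]
      split_ifs <;> ring
    rw [h1, hpush]
    have h2 : ∑ x, ∑ y, (if (⟨π x, hmem x⟩ : K) = ⟨π y, hmem y⟩ then (0:ℤ) else 1) * w x y
        = (∑ x, ∑ y, w x y) - inner w π := by
      unfold inner
      simp only [← Finset.sum_sub_distrib]
      refine Finset.sum_congr rfl fun x _ => Finset.sum_congr rfl fun y _ => ?_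
      by_cases h : π x = π y
      · simp [h]
      · simp [h]
    rw [h2]
    linarith
  have hUt : (t:ℤ) * (t - 1) ≤ U := by
    have h1 : ∑ a : K, ∑ b : K, (if a = b then (0:ℤ) else 1) ≤ U := by
      refine Finset.sum_le_sum fun a _ => Finset.sum_le_sum fun b _ => ?_
      by_cases h : a = b
      · simp [h, hu0]
      · rw [if_neg h]; exact hu1 a b h
    refine le_trans (le_of_eq ?_) h1
    have h2 : ∀ a : K, ∑ b : K, (if a = b then (0:ℤ) else 1) = t - 1 := by
      intro a
      have : ∀ b : K, (if a = b then (0:ℤ) else 1) = 1 - (if a = b then 1 else 0) := by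
        intro b; split_ifs <;> ring
      simp_rw [this]
      rw [Finset.sum_sub_distrib]
      simp [ht]
    simp_rw [h2]
    simp [ht]
    ring
  have hcut : wcut w A = wcut u B := by
    have h1 : 4 * wcut u B = ∑ a : K, ∑ b : K, ((1 + sg B a) * (1 - sg B b)) * wp w π a b := by
      rw [four_wcut hu]
      have e1 : ∑ a, ∑ b, sg B a * u a b = ∑ a, ∑ b, sg B b * u a b := by
        rw [Finset.sum_comm]
        exact Finset.sum_congr rfl fun a _ => Finset.sum_congr rfl fun b _ => by rw [hu b a]
      have e2 : ∑ a : K, ∑ b : K, ((1 + sg B a) * (1 - sg B b)) * wp w π a b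
          = ∑ a : K, ∑ b : K, ((1 + sg B a) * (1 - sg B b)) * u a b := by
        refine Finset.sum_congr rfl fun a _ => Finset.sum_congr rfl fun b _ => ?_
        by_cases h : a = b
        · subst h
          have : (1 + sg B a) * (1 - sg B a) = 0 := by
            have := sg_sq B a
            ring_nf
            nlinarith
          rw [this]; ring
        · simp only [u, if_neg h]
      have e3 : ∑ a : K, ∑ b : K, ((1 + sg B a) * (1 - sg B b)) * u a b
          = (∑ a, ∑ b, u a b) + (∑ a, ∑ b, sg B a * u a b) - (∑ a, ∑ b, sg B b * u a b)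
            - ∑ a, ∑ b, u a b * sg B a * sg B b := by
        simp only [← Finset.sum_add_distrib, ← Finset.sum_sub_distrib]
        exact Finset.sum_congr rfl fun a _ => Finset.sum_congr rfl fun b _ => by ring
      rw [e2, e3, e1]
      simp only [qf, bil]
      ring
    rw [hpush (fun a b => (1 + sg B a) * (1 - sg B b))] at h1
    have h2 : 4 * wcut w A = ∑ x, ∑ y, (1 + sg A x) * (1 - sg A y) * w x y := by
      rw [four_wcut hw]
      have e1 : ∑ a, ∑ b, sg A a * w a b = ∑ a, ∑ b, sg A b * w a b := by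
        rw [Finset.sum_comm]
        exact Finset.sum_congr rfl fun a _ => Finset.sum_congr rfl fun b _ => by rw [hw b a]
      have e3 : ∑ a, ∑ b, ((1 + sg A a) * (1 - sg A b)) * w a b
          = (∑ a, ∑ b, w a b) + (∑ a, ∑ b, sg A a * w a b) - (∑ a, ∑ b, sg A b * w a b)
            - ∑ a, ∑ b, w a b * sg A a * sg A b := by
        simp only [← Finset.sum_add_distrib, ← Finset.sum_sub_distrib]
        exact Finset.sum_congr rfl fun a _ => Finset.sum_congr rfl fun b _ => by ring
      rw [e3, e1]
      simp only [qf, bil]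
      ring
    have h3 : ∀ x, sg A x = sg B ⟨π x, hmem x⟩ := by
      intro x
      simp [sg, A]
    simp_rw [h3] at h2
    linarith
  have hfour := four_wcut hu B
  have hTcases : (∑ v, sg B v) = 0 ∨ (∑ v, sg B v) = 1 ∨ (∑ v, sg B v) = -1 := by
    have h1 := abs_le.mp hB1
    omega
  have hcards : (B.card : ℤ) + (Bᶜ.card : ℤ) = t := by
    have := Finset.card_add_card_compl B
    exact_mod_cast this
  have hsg := sum_sg B
  refine ⟨t, U, A, htpos, hUle, hUt, ?_, ?_, ?_⟩
  · intro heven
    have hT0 : (∑ v, sg B v) = 0 := by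
      obtain ⟨r, hr⟩ := heven
      rw [hsg] at hTcases ⊢
      omega
    rw [hT0] at hB2
    rw [hcut]
    nlinarith
  · intro hodd
    have hT1 : (∑ v, sg B v) ^ 2 = 1 := by
      obtain ⟨r, hr⟩ := hodd
      rw [hsg] at hTcases ⊢
      have : (B.card : ℤ) - (Bᶜ.card : ℤ) = 1 ∨ (B.card : ℤ) - (Bᶜ.card : ℤ) = -1 := by omega
      rcases this with h | h <;> rw [h] <;> norm_num
    rw [hT1] at hB2
    rw [hcut]
    nlinarith
  · rw [hcut]
    have h1 : (B.card : ℤ) * (Bᶜ.card : ℤ) ≤ wcut u B := by
      unfold wcut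
      have : ∑ x ∈ B, ∑ y ∈ Bᶜ, (1:ℤ) ≤ ∑ x ∈ B, ∑ y ∈ Bᶜ, u x y := by
        refine Finset.sum_le_sum fun x hx => Finset.sum_le_sum fun y hy => ?_
        apply hu1
        rintro rfl
        exact (Finset.mem_compl.mp hy) hx
      simpa using this
    refine le_trans ?_ h1
    rw [hsg] at hTcases
    have h2 : (t:ℤ) * t = 4 * ((B.card : ℤ) * (Bᶜ.card : ℤ)) + ((B.card : ℤ) - (Bᶜ.card : ℤ)) ^ 2 := by
      rw [← hcards]; ring
    have h3 : ((t * t / 4 : ℕ) : ℤ) * 4 ≤ (t:ℤ) * t := by
      have := Nat.div_mul_le_self (t * t) 4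
      exact_mod_cast this
    have h4 : ((B.card : ℤ) - (Bᶜ.card : ℤ)) ^ 2 ≤ 1 := by
      rcases hTcases with h | h | h <;> rw [h] <;> norm_num
    omega

end Pool.Agent.Bisect
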