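import Mathlib

/-!
# Bisections of graphs with a minimum degree condition: definitions
-/

set_option autoImplicit false

namespace Pool.Agent.Bisect

open Classical in
/-- The number of edges of `G` with exactly one end in `A`. -/
noncomputable def cutSize {V : Type} [Fintype V] (G : SimpleGraph V) (A : Finset V) : ℕ :=
  (G.interedges A Aᶜ).card

open Classical in
/-- `(A, Aᶜ)` is a bisection: `|A| ≤ |Aᶜ| ≤ |A| + 1`. -/
def IsBisection {V : Type} [Fintype V] (A : Finset V) : Prop :=
  A.card ≤ Aᶜ.card ∧ Aᶜ.card ≤ A.card + 1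

/-- `b(G)`: the maximum size of a bisection of `G`. -/
noncomputable def maxBisection {V : Type} [Fintype V] (G : SimpleGraph V) : ℕ :=
  sSup {k | ∃ A : Finset V, IsBisection A ∧ cutSize G A = k}

/-- The maximum size of a cut of `G`. -/
noncomputable def maxCut {V : Type} [Fintype V] (G : SimpleGraph V) : ℕ :=
  sSup {k | ∃ A : Finset V, cutSize G A = k}

/-- `b_δ(m)`: the minimum of `b(G)` over all finite simple graphs with `m` edges and minimum degree
at least `δ`. -/
noncomputable def bisMin (δ m : ℕ) : ℕ :=
  sInf {k | ∃ (V : Type) (_ : Fintype V) (G : SimpleGraph V),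
    G.edgeSet.ncard = m ∧ (∀ v, δ ≤ (G.neighborSet v).ncard) ∧ maxBisection G = k}

/-- The Edwards function `f(h)`: the minimum of the maximum cut over all finite simple graphs with
`h` edges. -/
noncomputable def cutMin (h : ℕ) : ℕ :=
  sInf {k | ∃ (V : Type) (_ : Fintype V) (G : SimpleGraph V),
    G.edgeSet.ncard = h ∧ maxCut G = k}

open Classical in
/-- The weighted Edwards function: the least `k` such that some integer-weighted
finite complete graph of total weight `h` has all its cuts of weight at most `k`. -/
noncomputable def weightedCutMin (h : ℕ) : ℕ :=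
  sInf {k : ℕ | ∃ (V : Type) (_ : Fintype V) (w : V → V → ℤ),
    (∀ u v, w u v = w v u) ∧ (∀ v, w v v = 0) ∧ ∑ u, ∑ v, w u v = 2 * h ∧
    ∀ A : Finset V, ∑ u ∈ A, ∑ v ∈ Aᶜ, w u v ≤ k}

end Pool.Agent.Bisect
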