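import Mathlib
import Pool.Agent.Bisect.Defs
import Pool.Agent.Bisect.Merge

/-!
# Graphs and quadratic forms
-/

set_option autoImplicit false
set_option linter.unusedSectionVars false

namespace Pool.Agent.Bisect

open Finset

open Classical in
/-- adjacency weights -/
noncomputable def adjW {V : Type} (G : SimpleGraph V) : V → V → ℤ := fun u v => if G.Adj u v then 1 else 0

section

variable {V : Type} [Fintype V] (G : SimpleGraph V)

lemma adjW_symm (u v : V) : adjW G u v = adjW G v u := by
  unfold adjW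
  by_cases h : G.Adj u v
  · rw [if_pos h, if_pos h.symm]
  · rw [if_neg h, if_neg (fun h' => h h'.symm)]

lemma adjW_self (v : V) : adjW G v v = 0 := by
  unfold adjW
  simp

lemma adjW_nonneg (u v : V) : 0 ≤ adjW G u v := by
  unfold adjW
  split_ifs <;> norm_num

lemma adjW_le_one (u v : V) : adjW G u v ≤ 1 := by
  unfold adjW
  split_ifs <;> norm_num

lemma adjW_of_adj {u v : V} (h : G.Adj u v) : adjW G u v = 1 := by
  unfold adjW; simp [h]

lemma adjW_of_not_adj {u v : V} (h : ¬ G.Adj u v) : adjW G u v = 0 := by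
  unfold adjW; simp [h]

open Classical in
lemma adjW_row (u : V) : ∑ v, adjW G u v = ((G.neighborSet u).ncard : ℤ) := by
  unfold adjW
  rw [← Finset.sum_filter, Finset.sum_const, nsmul_eq_mul, mul_one, Set.ncard_eq_toFinset_card']
  congr 2
  ext v
  simp

open Classical in
lemma adjW_sum : ∑ u, ∑ v, adjW G u v = 2 * (G.edgeSet.ncard : ℤ) := by
  simp_rw [adjW_row]
  have h := G.sum_degrees_eq_twice_card_edges
  rw [Set.ncard_eq_toFinset_card']
  have h2 : ∀ u, (G.neighborSet u).ncard = G.degree u := by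
    intro u
    rw [Set.ncard_eq_toFinset_card', ← G.card_neighborFinset_eq_degree]
    rfl
  simp_rw [h2]
  have h3 : (∑ u, (G.degree u : ℤ)) = ((∑ u, G.degree u : ℕ) : ℤ) := by push_cast; rfl
  rw [h3, h]
  push_cast
  congr 2

open Classical in
lemma cutSize_eq (A : Finset V) : (cutSize G A : ℤ) = wcut (adjW G) A := by
  unfold cutSize wcut adjW
  rw [SimpleGraph.interedges, Rel.interedges, Finset.card_filter, Finset.sum_product]
  push_cast
  rfl

lemma cutSize_le (A : Finset V) : cutSize G A ≤ Fintype.card V * Fintype.card V := by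
  classical
  unfold cutSize
  refine (Finset.card_filter_le _ _).trans ?_
  rw [Finset.card_product]
  exact Nat.mul_le_mul (Finset.card_le_univ _) (Finset.card_le_univ _)

lemma le_maxBisection {A : Finset V} (hA : IsBisection A) : cutSize G A ≤ maxBisection G := by
  apply le_csSup
  · refine ⟨Fintype.card V * Fintype.card V, ?_⟩
    rintro k ⟨B, _, rfl⟩
    exact cutSize_le G B
  · exact ⟨A, hA, rfl⟩

lemma le_maxCut (A : Finset V) : cutSize G A ≤ maxCut G := by
  apply le_csSup
  · refine ⟨Fintype.card V * Fintype.card V, ?_⟩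
    rintro k ⟨B, rfl⟩
    exact cutSize_le G B
  · exact ⟨A, rfl⟩

lemma maxBisection_le {k : ℕ} (h : ∀ A : Finset V, IsBisection A → cutSize G A ≤ k) :
    maxBisection G ≤ k := by
  unfold maxBisection
  rcases Set.eq_empty_or_nonempty {k | ∃ A : Finset V, IsBisection A ∧ cutSize G A = k} with he | hne
  · rw [he]; simp
  · apply csSup_le hne
    rintro _ ⟨A, hA, rfl⟩
    exact h A hA

lemma maxCut_le {k : ℕ} (h : ∀ A : Finset V, cutSize G A ≤ k) : maxCut G ≤ k := by
  unfold maxCut
  apply csSup_le
  · exact ⟨_, ∅, rfl⟩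
  · rintro _ ⟨A, rfl⟩
    exact h A

open Classical in
/-- A sign vector with almost zero sum gives a bisection. -/
lemma four_maxBisection_ge {y : V → ℤ} (hy : IsSign y) (hs : |∑ v, y v| ≤ 1) :
    2 * (G.edgeSet.ncard : ℤ) - qf (adjW G) y ≤ 4 * (maxBisection G : ℤ) := by
  have hsw := adjW_symm G
  obtain ⟨A, hA⟩ : ∃ A : Finset V, y = sg A := ⟨_, sg_surj hy⟩
  subst hA
  have hsum := sum_sg A
  rw [hsum] at hs
  have hab := abs_le.mp hs
  rcases le_total A.card Aᶜ.card with h | h
  · have hb : IsBisection A := ⟨h, by omega⟩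
    have h1 := le_maxBisection G hb
    have h2 := four_wcut hsw A
    rw [← cutSize_eq, adjW_sum] at h2
    have h3 : (cutSize G A : ℤ) ≤ maxBisection G := by exact_mod_cast h1
    linarith
  · have hb : IsBisection Aᶜ := ⟨by rw [compl_compl]; exact h, by rw [compl_compl]; omega⟩
    have h1 := le_maxBisection G hb
    have h2 := four_wcut hsw Aᶜ
    have h4 : sg Aᶜ = (-1 : ℤ) • sg A := by
      funext v
      by_cases hv : v ∈ A
      · simp [sg, hv]
      · simp [sg, hv]
    rw [← cutSize_eq, adjW_sum, h4, qf_smul] at h2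
    have h3 : (cutSize G Aᶜ : ℤ) ≤ maxBisection G := by exact_mod_cast h1
    linarith

open Classical in
/-- From a partial sign vector with zero sum. -/
lemma four_maxBisection_ge' {x : V → ℤ} (hx : IsTri x)
    (hs : ∑ z, x z = 0 ∨ (|∑ z, x z| = 1 ∧ Even (zeros x).card)) :
    2 * (G.edgeSet.ncard : ℤ) - qf (adjW G) x ≤ 4 * (maxBisection G : ℤ) := by
  obtain ⟨y, h1, h2, h3⟩ := extension (adjW_symm G) (adjW_self G) (adjW_nonneg G) _ x rfl hx hs
  have := four_maxBisection_ge G h1 h2
  linarith

end

end Pool.Agent.Bisect
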