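import Mathlib
import Pool.Agent.Bisect.Graph

/-!
# Structural lemmas: large matchings, two popular neighbourhoods
-/

set_option autoImplicit false
set_option linter.unusedSectionVars false

namespace Pool.Agent.Bisect

open Finset

open Classical

variable {V : Type} [Fintype V] (G : SimpleGraph V)

/-- indicator vector -/
noncomputable def ind (A : Finset V) : V → ℤ := fun v => if v ∈ A then 1 else 0

lemma ind_mem {A : Finset V} {v : V} (h : v ∈ A) : ind A v = 1 := by simp [ind, h]
lemma ind_not_mem {A : Finset V} {v : V} (h : v ∉ A) : ind A v = 0 := by simp [ind, h]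

lemma sum_ind (A : Finset V) : ∑ v, ind A v = A.card := by
  simp [ind]

lemma bil_ind_right (w : V → V → ℤ) (x : V → ℤ) (B : Finset V) :
    bil w x (ind B) = ∑ v ∈ B, bil w x (ee v) := by
  simp only [bil_ee_right]
  unfold bil
  rw [Finset.sum_comm]
  rw [← Finset.sum_subset (Finset.subset_univ B)]
  · refine Finset.sum_congr rfl fun v hv => Finset.sum_congr rfl fun u _ => ?_
    rw [ind_mem hv]; ring
  · intro v _ hv
    refine Finset.sum_eq_zero fun u _ => ?_
    rw [ind_not_mem hv]; ring

lemma bil_ind_left_ee (w : V → V → ℤ) (A : Finset V) (v : V) :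
    bil w (ind A) (ee v) = ∑ u ∈ A, w u v := by
  rw [bil_ee_right]
  rw [← Finset.sum_subset (Finset.subset_univ A)]
  · refine Finset.sum_congr rfl fun u hu => ?_
    rw [ind_mem hu]; ring
  · intro u _ hu
    rw [ind_not_mem hu]; ring

lemma bil_ind_ind (w : V → V → ℤ) (A B : Finset V) :
    bil w (ind A) (ind B) = ∑ v ∈ B, ∑ u ∈ A, w u v := by
  rw [bil_ind_right]
  exact Finset.sum_congr rfl fun v _ => bil_ind_left_ee w A v

/-- support -/
noncomputable def supp (x : V → ℤ) : Finset V := univ.filter fun v => x v ≠ 0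

lemma mem_supp {x : V → ℤ} {v : V} : v ∈ supp x ↔ x v ≠ 0 := by simp [supp]

lemma qf_le_supp {x : V → ℤ} (hx : IsTri x) : qf (adjW G) x ≤ (supp x).card * (supp x).card := by
  have h1 : ∀ u v, adjW G u v * x u * x v ≤ (if u ∈ supp x then (1:ℤ) else 0) *
      (if v ∈ supp x then (1:ℤ) else 0) := by
    intro u v
    by_cases hu : x u = 0
    · have : u ∉ supp x := by rw [mem_supp]; simp [hu]
      simp [hu, this]
    · by_cases hv : x v = 0
      · have : v ∉ supp x := by rw [mem_supp]; simp [hv]
        simp [hv, this]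
      · rw [if_pos (mem_supp.mpr hu), if_pos (mem_supp.mpr hv)]
        have a1 := adjW_nonneg G u v
        have a2 := adjW_le_one G u v
        rcases hx u with h | h | h
        · exact absurd h hu
        · rcases hx v with h' | h' | h'
          · exact absurd h' hv
          · rw [h, h']; linarith
          · rw [h, h']; linarith
        · rcases hx v with h' | h' | h'
          · exact absurd h' hv
          · rw [h, h']; linarith
          · rw [h, h']; linarith
  unfold qf bil
  refine (Finset.sum_le_sum fun u _ => Finset.sum_le_sum fun v _ => h1 u v).trans ?_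
  rw [← Finset.sum_mul_sum]
  simp

/-- Either a good vector coming from a matching or a small vertex cover. -/
lemma match_or_cover (r : ℕ) :
    (∃ x : V → ℤ, IsTri x ∧ ∑ v, x v = 0 ∧ (supp x).card ≤ 2 * r ∧ qf (adjW G) x ≤ -(2 * r)) ∨
    (∃ W : Finset V, W.card ≤ 2 * r ∧ ∀ u, u ∉ W → ∀ v, v ∉ W → ¬ G.Adj u v) := by
  induction r with
  | zero =>
    left
    refine ⟨0, fun v => Or.inl rfl, by simp, by simp [supp], ?_⟩
    simp [qf, bil]
  | succ r ih =>
    rcases ih with ⟨x, h1, h2, h3, h4⟩ | ⟨W, h1, h2⟩
    · by_cases hind : ∀ u, u ∉ supp x → ∀ v, v ∉ supp x → ¬ G.Adj u v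
      · right
        exact ⟨supp x, by omega, hind⟩
      · push Not at hind
        obtain ⟨u, hu, v, hv, huv⟩ := hind
        have hxu : x u = 0 := by
          by_contra h; exact hu (mem_supp.mpr h)
        have hxv : x v = 0 := by
          by_contra h; exact hv (mem_supp.mpr h)
        obtain ⟨y, y1, y2, _, _, y5, y6⟩ :=
          add_pair (adjW_symm G) (adjW_self G) h1 huv.ne hxu hxv
        left
        refine ⟨y, y1, by rw [y5]; exact h2, ?_, ?_⟩
        · have hsub : supp y ⊆ insert u (insert v (supp x)) := by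
            intro z hz
            rw [Finset.mem_insert, Finset.mem_insert]
            by_cases hzu : z = u
            · exact Or.inl hzu
            · by_cases hzv : z = v
              · exact Or.inr (Or.inl hzv)
              · right; right
                rw [mem_supp, ← y2 z hzu hzv]
                exact mem_supp.mp hz
          have c1 := Finset.card_le_card hsub
          have c2 := Finset.card_insert_le u (insert v (supp x))
          have c3 := Finset.card_insert_le v (supp x)
          omega
        · rw [adjW_of_adj G huv] at y6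
          have := abs_nonneg (bil (adjW G) x (ee u + (-1 : ℤ) • ee v))
          push_cast
          linarith
    · right
      exact ⟨W, by omega, h2⟩

/-- Gaining from pairs of vertices with different biases. -/
lemma pairs_gain (K : ℕ) : ∀ (x : V → ℤ) (P P' : Finset V) (β β' : ℤ), IsTri x → ∑ v, x v = 0 →
    β ≠ β' → Disjoint P P' → (∀ v ∈ P ∪ P', x v = 0) →
    (∀ u ∈ P ∪ P', ∀ v ∈ P ∪ P', ¬ G.Adj u v) →
    (∀ v ∈ P, bil (adjW G) x (ee v) = β) → (∀ v ∈ P', bil (adjW G) x (ee v) = β') →
    K ≤ P.card → K ≤ P'.card →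
    ∃ y : V → ℤ, IsTri y ∧ ∑ v, y v = 0 ∧ qf (adjW G) y ≤ qf (adjW G) x - 2 * K := by
  induction K with
  | zero =>
    intro x P P' β β' h1 h2 _ _ _ _ _ _ _ _
    exact ⟨x, h1, h2, by simp⟩
  | succ K ih =>
    intro x P P' β β' h1 h2 hβ hd h0 hind hP hP' hc hc'
    obtain ⟨p, hp⟩ : P.Nonempty := Finset.card_pos.mp (by omega)
    obtain ⟨p', hp'⟩ : P'.Nonempty := Finset.card_pos.mp (by omega)
    have hpp' : p ≠ p' := fun h => Finset.disjoint_left.mp hd hp (h ▸ hp')
    have hpU : p ∈ P ∪ P' := Finset.mem_union_left _ hp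
    have hpU' : p' ∈ P ∪ P' := Finset.mem_union_right _ hp'
    obtain ⟨y, y1, y2, _, _, y5, y6⟩ :=
      add_pair (adjW_symm G) (adjW_self G) h1 hpp' (h0 p hpU) (h0 p' hpU')
    have hbil : ∀ z ∈ P ∪ P', bil (adjW G) y (ee z) = bil (adjW G) x (ee z) := by
      intro z hz
      rw [bil_ee_right, bil_ee_right]
      refine Finset.sum_congr rfl fun u _ => ?_
      by_cases hu : u = p
      · rw [hu, adjW_of_not_adj G (hind p hpU z hz)]; ring
      · by_cases hu' : u = p'
        · rw [hu', adjW_of_not_adj G (hind p' hpU' z hz)]; ring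
        · rw [y2 u hu hu']
    have hsub : P.erase p ∪ P'.erase p' ⊆ P ∪ P' :=
      Finset.union_subset_union (Finset.erase_subset _ _) (Finset.erase_subset _ _)
    obtain ⟨y', z1, z2, z3⟩ := ih y (P.erase p) (P'.erase p') β β' y1 (by rw [y5]; exact h2) hβ
      (hd.mono (Finset.erase_subset _ _) (Finset.erase_subset _ _))
      (by
        intro v hv
        have hvp : v ≠ p := by
          rintro rfl
          rcases Finset.mem_union.mp hv with h | h
          · exact (Finset.notMem_erase _ _) h
          · exact Finset.disjoint_left.mp hd hp (Finset.mem_of_mem_erase h)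
        have hvp' : v ≠ p' := by
          rintro rfl
          rcases Finset.mem_union.mp hv with h | h
          · exact Finset.disjoint_left.mp hd (Finset.mem_of_mem_erase h) hp'
          · exact (Finset.notMem_erase _ _) h
        rw [y2 v hvp hvp']
        exact h0 v (hsub hv))
      (fun u hu v hv => hind u (hsub hu) v (hsub hv))
      (fun v hv => by
        rw [hbil v (Finset.mem_union_left _ (Finset.mem_of_mem_erase hv))]
        exact hP v (Finset.mem_of_mem_erase hv))
      (fun v hv => by
        rw [hbil v (Finset.mem_union_right _ (Finset.mem_of_mem_erase hv))]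
        exact hP' v (Finset.mem_of_mem_erase hv))
      (by rw [Finset.card_erase_of_mem hp]; omega)
      (by rw [Finset.card_erase_of_mem hp']; omega)
    refine ⟨y', z1, z2, z3.trans ?_⟩
    have hb : bil (adjW G) x (ee p + (-1 : ℤ) • ee p') = β - β' := by
      rw [bil_add_right, bil_smul_right, hP p hp, hP' p' hp']; ring
    rw [hb] at y6
    have h3 : 1 ≤ |β - β'| := Int.one_le_abs (sub_ne_zero.mpr hβ)
    have h4 := adjW_nonneg G p p'
    push_cast
    linarith

/-- the neighbourhood inside `W` -/
noncomputable def nb (W : Finset V) (v : V) : Finset V := W.filter fun u => G.Adj u v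

/-- vertices outside `W` with neighbourhood `S` -/
noncomputable def cls (W S : Finset V) : Finset V := univ.filter fun v => v ∉ W ∧ nb G W v = S

lemma mem_cls {W S : Finset V} {v : V} : v ∈ cls G W S ↔ v ∉ W ∧ nb G W v = S := by
  simp [cls]

lemma bil_ee_cover {W : Finset V} (hW : ∀ u, u ∉ W → ∀ v, v ∉ W → ¬ G.Adj u v) (x : V → ℤ)
    {v : V} (hv : v ∉ W) : bil (adjW G) x (ee v) = ∑ u ∈ nb G W v, x u := by
  rw [bil_ee_right, nb, Finset.sum_filter, ← Finset.sum_subset (Finset.subset_univ W)]
  · refine Finset.sum_congr rfl fun u _ => ?_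
    by_cases h : G.Adj u v
    · rw [if_pos h, adjW_of_adj G h, one_mul]
    · rw [if_neg h, adjW_of_not_adj G h, zero_mul]
  · intro u _ hu
    rw [adjW_of_not_adj G (hW u hu v hv), zero_mul]

/-- Adding a constant multiple of an indicator to reach a prescribed sum. -/
lemma exists_fill (P : Finset V) (d : ℤ) (hd : d.natAbs ≤ P.card) :
    ∃ (J : Finset V) (c : ℤ), J ⊆ P ∧ J.card = d.natAbs ∧ (c = 1 ∨ c = -1) ∧ c * J.card = d := by
  obtain ⟨J, hJ, hJc⟩ := Finset.exists_subset_card_eq hd
  rcases le_total 0 d with h | h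
  · refine ⟨J, 1, hJ, hJc, Or.inl rfl, ?_⟩
    rw [hJc, one_mul]
    exact Int.natAbs_of_nonneg h
  · refine ⟨J, -1, hJ, hJc, Or.inr rfl, ?_⟩
    rw [hJc]
    have := Int.ofNat_natAbs_of_nonpos h
    linarith

/-- Two popular classes give a large gain. -/
lemma two_classes {W S T : Finset V} (hW : ∀ u, u ∉ W → ∀ v, v ∉ W → ¬ G.Adj u v)
    (hST : S ≠ T) (hS : S ⊆ W) (hT : T ⊆ W) (r : ℕ)
    (hcS : W.card + (2 * W.card * W.card + r) ≤ (cls G W S).card)
    (hcT : 2 * W.card * W.card + r ≤ (cls G W T).card) :
    ∃ y : V → ℤ, IsTri y ∧ ∑ v, y v = 0 ∧ qf (adjW G) y ≤ -(2 * r) := by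
  -- sign vector on W
  obtain ⟨σ, hσ0, hσ1, hσ2⟩ : ∃ σ : V → ℤ, (∀ v, v ∉ W → σ v = 0) ∧
      (∀ v ∈ W, σ v = 1 ∨ σ v = -1) ∧ ∑ u ∈ S, σ u ≠ ∑ u ∈ T, σ u := by
    by_cases hcard : S.card = T.card
    · have hnsub : ¬ T ⊆ S := fun h => hST (Finset.eq_of_subset_of_card_le h hcard.le).symm
      obtain ⟨u0, hu0T, hu0S⟩ := Finset.not_subset.mp hnsub
      refine ⟨fun v => if v ∈ W then (if v = u0 then -1 else 1) else 0, ?_, ?_, ?_⟩
      · intro v hv; simp [hv]
      · intro v hv
        by_cases h : v = u0
        · subst h; simp [hv]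
        · simp [hv, h]
      · have e1 : ∑ u ∈ S, (if u ∈ W then (if u = u0 then (-1:ℤ) else 1) else 0) = S.card := by
          rw [Finset.sum_congr rfl (g := fun _ => (1:ℤ))]
          · simp
          · intro u hu
            have : u ≠ u0 := fun h => hu0S (h ▸ hu)
            simp [hS hu, this]
        have e2 : ∑ u ∈ T, (if u ∈ W then (if u = u0 then (-1:ℤ) else 1) else 0)
            = T.card - 2 := by
          rw [Finset.sum_congr rfl (g := fun u => (1:ℤ) - (if u = u0 then 2 else 0))]
          · rw [Finset.sum_sub_distrib]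
            simp [hu0T]
          · intro u hu
            by_cases h : u = u0
            · subst h; simp [hT hu]
            · simp [hT hu, h]
        rw [e1, e2, hcard]
        omega
    · refine ⟨fun v => if v ∈ W then 1 else 0, ?_, ?_, ?_⟩
      · intro v hv; simp [hv]
      · intro v hv; simp [hv]
      · have e1 : ∀ S' : Finset V, S' ⊆ W → ∑ u ∈ S', (if u ∈ W then (1:ℤ) else 0) = S'.card := by
          intro S' hS'
          rw [Finset.sum_congr rfl (g := fun _ => (1:ℤ))]
          · simp
          · intro u hu; simp [hS' hu]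
        rw [e1 S hS, e1 T hT]
        exact_mod_cast hcard
  set s0 := ∑ v, σ v with hs0
  have hs0W : s0 = ∑ v ∈ W, σ v := by
    rw [hs0]
    exact (Finset.sum_subset (Finset.subset_univ W) (fun v _ hv => hσ0 v hv)).symm
  have hs0abs : (-s0).natAbs ≤ W.card := by
    have h1 : |s0| ≤ W.card := by
      rw [hs0W]
      refine (Finset.abs_sum_le_sum_abs _ _).trans ?_
      rw [Finset.sum_congr rfl (g := fun _ => (1:ℤ))]
      · simp
      · intro v hv
        rcases hσ1 v hv with h | h <;> rw [h] <;> norm_num
    rw [Int.natAbs_neg]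
    have h2 : (s0.natAbs : ℤ) = |s0| := Int.natCast_natAbs s0
    omega
  obtain ⟨J, c, hJ, hJc, hc, hcJ⟩ := exists_fill (cls G W S) (-s0) (hs0abs.trans (by omega))
  have hJW : ∀ v ∈ J, v ∉ W := fun v hv => ((mem_cls G).mp (hJ hv)).1
  set x : V → ℤ := σ + c • ind J with hx
  have hxW : ∀ v ∈ W, x v = σ v := by
    intro v hv
    have : v ∉ J := fun h => hJW v h hv
    simp [hx, ind_not_mem this]
  have hxJ : ∀ v ∈ J, x v = c := by
    intro v hv
    simp [hx, ind_mem hv, hσ0 v (hJW v hv)]
  have hx0 : ∀ v, v ∉ W → v ∉ J → x v = 0 := by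
    intro v hv hv'
    simp [hx, ind_not_mem hv', hσ0 v hv]
  have htri : IsTri x := by
    intro v
    by_cases h1 : v ∈ W
    · rw [hxW v h1]; exact Or.inr (hσ1 v h1)
    · by_cases h2 : v ∈ J
      · rw [hxJ v h2]; exact Or.inr hc
      · left; exact hx0 v h1 h2
  have hsum : ∑ v, x v = 0 := by
    simp only [hx, Pi.add_apply, Pi.smul_apply, smul_eq_mul, Finset.sum_add_distrib,
      ← Finset.mul_sum, sum_ind]
    rw [← hs0, hcJ]; ring
  have hsupp : (supp x).card ≤ 2 * W.card := by
    have hsub : supp x ⊆ W ∪ J := by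
      intro v hv
      rw [Finset.mem_union]
      by_contra hcon
      push Not at hcon
      exact (mem_supp.mp hv) (hx0 v hcon.1 hcon.2)
    have h1 := Finset.card_le_card hsub
    have h2 := Finset.card_union_le W J
    rw [hJc] at h2
    omega
  have hq : qf (adjW G) x ≤ 4 * (W.card * W.card) := by
    refine (qf_le_supp G htri).trans ?_
    have : (supp x).card * (supp x).card ≤ (2 * W.card) * (2 * W.card) :=
      Nat.mul_le_mul hsupp hsupp
    have h2 : ((supp x).card : ℤ) * (supp x).card ≤ (2 * W.card) * (2 * W.card) := by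
      exact_mod_cast this
    linarith
  obtain ⟨y, y1, y2, y3⟩ := pairs_gain G (2 * W.card * W.card + r) x (cls G W S \ J) (cls G W T)
    (∑ u ∈ S, σ u) (∑ u ∈ T, σ u) htri hsum hσ2
    (by
      rw [Finset.disjoint_left]
      intro v hv hv'
      have h1 := ((mem_cls G).mp (Finset.mem_sdiff.mp hv).1).2
      have h2 := ((mem_cls G).mp hv').2
      exact hST (h1.symm.trans h2))
    (by
      intro v hv
      rcases Finset.mem_union.mp hv with h | h
      · have h1 := Finset.mem_sdiff.mp h
        exact hx0 v ((mem_cls G).mp h1.1).1 h1.2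
      · apply hx0 v ((mem_cls G).mp h).1
        intro h2
        have h3 := ((mem_cls G).mp (hJ h2)).2
        exact hST (h3.symm.trans ((mem_cls G).mp h).2))
    (by
      have hout : ∀ v ∈ (cls G W S \ J) ∪ cls G W T, v ∉ W := by
        intro v hv
        rcases Finset.mem_union.mp hv with h | h
        · exact ((mem_cls G).mp (Finset.mem_sdiff.mp h).1).1
        · exact ((mem_cls G).mp h).1
      intro u hu v hv
      exact hW u (hout u hu) v (hout v hv))
    (by
      intro v hv
      have h1 := (mem_cls G).mp (Finset.mem_sdiff.mp hv).1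
      rw [bil_ee_cover G hW x h1.1, h1.2]
      exact Finset.sum_congr rfl fun u hu => hxW u (hS hu))
    (by
      intro v hv
      have h1 := (mem_cls G).mp hv
      rw [bil_ee_cover G hW x h1.1, h1.2]
      exact Finset.sum_congr rfl fun u hu => hxW u (hT hu))
    (by
      have h1 : (cls G W S \ J).card = (cls G W S).card - J.card :=
        Finset.card_sdiff_of_subset hJ
      rw [h1, hJc]
      omega)
    hcT
  refine ⟨y, y1, y2, y3.trans ?_⟩
  push_cast
  linarith

end Pool.Agent.Bisect
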