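import Mathlib
import Pool.Agent.Bisect.Defs
import Pool.Agent.Bisect.Merge

/-!
# The weighted Edwards function
-/

set_option autoImplicit false
set_option linter.unusedSectionVars false

namespace Pool.Agent.Bisect

open Finset

/-- The set of admissible bounds for the weighted function. -/
def WSet (h : ℕ) : Set ℕ := {k : ℕ | ∃ (V : Type) (_ : Fintype V) (_ : DecidableEq V)
    (w : V → V → ℤ),
    (∀ u v, w u v = w v u) ∧ (∀ v, w v v = 0) ∧ ∑ u, ∑ v, w u v = 2 * h ∧
    ∀ A : Finset V, wcut w A ≤ k}

lemma weightedCutMin_eq (h : ℕ) : weightedCutMin h = sInf (WSet h) := by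
  unfold weightedCutMin WSet
  congr 1
  ext k
  constructor
  · rintro ⟨V, i, w, h1, h2, h3, h4⟩
    exact ⟨V, i, fun a b => Classical.propDecidable (a = b), w, h1, h2, h3, fun A => h4 A⟩
  · rintro ⟨V, i, j, w, h1, h2, h3, h4⟩
    have hj : j = fun a b => Classical.propDecidable (a = b) := Subsingleton.elim _ _
    subst hj
    exact ⟨V, i, w, h1, h2, h3, fun A => h4 A⟩

/-- a weighted graph on two vertices -/
lemma WSet_self (h : ℕ) : h ∈ WSet h := by
  refine ⟨Bool, inferInstance, inferInstance, fun a b => if a = b then 0 else (h:ℤ), ?_, ?_, ?_, ?_⟩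
  · intro u v
    by_cases h : u = v
    · simp [h]
    · simp only [if_neg h, if_neg (fun h' : v = u => h h'.symm)]
  · simp
  · simp
    ring
  · intro A
    unfold wcut
    have : ∀ A : Finset Bool, (∑ u ∈ A, ∑ v ∈ Aᶜ, if u = v then (0:ℤ) else (h:ℤ)) ≤ h := by
      intro A
      have hA : A = ∅ ∨ A = {true} ∨ A = {false} ∨ A = univ := by
        revert A; decide
      have hc1 : ({true} : Finset Bool)ᶜ = {false} := by decide
      have hc2 : ({false} : Finset Bool)ᶜ = {true} := by decide
      rcases hA with h | h | h | h <;> subst h <;> simp [hc1, hc2]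
    exact this A

lemma weightedCutMin_mem (h : ℕ) : weightedCutMin h ∈ WSet h := by
  rw [weightedCutMin_eq]
  exact Nat.sInf_mem ⟨h, WSet_self h⟩

lemma weightedCutMin_le_of_mem {h k : ℕ} (hk : k ∈ WSet h) : weightedCutMin h ≤ k := by
  rw [weightedCutMin_eq]
  exact Nat.sInf_le hk

lemma weightedCutMin_le_self (h : ℕ) : weightedCutMin h ≤ h := weightedCutMin_le_of_mem (WSet_self h)

lemma wcut_empty {V : Type*} [Fintype V] [DecidableEq V] (w : V → V → ℤ) : wcut w ∅ = 0 := by
  simp [wcut]

/-- Every weighted graph of total weight `h` has a cut of weight at least `weightedCutMin h`. -/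
lemma exists_wcut_ge {V : Type} [Fintype V] [DecidableEq V] {w : V → V → ℤ}
    (hw : ∀ u v, w u v = w v u) (h0 : ∀ v, w v v = 0) {h : ℕ}
    (hs : ∑ u, ∑ v, w u v = 2 * h) : ∃ A : Finset V, (weightedCutMin h : ℤ) ≤ wcut w A := by
  by_contra hcon
  push Not at hcon
  rcases Nat.eq_zero_or_pos (weightedCutMin h) with hz | hpos
  · have := hcon ∅
    rw [wcut_empty, hz] at this
    exact absurd this (by simp)
  · have hmem : weightedCutMin h - 1 ∈ WSet h := by
      refine ⟨V, inferInstance, inferInstance, w, hw, h0, hs, ?_⟩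
      intro A
      have := hcon A
      push_cast [hpos]
      linarith
    have := weightedCutMin_le_of_mem hmem
    omega

/-- Monotonicity. -/
lemma weightedCutMin_mono_succ (h : ℕ) : weightedCutMin h ≤ weightedCutMin (h + 1) := by
  obtain ⟨V, i, j, w, hw, h0, hs, hc⟩ := weightedCutMin_mem (h + 1)
  apply weightedCutMin_le_of_mem
  -- there are two distinct vertices
  have hne : ∃ a b : V, a ≠ b := by
    by_contra hcon
    push Not at hcon
    have : ∑ u, ∑ v, w u v = 0 := by
      refine Finset.sum_eq_zero fun u _ => Finset.sum_eq_zero fun v _ => ?_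
      rw [hcon u v, h0]
    rw [this] at hs
    push_cast at hs
    omega
  obtain ⟨a, b, hab⟩ := hne
  let d : V → V → ℤ := fun u v => if (u = a ∧ v = b) ∨ (u = b ∧ v = a) then 1 else 0
  have hd0 : ∀ u v, 0 ≤ d u v := by
    intro u v; simp only [d]; split_ifs <;> norm_num
  refine ⟨V, i, j, fun u v => w u v - d u v, ?_, ?_, ?_, ?_⟩
  · intro u v
    have : d u v = d v u := by
      simp only [d]
      apply if_congr _ rfl rfl
      tauto
    simp only [this, hw u v]
  · intro v
    have : d v v = 0 := by
      simp only [d]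
      rw [if_neg]
      rintro (⟨h1, h2⟩ | ⟨h1, h2⟩)
      · exact hab (h1.symm.trans h2)
      · exact hab (h2.symm.trans h1)
    simp only [this, h0 v, sub_zero]
  · have hds : ∑ u, ∑ v, d u v = 2 := by
      have : ∀ u v, d u v = (if u = a then (if v = b then (1:ℤ) else 0) else 0)
          + (if u = b then (if v = a then (1:ℤ) else 0) else 0) := by
        intro u v
        simp only [d]
        by_cases h1 : u = a <;> by_cases h2 : v = b <;> by_cases h3 : u = b <;>
          by_cases h4 : v = a <;> simp_all
      simp_rw [this, Finset.sum_add_distrib]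
      simp
    simp only [Finset.sum_sub_distrib]
    rw [hs, hds]
    push_cast
    ring
  · intro A
    refine le_trans ?_ (hc A)
    unfold wcut
    refine Finset.sum_le_sum fun u _ => Finset.sum_le_sum fun v _ => ?_
    have := hd0 u v
    linarith

lemma weightedCutMin_mono : Monotone weightedCutMin := monotone_nat_of_le_succ weightedCutMin_mono_succ

lemma weightedCutMin_zero : weightedCutMin 0 = 0 :=
  Nat.le_zero.mp (weightedCutMin_le_self 0)

/-- consequences of the weighted cut lemma for the extremal function. -/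
lemma weightedCutMin_facts {h : ℕ} (hh : 1 ≤ h) :
    ∃ (t : ℕ) (U : ℤ), 1 ≤ t ∧ (2 * h : ℤ) ≤ U ∧ (t:ℤ) * (t - 1) ≤ U ∧
      (Even t → U * t ≤ 4 * (t - 1) * weightedCutMin h) ∧
      (Odd t → U * (t + 1) ≤ 4 * t * weightedCutMin h) ∧
      t * t / 4 ≤ weightedCutMin h := by
  obtain ⟨V, i, j, w, hw, h0, hs, hc⟩ := weightedCutMin_mem h
  have hne : Nonempty V := by
    by_contra hcon
    rw [not_nonempty_iff] at hcon
    simp at hs
    omega
  obtain ⟨t, U, A, ht, hU1, hU2, he, ho, hq⟩ := weighted_cut hw h0
  have hcA := hc A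
  have ht' : (1:ℤ) ≤ t := by exact_mod_cast ht
  refine ⟨t, U, ht, by rw [← hs]; exact hU1, hU2, ?_, ?_, ?_⟩
  · intro hev
    refine (he hev).trans ?_
    have : (0:ℤ) ≤ 4 * (t - 1) := by linarith
    exact mul_le_mul_of_nonneg_left hcA this
  · intro hod
    refine (ho hod).trans ?_
    have : (0:ℤ) ≤ 4 * t := by linarith
    exact mul_le_mul_of_nonneg_left hcA this
  · exact_mod_cast hq.trans hcA

/-- The Edwards bound for weighted graphs, in integer form. -/
lemma weighted_edwards (h : ℕ) :
    (2 * h : ℤ) ≤ 4 * weightedCutMin h ∧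
    (2 * h : ℤ) ≤ (4 * weightedCutMin h - 2 * h) * (4 * weightedCutMin h - 2 * h + 1) := by
  rcases Nat.eq_zero_or_pos h with hz | hpos
  · subst hz
    simp [weightedCutMin_zero]
  · obtain ⟨t, U, ht, hU1, hU2, he, ho, hq⟩ := weightedCutMin_facts hpos
    set F : ℤ := (weightedCutMin h : ℤ) with hF
    have ht' : (1:ℤ) ≤ t := by exact_mod_cast ht
    have hF0 : (0:ℤ) ≤ F := by positivity
    have hh : (1:ℤ) ≤ (h:ℤ) := by exact_mod_cast hpos
    -- unified inequality
    have hmain : U * (t + 1) ≤ 4 * t * F := by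
      rcases Nat.even_or_odd t with h1 | h1
      · have h2 := he h1
        have ht2 : (2:ℤ) ≤ t := by
          obtain ⟨r, hr⟩ := h1
          have : 1 ≤ r := by omega
          omega
        -- U t ≤ 4 (t-1) F, want U (t+1) ≤ 4 t F; 4F(t-1) ≥ U t gives 4F ≥ U t/(t-1)
        by_contra hcon
        push Not at hcon
        have h3 : (4 * t * F) * (t - 1) < U * (t + 1) * (t - 1) :=
          mul_lt_mul_of_pos_right hcon (by linarith)
        have h4 : U * t * t ≤ 4 * (t - 1) * F * t := mul_le_mul_of_nonneg_right h2 (by linarith)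
        nlinarith
      · exact ho h1
    have hy : U ≤ t * (4 * F - U) := by nlinarith
    have hy0 : 0 ≤ 4 * F - U := by
      by_contra hcon
      push Not at hcon
      nlinarith
    have hkey : U * (t * t) ≤ (4 * F - U) * (4 * F - U + 1) * (t * t) := by
      have h1 : (t * (4 * F - U)) * (t * (4 * F - U) + t) =
        (4 * F - U) * (4 * F - U + 1) * (t * t) := by ring
      rw [← h1]
      have h2 : U * (U + t) ≤ (t * (4 * F - U)) * (t * (4 * F - U) + t) := by
        apply mul_le_mul hy (by linarith) (by linarith)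
        exact mul_nonneg (by linarith) hy0
      have h3 : U * (t * t) ≤ U * (U + t) := by
        apply mul_le_mul_of_nonneg_left _ (by linarith)
        nlinarith
      exact h3.trans h2
    have hkey2 : U ≤ (4 * F - U) * (4 * F - U + 1) := by
      have : (0:ℤ) < t * t := by nlinarith
      exact le_of_mul_le_mul_right hkey this
    refine ⟨by linarith, ?_⟩
    nlinarith

end Pool.Agent.Bisect
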