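import Mathlib
import Pool.Agent.Bisect.Weighted

/-!
# Upper bounds for the weighted Edwards function
-/

set_option autoImplicit false
set_option linter.unusedSectionVars false

namespace Pool.Agent.Bisect

open Finset

/-- cut of a complete graph is at most `t²/4` -/
lemma card_mul_compl_le {V : Type*} [Fintype V] [DecidableEq V] (A : Finset V) :
    A.card * Aᶜ.card ≤ Fintype.card V * Fintype.card V / 4 := by
  rw [Nat.le_div_iff_mul_le (by norm_num)]
  have h := Finset.card_add_card_compl A
  rw [← h]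
  zify
  nlinarith [sq_nonneg ((A.card : ℤ) - Aᶜ.card)]

/-- Union of a complete graph with a weighted graph. -/
lemma weightedCutMin_clique_add (t x : ℕ) (ht : 1 ≤ t) :
    weightedCutMin (t * (t - 1) / 2 + x) ≤ t * t / 4 + weightedCutMin x := by
  classical
  obtain ⟨V, i, j, w, hw, h0, hs, hc⟩ := weightedCutMin_mem x
  apply weightedCutMin_le_of_mem
  let w' : (Fin t ⊕ V) → (Fin t ⊕ V) → ℤ := fun p q =>
    match p, q with
    | Sum.inl a, Sum.inl b => if a = b then 0 else 1
    | Sum.inr a, Sum.inr b => w a b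
    | _, _ => 0
  refine ⟨Fin t ⊕ V, inferInstance, inferInstance, w', ?_, ?_, ?_, ?_⟩
  · rintro (u | u) (v | v)
    · simp only [w']
      exact if_congr eq_comm rfl rfl
    · rfl
    · rfl
    · exact hw u v
  · rintro (v | v)
    · simp [w']
    · exact h0 v
  · have h1 : ∀ a : Fin t, ∑ b : Fin t, (if a = b then (0:ℤ) else 1) = t - 1 := by
      intro a
      have : ∀ b : Fin t, (if a = b then (0:ℤ) else 1) = 1 - (if a = b then 1 else 0) := by
        intro b; split_ifs <;> ring
      simp_rw [this]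
      rw [Finset.sum_sub_distrib]
      simp
    simp only [Fintype.sum_sum_type, w', h1, Finset.sum_const_zero, add_zero, zero_add]
    rw [hs]
    have h3 : 2 ∣ t * (t - 1) := (Nat.even_mul_pred_self t).two_dvd
    obtain ⟨q, hq⟩ := h3
    have h4 : t * (t - 1) / 2 = q := by omega
    have h5 : ((t * (t - 1) : ℕ) : ℤ) = ((2 * q : ℕ) : ℤ) := by rw [hq]
    rw [h4]
    push_cast [Nat.cast_sub ht] at h5
    simp only [Finset.sum_const, Finset.card_univ, Fintype.card_fin, nsmul_eq_mul]
    push_cast
    linarith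
  · intro A
    let A1 : Finset (Fin t) := univ.filter fun a => Sum.inl a ∈ A
    let A2 : Finset V := univ.filter fun a => Sum.inr a ∈ A
    have key : wcut w' A = (A1.card : ℤ) * (A1ᶜ.card : ℤ) + wcut w A2 := by
      have e0 : ∀ (Z : Type) (_ : Fintype Z) (_ : DecidableEq Z) (g : Z → Z → ℤ) (B : Finset Z),
          wcut g B = ∑ p, ∑ q, if p ∈ B ∧ q ∉ B then g p q else 0 := by
        intro Z _ _ g B
        unfold wcut
        rw [← Finset.sum_subset (Finset.subset_univ B)]
        · refine Finset.sum_congr rfl fun p hp => ?_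
          rw [← Finset.sum_subset (Finset.subset_univ Bᶜ)]
          · refine Finset.sum_congr rfl fun q hq => ?_
            rw [if_pos ⟨hp, Finset.mem_compl.mp hq⟩]
          · intro q _ hq
            rw [if_neg]
            rintro ⟨_, h⟩
            exact hq (Finset.mem_compl.mpr h)
        · intro p _ hp
          refine Finset.sum_eq_zero fun q _ => ?_
          rw [if_neg]
          rintro ⟨h, _⟩
          exact hp h
      have e1 : (A1.card : ℤ) * (A1ᶜ.card : ℤ)
          = wcut (fun a b : Fin t => if a = b then (0:ℤ) else 1) A1 := by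
        unfold wcut
        have : ∑ u ∈ A1, ∑ v ∈ A1ᶜ, (if u = v then (0:ℤ) else 1) = ∑ u ∈ A1, ∑ v ∈ A1ᶜ, (1:ℤ) := by
          refine Finset.sum_congr rfl fun u hu => Finset.sum_congr rfl fun v hv => ?_
          rw [if_neg]
          rintro rfl
          exact (Finset.mem_compl.mp hv) hu
        rw [this]
        simp
      rw [e1, e0, e0, e0]
      simp only [Fintype.sum_sum_type, w', A1, A2, Finset.mem_filter, Finset.mem_univ, true_and,
        ite_self, Finset.sum_const_zero, add_zero, zero_add]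
    rw [key]
    have h1 := card_mul_compl_le A1
    rw [Fintype.card_fin] at h1
    have h2 := hc A2
    have h3 : (A1.card : ℤ) * (A1ᶜ.card : ℤ) ≤ ((t * t / 4 : ℕ) : ℤ) := by exact_mod_cast h1
    push_cast at h3 ⊢
    linarith

lemma weightedCutMin_clique (t : ℕ) (ht : 1 ≤ t) :
    weightedCutMin (t * (t - 1) / 2) ≤ t * t / 4 := by
  have := weightedCutMin_clique_add t 0 ht
  rw [weightedCutMin_zero] at this
  simpa using this

/-- A table of upper bounds. -/
def tb : List ℕ := [0, 1, 2, 2, 3, 4, 4, 5, 6, 6, 6, 7, 8, 8, 9, 9, 10, 11, 11, 12, 12, 12, 13, 14, 14, 15, 16, 16, 16, 17, 18, 18, 19, 20, 20, 20, 20, 21, 22, 22, 23, 24, 24, 25, 25, 25, 26, 27, 27, 28, 29, 29, 30, 30, 30, 30, 31, 32, 32, 33, 34, 34, 35, 36, 36, 36, 36, 37, 38, 38, 39, 40, 40, 41, 42, 42, 42, 42, 42, 43, 44, 44, 45, 46, 46, 47, 48, 48, 48, 49, 49, 49, 50, 51, 51, 52, 53, 53, 54, 55, 55, 55, 56, 56, 56, 56, 57, 58, 58, 59, 60, 60, 61, 62, 62, 62, 63, 64, 64, 64, 64, 65, 66, 66, 67, 68, 68, 69, 70, 70, 70, 71, 72, 72, 72,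 72, 72, 73, 74, 74, 75, 76, 76, 77, 78, 78, 78, 79, 80, 80, 81, 81, 81, 81, 82, 83, 83, 84, 85, 85, 86, 87, 87, 87, 88, 89, 89, 90, 90, 90, 90, 90]

lemma tb_check : ∀ h < 172, ∃ t < 21, (2 ≤ t ∧ t * (t - 1) / 2 ≤ h ∧
    t * t / 4 + tb.getD (h - t * (t - 1) / 2) 0 ≤ tb.getD h 0) ∨
    (h ≤ t * (t - 1) / 2 ∧ 1 ≤ t ∧ t * t / 4 ≤ tb.getD h 0) := by
  decide +kernel

lemma le_tb : ∀ h, h < 172 → weightedCutMin h ≤ tb.getD h 0 := by
  intro h
  induction h using Nat.strong_induction_on with
  | _ h ih =>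
    intro hh
    obtain ⟨t, _, h1 | h1⟩ := tb_check h hh
    · obtain ⟨h2, h3, h4⟩ := h1
      have hpos : 1 ≤ t * (t - 1) / 2 := by
        rw [Nat.one_le_div_iff (by norm_num)]
        have : 2 * 1 ≤ t * (t - 1) := Nat.mul_le_mul h2 (by omega)
        omega
      have h5 := ih (h - t * (t - 1) / 2) (by omega) (by omega)
      have h6 := weightedCutMin_clique_add t (h - t * (t - 1) / 2) (by omega)
      rw [Nat.add_sub_cancel' h3] at h6
      omega
    · obtain ⟨h2, h3, h4⟩ := h1
      exact (weightedCutMin_mono h2).trans ((weightedCutMin_clique t h3).trans h4)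

lemma tb_ub : ∀ h < 172, 2 * tb.getD h 0 ≤ h + 2 ∨
    (2 * tb.getD h 0 - h - 2) * (2 * tb.getD h 0 - h - 2) ≤ h := by
  decide +kernel

lemma exists_tri (h : ℕ) : ∃ t x : ℕ, 1 ≤ t ∧ 2 * h = t * (t - 1) + 2 * x ∧ x < t := by
  induction h with
  | zero => exact ⟨1, 0, le_rfl, by norm_num, by norm_num⟩
  | succ h ih =>
    obtain ⟨t, x, ht, h1, h2⟩ := ih
    rcases Nat.lt_or_ge (x + 1) t with h | h
    · exact ⟨t, x + 1, ht, by omega, h⟩
    · refine ⟨t + 1, 0, by omega, ?_, by omega⟩
      have hx : x + 1 = t := by omega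
      obtain ⟨s, rfl⟩ : ∃ s, t = s + 1 := ⟨t - 1, by omega⟩
      simp only [Nat.add_sub_cancel] at h1 ⊢
      nlinarith

/-- The upper bound `2 F(h) ≤ h + 2 + √h`. -/
lemma weighted_ub (h : ℕ) : (2 * weightedCutMin h : ℤ) ≤ h + 2 ∨
    (2 * weightedCutMin h - h - 2 : ℤ) * (2 * weightedCutMin h - h - 2) ≤ h := by
  induction h using Nat.strong_induction_on with
  | _ h ih =>
    rcases Nat.lt_or_ge h 172 with hlt | hge
    · have h1 := le_tb h hlt
      rcases tb_ub h hlt with h2 | h2
      · left; exact_mod_cast (by omega : 2 * weightedCutMin h ≤ h + 2)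
      · rcases Nat.lt_or_ge (h + 2) (2 * weightedCutMin h) with h3 | h3
        swap
        · left; exact_mod_cast h3
        · right
          have h4 : (2 * weightedCutMin h - h - 2) * (2 * weightedCutMin h - h - 2) ≤
              (2 * tb.getD h 0 - h - 2) * (2 * tb.getD h 0 - h - 2) :=
            Nat.mul_le_mul (by omega) (by omega)
          have h5 := h4.trans h2
          have h6 : ((2 * weightedCutMin h - h - 2 : ℕ) : ℤ) = 2 * weightedCutMin h - h - 2 := by
            omega
          rw [← h6]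
          exact_mod_cast h5
    · obtain ⟨t, x, ht, h1, h2⟩ := exists_tri h
      have ht19 : 19 ≤ t := by
        by_contra hcon
        have h3 : t ≤ 18 := by omega
        have h4 : t * (t - 1) ≤ 18 * 17 := Nat.mul_le_mul h3 (by omega)
        omega
      have hdiv : h = t * (t - 1) / 2 + x := by
        have h3 : 2 ∣ t * (t - 1) := (Nat.even_mul_pred_self t).two_dvd
        omega
      have hxlt : x < h := by
        have : 19 * 18 ≤ t * (t - 1) := Nat.mul_le_mul ht19 (by omega)
        omega
      have h3 := weightedCutMin_clique_add t x ht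
      rw [← hdiv] at h3
      have h4 : t * t / 4 * 4 ≤ t * t := Nat.div_mul_le_self _ _
      have h1' : (2:ℤ) * h = t * (t - 1) + 2 * x := by
        have : ((2 * h : ℕ) : ℤ) = ((t * (t - 1) + 2 * x : ℕ) : ℤ) := by rw [h1]
        push_cast [Nat.cast_sub ht] at this
        linarith
      have h3' : (weightedCutMin h : ℤ) ≤ ((t * t / 4 : ℕ) : ℤ) + weightedCutMin x := by
        exact_mod_cast h3
      have h4' : ((t * t / 4 : ℕ) : ℤ) * 4 ≤ t * t := by exact_mod_cast h4
      have ht' : (19:ℤ) ≤ t := by exact_mod_cast ht19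
      have hx' : (x:ℤ) + 1 ≤ t := by exact_mod_cast h2
      have hx0 : (0:ℤ) ≤ x := by positivity
      set F : ℤ := (weightedCutMin h : ℤ)
      set y : ℤ := 2 * (weightedCutMin x : ℤ) - x - 2 with hy
      -- 2 (2F - h - 2) ≤ t + 2 y
      have h5 : 2 * (2 * F - h - 2) ≤ t + 2 * y := by
        rw [hy]; nlinarith
      rcases le_or_gt (2 * F) (h + 2) with h6 | h6
      · left; exact h6
      · right
        have h7 : 0 < 2 * F - h - 2 := by linarith
        have h7' : 0 ≤ t + 2 * y := by linarith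
        have h8 : (2 * (2 * F - h - 2)) * (2 * (2 * F - h - 2)) ≤ (t + 2 * y) * (t + 2 * y) :=
          mul_le_mul h5 h5 (by linarith) h7'
        have htt : (19:ℤ) * t ≤ t * t := mul_le_mul_of_nonneg_right ht' (by linarith)
        have hfin0 : y ≤ 0 → (2 * F - h - 2) * (2 * F - h - 2) ≤ h := by
          intro hy0
          have h10 : (t + 2 * y) * (t + 2 * y) ≤ t * t :=
            mul_le_mul (by linarith) (by linarith) h7' (by linarith)
          linarith
        rcases ih x hxlt with h9 | h9
        · exact hfin0 (by rw [hy]; linarith)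
        · have hyx : y * y ≤ x := h9
          rcases le_or_gt y 0 with hy0 | hy0
          · exact hfin0 hy0
          · have h11 : 4 * y + 2 ≤ t := by
              rcases le_or_gt y 4 with h | h
              · linarith
              · have : 5 * y ≤ y * y := mul_le_mul_of_nonneg_right (by linarith) (by linarith)
                linarith
            have h12 : t * (4 * y + 2) ≤ t * t := mul_le_mul_of_nonneg_left h11 (by linarith)
            linarith

/-- Superadditivity-type inequality. -/
lemma weighted_super {δ h : ℕ} (hh : h < 2 * δ) (j : ℕ) :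
    δ * j + min δ (weightedCutMin h) ≤ weightedCutMin (2 * δ * j + h) := by
  rcases Nat.eq_zero_or_pos j with hj | hj
  · subst hj
    simp
  · by_contra hcon
    push Not at hcon
    obtain ⟨hE1, hE2⟩ := weighted_edwards (2 * δ * j + h)
    set F : ℤ := (weightedCutMin (2 * δ * j + h) : ℤ) with hF
    set g := min δ (weightedCutMin h) with hg
    have hg1 : g ≤ δ := min_le_left _ _
    have hg2 : g ≤ weightedCutMin h := min_le_right _ _
    have hcon' : F + 1 ≤ δ * j + g := by
      have h1 : F < ((δ * j + g : ℕ) : ℤ) := by rw [hF]; exact_mod_cast hcon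
      push_cast at h1
      linarith
    push_cast at hE1 hE2
    have hg1' : (g:ℤ) ≤ δ := by exact_mod_cast hg1
    have hg2' : (g:ℤ) ≤ weightedCutMin h := by exact_mod_cast hg2
    have hj' : (1:ℤ) ≤ j := by exact_mod_cast hj
    have hδ' : (0:ℤ) ≤ δ := by positivity
    have hh' : (h:ℤ) + 1 ≤ 2 * δ := by exact_mod_cast hh
    have hh0 : (0:ℤ) ≤ h := by positivity
    set y : ℤ := 4 * F - 2 * (2 * δ * j + h) with hy
    have hy0 : 0 ≤ y := by rw [hy]; linarith
    have hyle : y ≤ 4 * g - 4 - 2 * h := by rw [hy]; nlinarith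
    have h1 : 2 * (h:ℤ) + 4 * δ ≤ y * (y + 1) := by
      refine le_trans ?_ hE2
      nlinarith
    set z : ℤ := 4 * (g:ℤ) - 4 - 2 * h with hz
    have h2 : y * (y + 1) ≤ z * (z + 1) := by nlinarith
    have h3 : 2 * (h:ℤ) + 4 * g ≤ z * (z + 1) := by linarith
    -- with ψ = 2 g - h: (ψ - 1)(ψ - 3) ≥ h
    set ψ : ℤ := 2 * (g:ℤ) - h with hψ
    have hz' : z = 2 * ψ - 4 := by rw [hz, hψ]; ring
    have hz0 : 0 ≤ z := by linarith
    have h4 : (h:ℤ) ≤ (ψ - 1) * (ψ - 3) := by
      rw [hz'] at h3
      have : (g:ℤ) * 2 = ψ + h := by rw [hψ]; ring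
      nlinarith
    have hψ2 : 2 ≤ ψ := by linarith
    rcases weighted_ub h with h5 | h5
    · have : ψ ≤ 2 := by rw [hψ]; linarith
      have hψe : ψ = 2 := le_antisymm this hψ2
      rw [hψe] at h4
      linarith
    · have h6 : ψ ≤ 2 * weightedCutMin h - h := by rw [hψ]; linarith
      have h7 : (ψ - 2) * (ψ - 2) ≤ h := by
        refine le_trans ?_ h5
        nlinarith
      nlinarith

end Pool.Agent.Bisect
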