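import Mathlib
import Pool.Agent.Bisect.Struct
import Pool.Agent.Bisect.WeightedUpper

/-!
# The case of a single popular neighbourhood
-/

set_option autoImplicit false
set_option linter.unusedSectionVars false

namespace Pool.Agent.Bisect

open Finset

open Classical

variable {V : Type} [Fintype V] (G : SimpleGraph V)

lemma even_sum_sym {w : V → V → ℤ} (hw : ∀ u v, w u v = w v u) (h0 : ∀ v, w v v = 0)
    (X : Finset V) : Even (∑ u ∈ X, ∑ v ∈ X, w u v) := by
  induction X using Finset.induction_on with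
  | empty => simp
  | insert a X ha ih =>
    rw [Finset.sum_insert ha, Finset.sum_insert ha, h0, zero_add]
    have h1 : ∑ u ∈ X, ∑ v ∈ insert a X, w u v = ∑ u ∈ X, w u a + ∑ u ∈ X, ∑ v ∈ X, w u v := by
      rw [← Finset.sum_add_distrib]
      exact Finset.sum_congr rfl fun u _ => Finset.sum_insert ha
    have h2 : ∑ u ∈ X, w u a = ∑ v ∈ X, w a v := Finset.sum_congr rfl fun u _ => hw u a
    rw [h1, h2]
    obtain ⟨k, hk⟩ := ih
    rw [hk]
    exact ⟨∑ v ∈ X, w a v + k, by ring⟩

lemma zeros_parity {x : V → ℤ} (hx : IsTri x) :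
    Even ((∑ v, x v) - ((Fintype.card V : ℤ) - (zeros x).card)) := by
  have h1 : ((zeros x).card : ℤ) = ∑ v, (if x v = 0 then (1:ℤ) else 0) := by
    simp [zeros]
  have h2 : (Fintype.card V : ℤ) = ∑ _v : V, (1:ℤ) := by simp
  rw [h1, h2, ← Finset.sum_sub_distrib, ← Finset.sum_sub_distrib]
  apply Finset.even_sum
  intro v _
  rcases hx v with h | h | h <;> rw [h] <;> decide

lemma wcut_compl {w : V → V → ℤ} (hw : ∀ u v, w u v = w v u) (A : Finset V) :
    wcut w Aᶜ = wcut w A := by
  unfold wcut
  rw [compl_compl, Finset.sum_comm]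
  exact Finset.sum_congr rfl fun u _ => Finset.sum_congr rfl fun v _ => hw v u

/-- number of neighbours inside `S` -/
noncomputable def dS (S : Finset V) (v : V) : ℤ := ∑ u ∈ S, adjW G u v

/-- The case where all but boundedly many vertices are joined exactly to `S`. -/
lemma single_class {δ : ℕ} (hδ : 1 ≤ δ) {S I : Finset V} (hSI : Disjoint S I)
    (hSc : S.card = δ) (hI : ∀ v ∈ I, ∀ u, G.Adj u v ↔ u ∈ S)
    (hIc : δ + ((S ∪ I)ᶜ).card + 1 ≤ I.card) :
    ∃ (p c : ℕ) (eS h'' : ℤ), (Fintype.card V = 2 * p ∨ Fintype.card V + 1 = 2 * p) ∧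
      2 * eS ≤ δ * (δ - 1) ∧
      (G.edgeSet.ncard : ℤ) = eS + δ * ((Fintype.card V : ℤ) - δ) + h'' ∧
      (0 ≤ h'' → weightedCutMin h''.toNat ≤ c) ∧ δ * p + c ≤ maxBisection G := by
  set R : Finset V := (S ∪ I)ᶜ with hR
  set n := Fintype.card V with hn
  set a := adjW G with ha
  have hsym := adjW_symm G
  have hdiag := adjW_self G
  -- membership facts
  have hRS : ∀ v ∈ R, v ∉ S := fun v hv h => (Finset.mem_compl.mp hv) (Finset.mem_union_left _ h)
  have hRI : ∀ v ∈ R, v ∉ I := fun v hv h => (Finset.mem_compl.mp hv) (Finset.mem_union_right _ h)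
  have hIS : ∀ v ∈ I, v ∉ S := fun v hv h => Finset.disjoint_left.mp hSI h hv
  have hcase : ∀ v, v ∈ S ∨ v ∈ I ∨ v ∈ R := by
    intro v
    by_cases h1 : v ∈ S
    · exact Or.inl h1
    · by_cases h2 : v ∈ I
      · exact Or.inr (Or.inl h2)
      · right; right
        rw [hR, Finset.mem_compl, Finset.mem_union]
        tauto
  have haI : ∀ v ∈ I, ∀ u, a u v = if u ∈ S then 1 else 0 := by
    intro v hv u
    by_cases h : u ∈ S
    · rw [if_pos h]; exact adjW_of_adj G ((hI v hv u).mpr h)
    · rw [if_neg h]; exact adjW_of_not_adj G (fun h' => h ((hI v hv u).mp h'))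
  have haI' : ∀ v ∈ I, ∀ u, a v u = if u ∈ S then 1 else 0 := by
    intro v hv u
    rw [ha, hsym v u]; exact haI v hv u
  -- cardinalities
  have hcards : (n : ℤ) = δ + I.card + R.card := by
    have h1 : (S ∪ I).card + R.card = n := Finset.card_add_card_compl (S ∪ I)
    rw [Finset.card_union_of_disjoint hSI, hSc] at h1
    have : ((δ + I.card + R.card : ℕ) : ℤ) = n := by exact_mod_cast h1
    push_cast at this
    linarith
  -- splitting sums
  have hsplit : ∀ f : V → ℤ, ∑ v, f v = ∑ v ∈ S, f v + ∑ v ∈ I, f v + ∑ v ∈ R, f v := by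
    intro f
    rw [← Finset.sum_union hSI]
    exact (Finset.sum_add_sum_compl (S ∪ I) f).symm
  obtain ⟨eS, heS⟩ := even_sum_sym hsym hdiag S
  obtain ⟨eR, heR⟩ := even_sum_sym hsym hdiag R
  obtain ⟨s0, hs0⟩ : S.Nonempty := Finset.card_pos.mp (by omega)
  have hs0R : s0 ∉ R := fun h => hRS s0 h hs0
  -- deficiency
  let c : V → ℤ := fun v => δ - dS G S v
  set h'' : ℤ := eR - ∑ v ∈ R, c v with hh''
  -- edges
  have hm : (G.edgeSet.ncard : ℤ) = eS + δ * ((n : ℤ) - δ) + h'' := by
    have h1 := adjW_sum G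
    have hrow : ∀ u ∈ I, ∑ v, a u v = δ := by
      intro u hu
      simp_rw [haI' u hu]
      simp [hSc]
    have hSrow : ∑ u ∈ S, ∑ v, a u v = (eS + eS) + δ * I.card + ∑ v ∈ R, dS G S v := by
      have e1 : ∑ u ∈ S, ∑ v, a u v = ∑ u ∈ S, ∑ v ∈ S, a u v + ∑ u ∈ S, ∑ v ∈ I, a u v
          + ∑ u ∈ S, ∑ v ∈ R, a u v := by
        rw [← Finset.sum_add_distrib, ← Finset.sum_add_distrib]
        exact Finset.sum_congr rfl fun u _ => hsplit _
      rw [e1, ha, heS]
      congr 1
      · congr 1
        rw [Finset.sum_comm]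
        rw [Finset.sum_congr rfl (g := fun _ => (δ : ℤ))]
        · simp; ring
        · intro v hv
          rw [Finset.sum_congr rfl (g := fun _ => (1:ℤ))]
          · simp [hSc]
          · intro u hu
            have := haI v hv u
            rw [if_pos hu] at this
            exact this
      · rw [Finset.sum_comm]
        rfl
    have hRrow : ∑ u ∈ R, ∑ v, a u v = ∑ v ∈ R, dS G S v + (eR + eR) := by
      have e1 : ∑ u ∈ R, ∑ v, a u v = ∑ u ∈ R, ∑ v ∈ S, a u v + ∑ u ∈ R, ∑ v ∈ I, a u v
          + ∑ u ∈ R, ∑ v ∈ R, a u v := by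
        rw [← Finset.sum_add_distrib, ← Finset.sum_add_distrib]
        exact Finset.sum_congr rfl fun u _ => hsplit _
      rw [e1, ha, heR]
      have e2 : ∑ u ∈ R, ∑ v ∈ I, adjW G u v = 0 := by
        refine Finset.sum_eq_zero fun u hu => Finset.sum_eq_zero fun v hv => ?_
        have := haI v hv u
        rw [if_neg (hRS u hu)] at this
        exact this
      rw [e2]
      have e3 : ∑ u ∈ R, ∑ v ∈ S, adjW G u v = ∑ v ∈ R, dS G S v := by
        refine Finset.sum_congr rfl fun u _ => ?_
        unfold dS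
        exact Finset.sum_congr rfl fun v _ => hsym u v
      rw [e3]
      ring
    rw [hsplit] at h1
    rw [← ha] at h1
    rw [hSrow, hRrow, Finset.sum_congr rfl hrow] at h1
    simp only [Finset.sum_const, nsmul_eq_mul] at h1
    have hc : ∑ v ∈ R, c v = δ * R.card - ∑ v ∈ R, dS G S v := by
      simp only [c, Finset.sum_sub_distrib, Finset.sum_const, nsmul_eq_mul]
      ring
    rw [hh'', hc, hcards]
    linarith
  have heSle : 2 * eS ≤ δ * (δ - 1) := by
    have h1 : ∑ u ∈ S, ∑ v ∈ S, a u v ≤ ∑ u ∈ S, ((δ : ℤ) - 1) := by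
      refine Finset.sum_le_sum fun u hu => ?_
      rw [← Finset.add_sum_erase S _ hu, ha, hdiag, zero_add]
      have : ∑ v ∈ S.erase u, adjW G u v ≤ ∑ v ∈ S.erase u, (1:ℤ) :=
        Finset.sum_le_sum fun v _ => adjW_le_one G u v
      refine this.trans (le_of_eq ?_)
      rw [Finset.sum_const, Finset.card_erase_of_mem hu, hSc, nsmul_eq_mul, mul_one]
      push_cast [hδ]
      ring
    rw [ha, heS] at h1
    simp only [Finset.sum_const, nsmul_eq_mul, hSc] at h1
    linarith
  -- the weighted graph
  let w : V → V → ℤ := fun u v =>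
    (if u ∈ R then (if v ∈ R then a u v else 0) else 0)
      - (if u = s0 then (if v ∈ R then c v else 0) else 0)
      - (if v = s0 then (if u ∈ R then c u else 0) else 0)
  have hwsym : ∀ u v, w u v = w v u := by
    intro u v
    simp only [w]
    have h1 : (if u ∈ R then (if v ∈ R then a u v else 0) else 0)
        = (if v ∈ R then (if u ∈ R then a v u else 0) else 0) := by
      by_cases h1 : u ∈ R <;> by_cases h2 : v ∈ R <;> simp [h1, h2, ha, hsym u v]
    rw [h1]; ring
  have hwdiag : ∀ v, w v v = 0 := by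
    intro v
    simp only [w]
    by_cases h1 : v ∈ R
    · have h2 : v ≠ s0 := fun h => hs0R (h ▸ h1)
      simp [h1, h2, ha, hdiag]
    · simp [h1]
  have hwsum : ∑ u, ∑ v, w u v = 2 * h'' := by
    simp only [w, Finset.sum_sub_distrib]
    have e1 : ∑ u, ∑ v, (if u ∈ R then (if v ∈ R then a u v else 0) else 0) = eR + eR := by
      rw [← heR]
      rw [← Finset.sum_subset (Finset.subset_univ R)]
      · refine Finset.sum_congr rfl fun u hu => ?_
        rw [← Finset.sum_subset (Finset.subset_univ R)]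
        · exact Finset.sum_congr rfl fun v hv => by rw [if_pos hu, if_pos hv]
        · intro v _ hv; simp [hv]
      · intro u _ hu; simp [hu]
    have e2 : ∑ u, ∑ v, (if u = s0 then (if v ∈ R then c v else 0) else 0) = ∑ v ∈ R, c v := by
      rw [Finset.sum_eq_single s0]
      · simp
      · intro u _ hu; simp [hu]
      · simp
    have e3 : ∑ u, ∑ v, (if v = s0 then (if u ∈ R then c u else 0) else 0) = ∑ v ∈ R, c v := by
      rw [Finset.sum_comm]
      exact e2
    rw [e1, e2, e3, hh'']
    ring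
  -- choose the cut
  obtain ⟨A, hA0, hAc, hAw⟩ : ∃ A : Finset V, s0 ∈ A ∧ 0 ≤ wcut w A ∧
      (0 ≤ h'' → (weightedCutMin h''.toNat : ℤ) ≤ wcut w A) := by
    by_cases hpos : 0 ≤ h''
    · obtain ⟨A, hA⟩ := exists_wcut_ge hwsym hwdiag (h := h''.toNat) (by
        rw [hwsum, Int.toNat_of_nonneg hpos])
      have hA' : 0 ≤ wcut w A := le_trans (by positivity) hA
      by_cases hs : s0 ∈ A
      · exact ⟨A, hs, hA', fun _ => hA⟩
      · refine ⟨Aᶜ, Finset.mem_compl.mpr hs, ?_, fun _ => ?_⟩
        · rw [wcut_compl hwsym]; exact hA'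
        · rw [wcut_compl hwsym]; exact hA
    · refine ⟨univ, Finset.mem_univ _, ?_, fun h => absurd h hpos⟩
      simp [wcut]
  -- parity
  obtain ⟨ε, p, hε, hp⟩ : ∃ (ε : ℤ) (p : ℕ), (ε = 0 ∨ ε = 1) ∧ (n : ℤ) + ε = 2 * p := by
    rcases Nat.even_or_odd n with ⟨k, hk⟩ | ⟨k, hk⟩
    · exact ⟨0, k, Or.inl rfl, by rw [hk]; push_cast; ring⟩
    · exact ⟨1, k + 1, Or.inr rfl, by rw [hk]; push_cast; ring⟩
  -- the vector
  let ρ : V → ℤ := fun v => if v ∈ R then sg A v else 0
  set d : ℤ := -δ - ∑ v, ρ v - ε with hd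
  have hρsum : ∑ v, ρ v = ∑ v ∈ R, sg A v := by
    simp only [ρ]
    rw [← Finset.sum_filter]
    congr 1
    ext v; simp
  have hρabs : |∑ v, ρ v| ≤ R.card := by
    rw [hρsum]
    refine (Finset.abs_sum_le_sum_abs _ _).trans ?_
    rw [Finset.sum_congr rfl (g := fun _ => (1:ℤ))]
    · simp
    · intro v _
      rcases sg_isSign A v with h | h <;> rw [h] <;> norm_num
  have hdabs : d.natAbs ≤ I.card := by
    have h1 := abs_le.mp hρabs
    rcases hε with h | h <;> rw [h] at hd <;> omega
  obtain ⟨J, cc, hJI, hJc, hcc, hccJ⟩ := exists_fill I d hdabs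
  have hJS : ∀ v ∈ J, v ∉ S := fun v hv => hIS v (hJI hv)
  have hJR : ∀ v ∈ J, v ∉ R := fun v hv h => hRI v h (hJI hv)
  set x : V → ℤ := ind S + ρ + cc • ind J with hx
  have hxS : ∀ v ∈ S, x v = 1 := by
    intro v hv
    have h1 : v ∉ R := fun h => hRS v h hv
    have h2 : v ∉ J := fun h => hJS v h hv
    simp [hx, ρ, ind_mem hv, h1, ind_not_mem h2]
  have hxR : ∀ v ∈ R, x v = sg A v := by
    intro v hv
    have h1 : v ∉ S := hRS v hv
    have h2 : v ∉ J := fun h => hJR v h hv
    simp [hx, ρ, ind_not_mem h1, hv, ind_not_mem h2]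
  have hxJ : ∀ v ∈ J, x v = cc := by
    intro v hv
    simp [hx, ρ, ind_not_mem (hJS v hv), hJR v hv, ind_mem hv]
  have hx0 : ∀ v ∈ I, v ∉ J → x v = 0 := by
    intro v hv hv'
    have h1 : v ∉ R := fun h => hRI v h hv
    simp [hx, ρ, ind_not_mem (hIS v hv), h1, ind_not_mem hv']
  have htri : IsTri x := by
    intro v
    rcases hcase v with h | h | h
    · right; left; exact hxS v h
    · by_cases h' : v ∈ J
      · right; rw [hxJ v h']; exact hcc
      · left; exact hx0 v h h'
    · right; rw [hxR v h]; exact sg_isSign A v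
  have hxsum : ∑ v, x v = -ε := by
    simp only [hx, Pi.add_apply, Pi.smul_apply, smul_eq_mul, Finset.sum_add_distrib,
      ← Finset.mul_sum, sum_ind]
    rw [hccJ, hSc, hd]; ring
  -- quadratic form of x
  have hqI : ∀ B : Finset V, B ⊆ I → ∀ B' : Finset V, B' ⊆ I → bil a (ind B) (ind B') = 0 := by
    intro B hB B' hB'
    rw [bil_ind_ind]
    refine Finset.sum_eq_zero fun v hv => Finset.sum_eq_zero fun u hu => ?_
    rw [haI v (hB' hv), if_neg (hIS u (hB hu))]
  have hqx : qf a x = 2 * eS + qf w (sg A) - 2 * δ * δ - 2 * δ * ε := by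
    have e0 : qf a x = qf a (ind S) + 2 * bil a (ind S) ρ + qf a ρ
        + 2 * (bil a (ind S) (cc • ind J) + bil a ρ (cc • ind J)) + qf a (cc • ind J) := by
      rw [hx, qf_add hsym, qf_add hsym, bil_add_left]
    have e1 : qf a (ind S) = eS + eS := by
      unfold qf
      rw [bil_ind_ind, Finset.sum_comm]
      exact heS
    have e2 : qf a (cc • ind J) = 0 := by
      rw [qf_smul]
      unfold qf
      rw [hqI J hJI J hJI]; ring
    have e3 : bil a (ind S) (cc • ind J) = cc * (δ * J.card) := by
      rw [bil_smul_right, bil_ind_ind]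
      congr 1
      rw [Finset.sum_congr rfl (g := fun _ => (δ : ℤ))]
      · simp; ring
      · intro v hv
        rw [Finset.sum_congr rfl (g := fun _ => (1:ℤ))]
        · simp [hSc]
        · intro u hu
          rw [haI v (hJI hv), if_pos hu]
    have e4 : bil a ρ (cc • ind J) = 0 := by
      rw [bil_smul_right, bil_ind_right]
      rw [Finset.sum_eq_zero, mul_zero]
      intro v hv
      rw [bil_ee_right]
      refine Finset.sum_eq_zero fun u _ => ?_
      rw [haI v (hJI hv)]
      by_cases h : u ∈ S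
      · have : u ∉ R := fun h' => hRS u h' h
        simp [ρ, this]
      · simp [h]
    have e5 : bil a (ind S) ρ = δ * (∑ v, ρ v) - ∑ v ∈ R, c v * sg A v := by
      have f1 : bil a (ind S) ρ = ∑ v ∈ R, dS G S v * sg A v := by
        unfold bil
        rw [Finset.sum_comm, ← Finset.sum_subset (Finset.subset_univ R)]
        · refine Finset.sum_congr rfl fun v hv => ?_
          rw [dS, Finset.sum_mul, ← Finset.sum_subset (Finset.subset_univ S)]
          · refine Finset.sum_congr rfl fun u hu => ?_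
            rw [ind_mem hu]
            simp [ρ, hv, ha]
          · intro u _ hu
            rw [ind_not_mem hu]; ring
        · intro v _ hv
          refine Finset.sum_eq_zero fun u _ => ?_
          simp [ρ, hv]
      rw [f1, hρsum, Finset.mul_sum, ← Finset.sum_sub_distrib]
      refine Finset.sum_congr rfl fun v _ => ?_
      simp only [c]; ring
    have e6 : qf w (sg A) = qf a ρ - 2 * ∑ v ∈ R, c v * sg A v := by
      unfold qf bil
      have g1 : ∀ u v, w u v * sg A u * sg A v =
          a u v * ρ u * ρ v - (if u = s0 then (if v ∈ R then c v * sg A v else 0) else 0)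
            - (if v = s0 then (if u ∈ R then c u * sg A u else 0) else 0) := by
        intro u v
        have hsgs0 : sg A s0 = 1 := sg_mem hA0
        by_cases h1 : u ∈ R
        · have h1' : u ≠ s0 := fun h => hs0R (h ▸ h1)
          by_cases h2 : v ∈ R
          · have h2' : v ≠ s0 := fun h => hs0R (h ▸ h2)
            simp [w, ρ, h1, h2, h1', h2']
          · by_cases h3 : v = s0
            · subst h3
              simp [w, ρ, h1, h1', hs0R, hsgs0]
            · simp [w, ρ, h1, h2, h1', h3]
        · by_cases h2 : v ∈ R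
          · have h2' : v ≠ s0 := fun h => hs0R (h ▸ h2)
            by_cases h3 : u = s0
            · subst h3
              simp [w, ρ, h2, h2', hs0R, hsgs0]
            · simp [w, ρ, h1, h2, h2', h3]
          · simp [w, ρ, h1, h2]
      simp_rw [g1, Finset.sum_sub_distrib]
      have g2 : ∑ u, ∑ v, (if u = s0 then (if v ∈ R then c v * sg A v else 0) else 0)
          = ∑ v ∈ R, c v * sg A v := by
        rw [Finset.sum_eq_single s0]
        · simp
        · intro u _ hu; simp [hu]
        · simp
      have g3 : ∑ u, ∑ v, (if v = s0 then (if u ∈ R then c u * sg A u else 0) else 0)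
          = ∑ v ∈ R, c v * sg A v := by
        rw [Finset.sum_comm]
        exact g2
      rw [g2, g3]
      ring
    have e7 : cc * (δ * J.card) = δ * d := by
      rw [← hccJ]; ring
    rw [e0, e1, e2, e3, e4, e5, e6, e7, hd]
    ring
  have hfour := four_wcut hwsym A
  rw [hwsum] at hfour
  have hpar : ∑ z, x z = 0 ∨ (|∑ z, x z| = 1 ∧ Even (zeros x).card) := by
    rw [hxsum]
    rcases hε with h | h
    · left; rw [h]; ring
    · right
      refine ⟨by rw [h]; norm_num, ?_⟩
      have h1 := zeros_parity htri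
      rw [hxsum, h] at h1
      have h2 : (Fintype.card V : ℤ) + 1 = 2 * p := by rw [← h]; exact hp
      obtain ⟨q, hq⟩ := h1
      have h3 : ((zeros x).card : ℤ) = 2 * (q + p) := by
        rw [← hn] at hq
        linarith
      rw [← Int.even_coe_nat, h3]
      exact even_two_mul _
  have hmain := four_maxBisection_ge' G htri hpar
  rw [← ha, hqx] at hmain
  have hcnat : ((wcut w A).toNat : ℤ) = wcut w A := Int.toNat_of_nonneg hAc
  refine ⟨p, (wcut w A).toNat, eS, h'', ?_, heSle, hm, ?_, ?_⟩
  · rcases hε with h | h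
    · left; rw [h] at hp; omega
    · right; rw [h] at hp; omega
  · intro h
    have := hAw h
    rw [← hcnat] at this
    exact_mod_cast this
  · have h1 : (δ:ℤ) * (2 * p) = δ * (n + ε) := by rw [hp]
    have h2 : 4 * ((δ * p + (wcut w A).toNat : ℕ) : ℤ) ≤ 4 * (maxBisection G : ℤ) := by
      push_cast
      rw [hcnat]
      linarith
    have h3 : ((δ * p + (wcut w A).toNat : ℕ) : ℤ) ≤ (maxBisection G : ℤ) := by linarith
    exact_mod_cast h3

end Pool.Agent.Bisect
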