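import Mathlib
import Pool.Agent.Bisect.Struct

/-!
# Random signs: gaining from disjoint pairs of vertices with different neighbourhoods
-/

set_option autoImplicit false
set_option linter.unusedSectionVars false

namespace Pool.Agent.Bisect

open Finset

open Classical

section comb

variable {V : Type} {L : Type}

/-- Disjoint pairs with different labels. -/
lemma exists_pairs (lab : V → L) (K : ℕ) : ∀ (O : Finset V), 2 * K ≤ O.card →
    (∀ l, (O.filter fun v => lab v = l).card + K ≤ O.card) →
    ∃ (P : Finset V) (g : V → V), P.card = K ∧ P ⊆ O ∧ (∀ v ∈ P, g v ∈ O) ∧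
      Set.InjOn g P ∧ (∀ v ∈ P, g v ∉ P) ∧ ∀ v ∈ P, lab v ≠ lab (g v) := by
  induction K with
  | zero =>
    intro O _ _
    exact ⟨∅, id, rfl, by simp, by simp, by simp, by simp, by simp⟩
  | succ K ih =>
    intro O hO hl
    -- the largest class
    have hne : (O.image lab).Nonempty := by
      rw [Finset.image_nonempty]
      exact Finset.card_pos.mp (by omega)
    obtain ⟨l₁, hl₁, hmax₁⟩ := Finset.exists_max_image (O.image lab)
      (fun l => (O.filter fun v => lab v = l).card) hne
    have hne₂ : ((O.image lab).erase l₁).Nonempty := by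
      by_contra hcon
      rw [Finset.not_nonempty_iff_eq_empty] at hcon
      have h1 : O.filter (fun v => lab v = l₁) = O := by
        rw [Finset.filter_true_of_mem]
        intro v hv
        by_contra h
        have : lab v ∈ (O.image lab).erase l₁ :=
          Finset.mem_erase.mpr ⟨h, Finset.mem_image_of_mem lab hv⟩
        rw [hcon] at this
        exact absurd this (Finset.notMem_empty _)
      have h2 := hl l₁
      rw [h1] at h2
      omega
    obtain ⟨l₂, hl₂, hmax₂⟩ := Finset.exists_max_image ((O.image lab).erase l₁)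
      (fun l => (O.filter fun v => lab v = l).card) hne₂
    obtain ⟨hl₂₁, hl₂'⟩ := Finset.mem_erase.mp hl₂
    obtain ⟨v₁, hv₁, hlv₁⟩ := Finset.mem_image.mp hl₁
    obtain ⟨v₂, hv₂, hlv₂⟩ := Finset.mem_image.mp hl₂'
    have hv12 : v₁ ≠ v₂ := by
      rintro rfl
      exact hl₂₁ (hlv₂.symm.trans hlv₁)
    set O' := (O.erase v₁).erase v₂ with hO'
    have hv₂' : v₂ ∈ O.erase v₁ := Finset.mem_erase.mpr ⟨hv12.symm, hv₂⟩
    have hcard : O'.card = O.card - 2 := by
      rw [hO', Finset.card_erase_of_mem hv₂', Finset.card_erase_of_mem hv₁]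
      omega
    have hsub : O' ⊆ O := (Finset.erase_subset _ _).trans (Finset.erase_subset _ _)
    have hl' : ∀ l, (O'.filter fun v => lab v = l).card + K ≤ O'.card := by
      intro l
      rw [hcard]
      have hle : (O'.filter fun v => lab v = l).card ≤ (O.filter fun v => lab v = l).card :=
        Finset.card_le_card (Finset.filter_subset_filter _ hsub)
      by_cases h1 : l = l₁
      · have h2 : (O'.filter fun v => lab v = l).card < (O.filter fun v => lab v = l).card := by
          apply Finset.card_lt_card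
          refine ⟨Finset.filter_subset_filter _ hsub, fun h => ?_⟩
          have h3 : v₁ ∈ O.filter fun v => lab v = l :=
            Finset.mem_filter.mpr ⟨hv₁, by rw [hlv₁, h1]⟩
          have h4 := (Finset.mem_filter.mp (h h3)).1
          exact (Finset.mem_erase.mp (Finset.mem_of_mem_erase h4)).1 rfl
        have h3 := hl l
        omega
      · by_cases h2 : l = l₂
        · have h2' : (O'.filter fun v => lab v = l).card < (O.filter fun v => lab v = l).card := by
            apply Finset.card_lt_card
            refine ⟨Finset.filter_subset_filter _ hsub, fun h => ?_⟩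
            have h3 : v₂ ∈ O.filter fun v => lab v = l :=
              Finset.mem_filter.mpr ⟨hv₂, by rw [hlv₂, h2]⟩
            have h4 := (Finset.mem_filter.mp (h h3)).1
            exact (Finset.mem_erase.mp h4).1 rfl
          have h3 := hl l
          omega
        · rcases Nat.eq_zero_or_pos (O.filter fun v => lab v = l).card with h3 | h3
          · omega
          · obtain ⟨v, hv⟩ := Finset.card_pos.mp h3
            obtain ⟨hvO, hvl⟩ := Finset.mem_filter.mp hv
            have hlim : l ∈ (O.image lab).erase l₁ :=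
              Finset.mem_erase.mpr ⟨h1, hvl ▸ Finset.mem_image_of_mem lab hvO⟩
            have e1 := hmax₂ l hlim
            have e2 := hmax₁ l₂ hl₂'
            have e3 : (O.filter fun v => lab v = l).card + (O.filter fun v => lab v = l₁).card
                + (O.filter fun v => lab v = l₂).card ≤ O.card := by
              rw [← Finset.card_union_of_disjoint, ← Finset.card_union_of_disjoint]
              · apply Finset.card_le_card
                intro z hz
                simp only [Finset.mem_union, Finset.mem_filter] at hz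
                tauto
              · rw [Finset.disjoint_left]
                intro z hz hz'
                simp only [Finset.mem_union, Finset.mem_filter] at hz hz'
                rcases hz with hz | hz
                · exact h2 (hz.2.symm.trans hz'.2)
                · exact hl₂₁ (hz'.2.symm.trans hz.2)
              · rw [Finset.disjoint_left]
                intro z hz hz'
                simp only [Finset.mem_filter] at hz hz'
                exact h1 (hz.2.symm.trans hz'.2)
            omega
    obtain ⟨P, g, p1, p2, p3, p4, p5, p6⟩ := ih O' (by omega) hl'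
    have hn1 : v₁ ∉ P := fun h => (Finset.mem_erase.mp (Finset.mem_of_mem_erase (p2 h))).1 rfl
    have hn2 : v₂ ∉ P := fun h => (Finset.mem_erase.mp (p2 h)).1 rfl
    have hg1 : ∀ v ∈ P, g v ≠ v₁ := fun v hv h =>
      (Finset.mem_erase.mp (Finset.mem_of_mem_erase (h ▸ p3 v hv))).1 rfl
    have hg2 : ∀ v ∈ P, g v ≠ v₂ := fun v hv h => (Finset.mem_erase.mp (h ▸ p3 v hv)).1 rfl
    have hup : ∀ v ∈ P, Function.update g v₁ v₂ v = g v := by
      intro v hv
      rw [Function.update_of_ne]
      rintro rfl
      exact hn1 hv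
    refine ⟨insert v₁ P, Function.update g v₁ v₂, ?_, ?_, ?_, ?_, ?_, ?_⟩
    · rw [Finset.card_insert_of_notMem hn1, p1]
    · intro v hv
      rcases Finset.mem_insert.mp hv with h | h
      · rw [h]; exact hv₁
      · exact hsub (p2 h)
    · intro v hv
      rcases Finset.mem_insert.mp hv with h | h
      · rw [h, Function.update_self]; exact hv₂
      · rw [hup v h]; exact hsub (p3 v h)
    · intro a ha b hb hab
      rw [Finset.mem_coe, Finset.mem_insert] at ha hb
      rcases ha with ha | ha
      · rcases hb with hb | hb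
        · rw [ha, hb]
        · rw [ha, Function.update_self, hup b hb] at hab
          exact absurd hab.symm (hg2 b hb)
      · rcases hb with hb | hb
        · rw [hb, Function.update_self, hup a ha] at hab
          exact absurd hab (hg2 a ha)
        · rw [hup a ha, hup b hb] at hab
          exact p4 ha hb hab
    · intro v hv hcon
      rcases Finset.mem_insert.mp hv with h | h
      · rw [h, Function.update_self] at hcon
        rcases Finset.mem_insert.mp hcon with h' | h'
        · exact hv12 h'.symm
        · exact hn2 h'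
      · rw [hup v h] at hcon
        rcases Finset.mem_insert.mp hcon with h' | h'
        · exact hg1 v h h'
        · exact p5 v h h'
    · intro v hv
      rcases Finset.mem_insert.mp hv with h | h
      · rw [h, Function.update_self, hlv₁, hlv₂]
        exact hl₂₁.symm
      · rw [hup v h]
        exact p6 v h

end comb

section signs

variable {V : Type} [Fintype V]

/-- flipping one sign -/
noncomputable def flipAt (z : V) : Finset V ≃ Finset V :=
  Function.Involutive.toPerm (fun A : Finset V => symmDiff A {z}) (fun A => by simp)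

lemma sg_flip (A : Finset V) (z v : V) :
    sg (flipAt z A) v = if v = z then - sg A v else sg A v := by
  have hmem : v ∈ flipAt z A ↔ (v ∈ A ∧ v ≠ z) ∨ (v = z ∧ v ∉ A) := by
    change v ∈ symmDiff A {z} ↔ _
    rw [Finset.mem_symmDiff, Finset.mem_singleton]
  by_cases h1 : v = z
  · rw [if_pos h1]
    by_cases h2 : v ∈ A
    · have h3 : v ∉ flipAt z A := by rw [hmem]; tauto
      rw [sg_not_mem h3, sg_mem h2]
    · have h3 : v ∈ flipAt z A := by rw [hmem]; tauto
      rw [sg_mem h3, sg_not_mem h2]; ring
  · rw [if_neg h1]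
    by_cases h2 : v ∈ A
    · have h3 : v ∈ flipAt z A := by rw [hmem]; tauto
      rw [sg_mem h3, sg_mem h2]
    · have h3 : v ∉ flipAt z A := by rw [hmem]; tauto
      rw [sg_not_mem h3, sg_not_mem h2]

lemma sum_sg_mul_ne {z z' : V} (h : z ≠ z') : ∑ A : Finset V, sg A z * sg A z' = 0 := by
  have h1 := Equiv.sum_comp (flipAt z) (fun A => sg A z * sg A z')
  simp only [sg_flip, if_neg h.symm, if_true, neg_mul, Finset.sum_neg_distrib] at h1
  linarith

lemma sum_sg_mul_self (z : V) :
    ∑ A : Finset V, sg A z * sg A z = (Fintype.card (Finset V) : ℤ) := by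
  simp only [sg_sq]
  simp

lemma sum_abs_ge {W : Finset V} {c : V → ℤ} {z0 : V} (hz : z0 ∈ W) (hc : c z0 ≠ 0) :
    (Fintype.card (Finset V) : ℤ) ≤ ∑ A : Finset V, |∑ z ∈ W, sg A z * c z| := by
  have h1 := Equiv.sum_comp (flipAt z0) (fun A => |∑ z ∈ W, sg A z * c z|)
  have h2 : ∀ A : Finset V, 2 ≤ |∑ z ∈ W, sg A z * c z| +
      |∑ z ∈ W, sg (flipAt z0 A) z * c z| := by
    intro A
    have h3 : ∑ z ∈ W, sg A z * c z - ∑ z ∈ W, sg (flipAt z0 A) z * c z
        = 2 * (sg A z0 * c z0) := by
      rw [← Finset.sum_sub_distrib, Finset.sum_eq_single z0]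
      · rw [sg_flip, if_pos rfl]; ring
      · intro b _ hb
        rw [sg_flip, if_neg hb]; ring
      · intro h; exact absurd hz h
    have h4 := abs_sub (∑ z ∈ W, sg A z * c z) (∑ z ∈ W, sg (flipAt z0 A) z * c z)
    rw [h3, abs_mul, abs_mul] at h4
    have h5 : |sg A z0| = 1 := by
      rcases sg_isSign A z0 with h | h <;> rw [h] <;> norm_num
    have h6 : 1 ≤ |c z0| := Int.one_le_abs hc
    rw [h5] at h4
    norm_num at h4
    linarith
  have h3 : ∑ _A : Finset V, (2:ℤ) ≤ ∑ A : Finset V, (|∑ z ∈ W, sg A z * c z| +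
      |∑ z ∈ W, sg (flipAt z0 A) z * c z|) := Finset.sum_le_sum fun A _ => h2 A
  rw [Finset.sum_add_distrib] at h3
  simp only [Finset.sum_const, Finset.card_univ, nsmul_eq_mul] at h3
  rw [h1] at h3
  linarith

lemma bil_zero_left (w : V → V → ℤ) (y : V → ℤ) : bil w 0 y = 0 := by
  simp [bil]

lemma bil_sum_left {ι : Type} (w : V → V → ℤ) (s : Finset ι) (F : ι → V → ℤ) (y : V → ℤ) :
    bil w (∑ z ∈ s, F z) y = ∑ z ∈ s, bil w (F z) y := by
  induction s using Finset.induction_on with
  | empty => simp [bil_zero_left]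
  | insert a s ha ih => rw [Finset.sum_insert ha, Finset.sum_insert ha, bil_add_left, ih]

lemma bil_sum_right {ι : Type} (w : V → V → ℤ) (s : Finset ι) (F : ι → V → ℤ) (y : V → ℤ) :
    bil w y (∑ z ∈ s, F z) = ∑ z ∈ s, bil w y (F z) := by
  induction s using Finset.induction_on with
  | empty => simp [bil]
  | insert a s ha ih => rw [Finset.sum_insert ha, Finset.sum_insert ha, bil_add_right, ih]

end signs

section gain

variable {V : Type} [Fintype V] (G : SimpleGraph V)

/-- Adding independent pairs one after the other. -/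
lemma add_pairs {W : Finset V} (hW : ∀ u, u ∉ W → ∀ v, v ∉ W → ¬ G.Adj u v) (g : V → V)
    (P : Finset V) : ∀ x : V → ℤ, IsTri x → (∀ v ∈ P, v ∉ W) → (∀ v ∈ P, g v ∉ W) →
    Set.InjOn g P → (∀ v ∈ P, g v ∉ P) → (∀ v ∈ P, x v = 0) → (∀ v ∈ P, x (g v) = 0) →
    ∃ y : V → ℤ, IsTri y ∧ ∑ v, y v = ∑ v, x v ∧
      qf (adjW G) y ≤ qf (adjW G) x
        - 2 * ∑ v ∈ P, |bil (adjW G) x (ee v + (-1 : ℤ) • ee (g v))| := by
  induction P using Finset.induction_on with
  | empty =>
    intro x hx _ _ _ _ _ _
    exact ⟨x, hx, rfl, by simp⟩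
  | insert a P ha ih =>
    intro x hx h1 h2 h3 h4 h5 h6
    have haP : a ∈ insert a P := Finset.mem_insert_self _ _
    have hag : a ≠ g a := fun h => h4 a haP (h ▸ haP)
    obtain ⟨y, y1, y2, _, _, y5, y6⟩ :=
      add_pair (adjW_symm G) (adjW_self G) hx hag (h5 a haP) (h6 a haP)
    have hbil : ∀ z, z ∉ W → bil (adjW G) y (ee z) = bil (adjW G) x (ee z) := by
      intro z hz
      rw [bil_ee_right, bil_ee_right]
      refine Finset.sum_congr rfl fun u _ => ?_
      by_cases hu : u = a
      · rw [hu, adjW_of_not_adj G (hW a (h1 a haP) z hz)]; ring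
      · by_cases hu' : u = g a
        · rw [hu', adjW_of_not_adj G (hW _ (h2 a haP) z hz)]; ring
        · rw [y2 u hu hu']
    have hsub : P ⊆ insert a P := Finset.subset_insert _ _
    obtain ⟨y', z1, z2, z3⟩ := ih y y1 (fun v hv => h1 v (hsub hv)) (fun v hv => h2 v (hsub hv))
      (h3.mono (by exact_mod_cast hsub))
      (fun v hv h => h4 v (hsub hv) (hsub h))
      (by
        intro v hv
        have e1 : v ≠ a := fun h => ha (h ▸ hv)
        have e2 : v ≠ g a := fun h => h4 a haP (hsub (h ▸ hv))
        rw [y2 v e1 e2]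
        exact h5 v (hsub hv))
      (by
        intro v hv
        have e1 : g v ≠ a := fun h => h4 v (hsub hv) (h ▸ haP)
        have e2 : g v ≠ g a := fun h => by
          have := h3 (by exact_mod_cast hsub hv) (by exact_mod_cast haP) h
          exact ha (this ▸ hv)
        rw [y2 _ e1 e2]
        exact h6 v (hsub hv))
    refine ⟨y', z1, z2.trans y5, z3.trans ?_⟩
    rw [Finset.sum_insert ha]
    have e3 : ∑ v ∈ P, |bil (adjW G) y (ee v + (-1 : ℤ) • ee (g v))|
        = ∑ v ∈ P, |bil (adjW G) x (ee v + (-1 : ℤ) • ee (g v))| := by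
      refine Finset.sum_congr rfl fun v hv => ?_
      rw [bil_add_right, bil_add_right, bil_smul_right, bil_smul_right,
        hbil v (h1 v (hsub hv)), hbil _ (h2 v (hsub hv))]
    rw [e3]
    have := adjW_nonneg G a (g a)
    linarith

/-- The gain from `K` disjoint pairs with different neighbourhoods. -/
lemma gain_of_pairs {W : Finset V} (hW : ∀ u, u ∉ W → ∀ v, v ∉ W → ¬ G.Adj u v)
    {P : Finset V} {u g : V → V} (hu : ∀ z ∈ W, u z ∉ W) (huinj : Set.InjOn u W)
    (hP : ∀ v ∈ P, v ∉ W) (hgW : ∀ v ∈ P, g v ∉ W) (hginj : Set.InjOn g P)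
    (hgP : ∀ v ∈ P, g v ∉ P) (hd1 : ∀ v ∈ P, ∀ z ∈ W, v ≠ u z)
    (hd2 : ∀ v ∈ P, ∀ z ∈ W, g v ≠ u z) (hlab : ∀ v ∈ P, nb G W v ≠ nb G W (g v)) :
    ∃ y : V → ℤ, IsTri y ∧ ∑ v, y v = 0 ∧ qf (adjW G) y ≤ -(2 * P.card) := by
  set F : V → V → ℤ := fun z => ee z + (-1 : ℤ) • ee (u z) with hF
  let X : Finset V → V → ℤ := fun A => ∑ z ∈ W, sg A z • F z
  -- values of X
  have hXval : ∀ A v, X A v = ∑ z ∈ W, sg A z * F z v := by
    intro A v
    simp only [X, Finset.sum_apply, Pi.smul_apply, smul_eq_mul]
  have hXW : ∀ A, ∀ v ∈ W, X A v = sg A v := by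
    intro A v hv
    rw [hXval, Finset.sum_eq_single v]
    · have : v ≠ u v := fun h => hu v hv (h ▸ hv)
      simp only [hF, Pi.add_apply, Pi.smul_apply, smul_eq_mul, ee_same, ee_ne this]
      ring
    · intro z hz hzv
      have : v ≠ u z := fun h => hu z hz (h ▸ hv)
      simp only [hF, Pi.add_apply, Pi.smul_apply, smul_eq_mul, ee_ne this, ee_ne hzv.symm]
      ring
    · intro h; exact absurd hv h
  have hXU : ∀ A, ∀ z ∈ W, X A (u z) = - sg A z := by
    intro A z hz
    rw [hXval, Finset.sum_eq_single z]
    · have : u z ≠ z := fun h => hu z hz (by rw [h]; exact hz)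
      simp only [hF, Pi.add_apply, Pi.smul_apply, smul_eq_mul, ee_same, ee_ne this]
      ring
    · intro z' hz' hne
      have h1 : u z ≠ z' := fun h => hu z hz (by rw [h]; exact hz')
      have h2 : u z ≠ u z' := fun h => hne (huinj hz hz' h).symm
      simp only [hF, Pi.add_apply, Pi.smul_apply, smul_eq_mul, ee_ne h1, ee_ne h2]
      ring
    · intro h; exact absurd hz h
  have hX0 : ∀ A v, v ∉ W → (∀ z ∈ W, v ≠ u z) → X A v = 0 := by
    intro A v hv hv'
    rw [hXval]
    refine Finset.sum_eq_zero fun z hz => ?_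
    have h1 : v ≠ z := fun h => hv (h ▸ hz)
    simp only [hF, Pi.add_apply, Pi.smul_apply, smul_eq_mul, ee_ne h1, ee_ne (hv' z hz)]
    ring
  have hXtri : ∀ A, IsTri (X A) := by
    intro A v
    by_cases h1 : v ∈ W
    · rw [hXW A v h1]; exact Or.inr (sg_isSign A v)
    · by_cases h2 : ∃ z ∈ W, v = u z
      · obtain ⟨z, hz, rfl⟩ := h2
        rw [hXU A z hz]
        rcases sg_isSign A z with h | h <;> rw [h] <;> norm_num
      · push Not at h2
        left; exact hX0 A v h1 h2
  have hXsum : ∀ A, ∑ v, X A v = 0 := by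
    intro A
    simp_rw [hXval]
    rw [Finset.sum_comm]
    refine Finset.sum_eq_zero fun z _ => ?_
    rw [← Finset.mul_sum]
    simp only [hF, Pi.add_apply, Pi.smul_apply, smul_eq_mul, Finset.sum_add_distrib,
      ← Finset.mul_sum, sum_ee]
    ring
  -- the average of the quadratic form
  have hq : ∑ A : Finset V, qf (adjW G) (X A) ≤ 0 := by
    have h1 : ∀ A : Finset V, qf (adjW G) (X A) = ∑ z ∈ W, ∑ z' ∈ W,
        (sg A z * sg A z') * bil (adjW G) (F z) (F z') := by
      intro A
      unfold qf
      simp only [X]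
      rw [bil_sum_left]
      refine Finset.sum_congr rfl fun z _ => ?_
      rw [bil_smul_left, bil_sum_right, Finset.mul_sum]
      refine Finset.sum_congr rfl fun z' _ => ?_
      rw [bil_smul_right]; ring
    simp_rw [h1]
    rw [Finset.sum_comm]
    refine Finset.sum_nonpos fun z hz => ?_
    rw [Finset.sum_comm]
    refine Finset.sum_nonpos fun z' hz' => ?_
    rw [← Finset.sum_mul]
    by_cases h : z = z'
    · subst h
      rw [sum_sg_mul_self]
      have h2 : bil (adjW G) (F z) (F z) = - 2 * adjW G z (u z) :=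
        qf_ee_sub (adjW_symm G) (adjW_self G) z (u z)
      rw [h2]
      have h3 := adjW_nonneg G z (u z)
      have h4 : (0:ℤ) ≤ Fintype.card (Finset V) := by positivity
      nlinarith
    · rw [sum_sg_mul_ne h]; simp
  -- the linear forms
  have hL : ∀ v ∈ P, (Fintype.card (Finset V) : ℤ) ≤
      ∑ A : Finset V, |bil (adjW G) (X A) (ee v + (-1 : ℤ) • ee (g v))| := by
    intro v hv
    have h1 : ∀ A : Finset V, bil (adjW G) (X A) (ee v + (-1 : ℤ) • ee (g v))
        = ∑ z ∈ W, sg A z * (adjW G z v - adjW G z (g v)) := by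
      intro A
      simp only [X]
      rw [bil_sum_left]
      refine Finset.sum_congr rfl fun z hz => ?_
      rw [bil_smul_left]
      congr 1
      simp only [hF]
      rw [bil_add_left, bil_add_right, bil_add_right, bil_smul_right, bil_smul_left, bil_smul_left,
        bil_smul_right, bil_ee_ee, bil_ee_ee, bil_ee_ee, bil_ee_ee,
        adjW_of_not_adj G (hW _ (hu z hz) _ (hP v hv)),
        adjW_of_not_adj G (hW _ (hu z hz) _ (hgW v hv))]
      ring
    simp_rw [h1]
    -- a distinguishing vertex
    obtain ⟨z0, hz0, hne⟩ : ∃ z0 ∈ W, adjW G z0 v - adjW G z0 (g v) ≠ 0 := by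
      by_contra hcon
      push Not at hcon
      apply hlab v hv
      ext z
      simp only [nb, Finset.mem_filter]
      constructor
      · rintro ⟨h2, h3⟩
        refine ⟨h2, ?_⟩
        have h4 := hcon z h2
        rw [adjW_of_adj G h3] at h4
        by_contra h5
        rw [adjW_of_not_adj G h5] at h4
        norm_num at h4
      · rintro ⟨h2, h3⟩
        refine ⟨h2, ?_⟩
        have h4 := hcon z h2
        rw [adjW_of_adj G h3] at h4
        by_contra h5
        rw [adjW_of_not_adj G h5] at h4
        norm_num at h4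
    exact sum_abs_ge (c := fun z => adjW G z v - adjW G z (g v)) hz0 hne
  -- choose a good A
  obtain ⟨A, hA⟩ : ∃ A : Finset V, qf (adjW G) (X A)
      - 2 * ∑ v ∈ P, |bil (adjW G) (X A) (ee v + (-1 : ℤ) • ee (g v))| ≤ -(2 * P.card) := by
    by_contra hcon
    push Not at hcon
    have h1 : ∑ _A : Finset V, (-(2 * (P.card : ℤ))) < ∑ A : Finset V, (qf (adjW G) (X A)
        - 2 * ∑ v ∈ P, |bil (adjW G) (X A) (ee v + (-1 : ℤ) • ee (g v))|) :=
      Finset.sum_lt_sum_of_nonempty Finset.univ_nonempty fun A _ => hcon A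
    rw [Finset.sum_sub_distrib, ← Finset.mul_sum, Finset.sum_comm] at h1
    have h2 : ∑ v ∈ P, (Fintype.card (Finset V) : ℤ) ≤ ∑ v ∈ P,
        ∑ A : Finset V, |bil (adjW G) (X A) (ee v + (-1 : ℤ) • ee (g v))| :=
      Finset.sum_le_sum hL
    simp only [Finset.sum_const, Finset.card_univ, nsmul_eq_mul] at h1 h2
    linarith
  obtain ⟨y, y1, y2, y3⟩ := add_pairs G hW g P (X A) (hXtri A) hP hgW hginj hgP
    (fun v hv => hX0 A v (hP v hv) (hd1 v hv)) (fun v hv => hX0 A _ (hgW v hv) (hd2 v hv))
  exact ⟨y, y1, y2.trans (hXsum A), y3.trans hA⟩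

/-- Either one class contains more than half of the vertices or there is a large gain. -/
lemma class_or_gain {W : Finset V} (hW : ∀ u, u ∉ W → ∀ v, v ∉ W → ¬ G.Adj u v) {K : ℕ}
    (hn : 4 * W.card + 2 * K ≤ Fintype.card V) :
    (∃ S, S ⊆ W ∧ Fintype.card V < 2 * (cls G W S).card) ∨
    (∃ y : V → ℤ, IsTri y ∧ ∑ v, y v = 0 ∧ qf (adjW G) y ≤ -(2 * K)) := by
  by_cases hbig : ∃ S, S ⊆ W ∧ Fintype.card V < 2 * (cls G W S).card
  · exact Or.inl hbig
  · right
    push Not at hbig
    have hWc : W.card + Wᶜ.card = Fintype.card V := Finset.card_add_card_compl W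
    obtain ⟨U, hU, hUc⟩ := Finset.exists_subset_card_eq (show W.card ≤ Wᶜ.card by omega)
    set O := Wᶜ \ U with hO
    have hOc : O.card = Wᶜ.card - U.card := Finset.card_sdiff_of_subset hU
    obtain ⟨P, g, p1, p2, p3, p4, p5, p6⟩ := exists_pairs (nb G W) K O (by omega) (by
      intro l
      have key : (O.filter fun v => nb G W v = l).card + K ≤ O.card := by
       by_cases hl : l ⊆ W
       · have h1 : (O.filter fun v => nb G W v = l).card ≤ (cls G W l).card := by
          apply Finset.card_le_card
          intro v hv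
          obtain ⟨h1, h2⟩ := Finset.mem_filter.mp hv
          exact (mem_cls G).mpr ⟨Finset.mem_compl.mp (Finset.mem_sdiff.mp h1).1, h2⟩
         have h2 := hbig l hl
         omega
       · have h1 : (O.filter fun v => nb G W v = l) = ∅ := by
          rw [Finset.filter_eq_empty_iff]
          intro v _ h
          exact hl (h ▸ Finset.filter_subset _ _)
         rw [h1, Finset.card_empty]
         omega
      convert key)
    -- bijection between W and U
    obtain ⟨e⟩ : Nonempty (W ≃ U) := ⟨Finset.equivOfCardEq hUc.symm⟩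
    let u : V → V := fun z => if h : z ∈ W then (e ⟨z, h⟩ : V) else z
    have hu : ∀ z (h : z ∈ W), u z = e ⟨z, h⟩ := by
      intro z h
      simp only [u, dif_pos h]
    have huU : ∀ z ∈ W, u z ∈ U := by
      intro z h
      rw [hu z h]
      exact (e ⟨z, h⟩).2
    have hOW : ∀ v ∈ O, v ∉ W := fun v hv => Finset.mem_compl.mp (Finset.mem_sdiff.mp hv).1
    have hOU : ∀ v ∈ O, v ∉ U := fun v hv => (Finset.mem_sdiff.mp hv).2
    obtain ⟨y, y1, y2, y3⟩ := gain_of_pairs G hW (P := P) (u := u) (g := g)
      (fun z hz => Finset.mem_compl.mp (hU (huU z hz)))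
      (by
        intro a ha b hb hab
        rw [hu a ha, hu b hb] at hab
        have := e.injective (Subtype.ext hab)
        exact congrArg Subtype.val this)
      (fun v hv => hOW v (p2 hv)) (fun v hv => hOW _ (p3 v hv)) p4 p5
      (fun v hv z hz h => hOU v (p2 hv) (h ▸ huU z hz))
      (fun v hv z hz h => hOU _ (p3 v hv) (h ▸ huU z hz)) p6
    rw [p1] at y3
    exact ⟨y, y1, y2, y3⟩

end gain

end Pool.Agent.Bisect
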