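import Mathlib
import Pool.Agent.Bisect.Graph

/-!
# The extremal constructions
-/

set_option autoImplicit false
set_option linter.unusedSectionVars false

namespace Pool.Agent.Bisect

open Finset

open Classical

/-- adjacency of the construction: a clique on `Fin δ`, completely joined to `R` and `Fin l`
(except that `R` misses the vertex `0` when `miss` holds), with `H` placed on `R`. -/
def bigAdj (δ : ℕ) {R : Type} (H : SimpleGraph R) (l : ℕ) (miss : Prop) :
    (Fin δ ⊕ (R ⊕ Fin l)) → (Fin δ ⊕ (R ⊕ Fin l)) → Prop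
  | Sum.inl s, Sum.inl s' => s ≠ s'
  | Sum.inl s, Sum.inr (Sum.inl _) => ¬ (miss ∧ s.val = 0)
  | Sum.inr (Sum.inl _), Sum.inl s => ¬ (miss ∧ s.val = 0)
  | Sum.inl _, Sum.inr (Sum.inr _) => True
  | Sum.inr (Sum.inr _), Sum.inl _ => True
  | Sum.inr (Sum.inl u), Sum.inr (Sum.inl v) => H.Adj u v
  | Sum.inr (Sum.inl _), Sum.inr (Sum.inr _) => False
  | Sum.inr (Sum.inr _), Sum.inr _ => False

/-- The construction. -/
def big (δ : ℕ) {R : Type} (H : SimpleGraph R) (l : ℕ) (miss : Prop) :
    SimpleGraph (Fin δ ⊕ (R ⊕ Fin l)) where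
  Adj := bigAdj δ H l miss
  symm := ⟨by
    rintro (s | r | i) (s' | r' | i') h
    · exact fun h' => h h'.symm
    · exact h
    · trivial
    · exact h
    · exact H.adj_symm h
    · exact h
    · trivial
    · exact h
    · exact h⟩
  loopless := ⟨by
    rintro (s | r | i) h
    · exact h rfl
    · exact H.loopless.irrefl _ h
    · exact h⟩

section

variable (δ : ℕ) {R : Type} [Fintype R] (H : SimpleGraph R) (l : ℕ) (miss : Prop)

/-- indicator of the missed vertex -/
noncomputable def mu (s : Fin δ) : ℤ := if miss ∧ s.val = 0 then 1 else 0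

lemma big_ss (s s' : Fin δ) : adjW (big δ H l miss) (Sum.inl s) (Sum.inl s') =
    1 - (if s = s' then 1 else 0) := by
  by_cases h : s = s'
  · rw [adjW_of_not_adj]
    · simp [h]
    · exact fun h' => h' h
  · rw [adjW_of_adj]
    · simp [h]
    · exact h

lemma big_sr (s : Fin δ) (r : R) : adjW (big δ H l miss) (Sum.inl s) (Sum.inr (Sum.inl r)) =
    1 - mu δ miss s := by
  unfold mu
  by_cases h : miss ∧ s.val = 0
  · rw [adjW_of_not_adj, if_pos h]
    · ring
    · exact fun h' => h' h
  · rw [adjW_of_adj, if_neg h]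
    · ring
    · exact h

lemma big_rs (s : Fin δ) (r : R) : adjW (big δ H l miss) (Sum.inr (Sum.inl r)) (Sum.inl s) =
    1 - mu δ miss s := by
  rw [adjW_symm, big_sr]

lemma big_sl (s : Fin δ) (i : Fin l) :
    adjW (big δ H l miss) (Sum.inl s) (Sum.inr (Sum.inr i)) = 1 :=
  adjW_of_adj _ trivial

lemma big_ls (s : Fin δ) (i : Fin l) :
    adjW (big δ H l miss) (Sum.inr (Sum.inr i)) (Sum.inl s) = 1 :=
  adjW_of_adj _ trivial

lemma big_rr (u v : R) :
    adjW (big δ H l miss) (Sum.inr (Sum.inl u)) (Sum.inr (Sum.inl v)) = adjW H u v := by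
  by_cases h : H.Adj u v
  · rw [adjW_of_adj H h]
    exact adjW_of_adj _ h
  · rw [adjW_of_not_adj H h]
    exact adjW_of_not_adj _ h

lemma big_rl (u : R) (i : Fin l) :
    adjW (big δ H l miss) (Sum.inr (Sum.inl u)) (Sum.inr (Sum.inr i)) = 0 :=
  adjW_of_not_adj _ (fun h => h)

lemma big_lr (u : R) (i : Fin l) :
    adjW (big δ H l miss) (Sum.inr (Sum.inr i)) (Sum.inr (Sum.inl u)) = 0 :=
  adjW_of_not_adj _ (fun h => h)

lemma big_ll (i i' : Fin l) :
    adjW (big δ H l miss) (Sum.inr (Sum.inr i)) (Sum.inr (Sum.inr i')) = 0 :=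
  adjW_of_not_adj _ (fun h => h)

/-- `1` if `miss` -/
noncomputable def mm : ℤ := if miss then 1 else 0

lemma sum_mu (hδ : 1 ≤ δ) : ∑ s, mu δ miss s = mm miss := by
  unfold mu mm
  by_cases h : miss
  · simp only [h, true_and, if_true]
    rw [Finset.sum_eq_single (⟨0, hδ⟩ : Fin δ)]
    · simp
    · intro b _ hb
      rw [if_neg]
      intro h0
      exact hb (Fin.ext h0)
    · simp
  · simp [h]

lemma big_edges (hδ : 1 ≤ δ) :
    2 * ((big δ H l miss).edgeSet.ncard : ℤ) =
      δ * (δ - 1) + 2 * δ * (Fintype.card R + l) - 2 * mm miss * Fintype.card R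
        + 2 * (H.edgeSet.ncard : ℤ) := by
  rw [← adjW_sum, ← adjW_sum]
  simp only [Fintype.sum_sum_type, big_ss, big_sr, big_rs, big_sl, big_ls, big_rr, big_rl, big_lr,
    big_ll, Finset.sum_add_distrib, Finset.sum_sub_distrib, Finset.sum_const, Finset.sum_ite_eq,
    Finset.mem_univ, if_true, sum_mu δ miss hδ, Finset.card_univ, Fintype.card_fin, smul_eq_mul,
    nsmul_eq_mul, ← Finset.mul_sum]
  ring

lemma big_deg_s (s : Fin δ) (hl : 1 ≤ l) : δ ≤ ((big δ H l miss).neighborSet (Sum.inl s)).ncard := by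
  have h1 := adjW_row (big δ H l miss) (Sum.inl s)
  simp only [Fintype.sum_sum_type, big_ss, big_sr, big_sl, Finset.sum_sub_distrib,
    Finset.sum_const, Finset.sum_ite_eq,
    Finset.mem_univ, if_true, Finset.card_univ, Fintype.card_fin,
    nsmul_eq_mul] at h1
  have h2 : mu δ miss s ≤ 1 := by unfold mu; split_ifs <;> norm_num
  have h3 : (0:ℤ) ≤ (Fintype.card R : ℤ) * (1 - mu δ miss s) :=
    mul_nonneg (by positivity) (by linarith)
  have h4 : (1:ℤ) ≤ l := by exact_mod_cast hl
  have h5 : (δ:ℤ) ≤ ((big δ H l miss).neighborSet (Sum.inl s)).ncard := by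
    rw [← h1]
    linarith
  exact_mod_cast h5

lemma big_deg_r (hδ : 1 ≤ δ) (r : R) (hr : miss → ∃ v, H.Adj r v) :
    δ ≤ ((big δ H l miss).neighborSet (Sum.inr (Sum.inl r))).ncard := by
  have h1 := adjW_row (big δ H l miss) (Sum.inr (Sum.inl r))
  simp only [Fintype.sum_sum_type, big_rs, big_rr, big_rl, Finset.sum_sub_distrib,
    Finset.sum_const, sum_mu δ miss hδ, Finset.card_univ, Fintype.card_fin,
    nsmul_eq_mul, mul_one, mul_zero, add_zero] at h1
  have h2 : mm miss ≤ ∑ v, adjW H r v := by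
    unfold mm
    split_ifs with h
    · obtain ⟨v, hv⟩ := hr h
      have := Finset.single_le_sum (f := fun v => adjW H r v) (fun u _ => adjW_nonneg H r u)
        (Finset.mem_univ v)
      simp only [adjW_of_adj H hv] at this
      exact this
    · exact Finset.sum_nonneg fun u _ => adjW_nonneg H r u
  have h5 : (δ:ℤ) ≤ ((big δ H l miss).neighborSet (Sum.inr (Sum.inl r))).ncard := by
    rw [← h1]
    linarith
  exact_mod_cast h5

lemma big_deg_l (i : Fin l) : δ ≤ ((big δ H l miss).neighborSet (Sum.inr (Sum.inr i))).ncard := by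
  have h1 := adjW_row (big δ H l miss) (Sum.inr (Sum.inr i))
  simp only [Fintype.sum_sum_type, big_ls, big_lr, big_ll,
    Finset.sum_const, Finset.card_univ, Fintype.card_fin,
    nsmul_eq_mul, mul_one, mul_zero, add_zero] at h1
  have h5 : (δ:ℤ) ≤ ((big δ H l miss).neighborSet (Sum.inr (Sum.inr i))).ncard := by
    rw [← h1]
  exact_mod_cast h5

lemma wcut_eq_sum {V : Type*} [Fintype V] (w : V → V → ℤ) (A : Finset V) :
    wcut w A = ∑ x, ∑ y, w x y * ((if x ∈ A then 1 else 0) * (1 - (if y ∈ A then 1 else 0))) := by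
  unfold wcut
  rw [← Finset.sum_subset (Finset.subset_univ A)]
  · refine Finset.sum_congr rfl fun p hp => ?_
    rw [← Finset.sum_subset (Finset.subset_univ Aᶜ)]
    · refine Finset.sum_congr rfl fun q hq => ?_
      rw [if_pos hp, if_neg (Finset.mem_compl.mp hq)]; ring
    · intro q _ hq
      rw [Finset.mem_compl, not_not] at hq
      rw [if_pos hq]; ring
  · intro p _ hp
    refine Finset.sum_eq_zero fun q _ => ?_
    rw [if_neg hp]; ring

lemma bis_card {V : Type} [Fintype V] {A : Finset V} (hA : IsBisection A) {p : ℕ}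
    (hp : Fintype.card V = 2 * p) : A.card = p := by
  have h1 := Finset.card_add_card_compl A
  obtain ⟨h2, h3⟩ := hA
  omega

/-- The bisection width of the construction. -/
lemma big_bisection (hδ : 1 ≤ δ) {p F : ℕ} (hp : δ + (Fintype.card R + l) = 2 * p)
    (hF : ∀ B : Finset R, (cutSize H B : ℤ) ≤ F + mm miss * min (B.card : ℤ) (Bᶜ.card : ℤ)) :
    maxBisection (big δ H l miss) ≤ δ * p + F := by
  apply maxBisection_le
  intro A hA
  have hcard : A.card = p := bis_card hA (by
    simp only [Fintype.card_sum, Fintype.card_fin]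
    exact hp)
  have h1 := cutSize_eq (big δ H l miss) A
  rw [wcut_eq_sum] at h1
  let α1 : Fin δ → ℤ := fun s => if Sum.inl s ∈ A then 1 else 0
  let α3 : Fin l → ℤ := fun i => if Sum.inr (Sum.inr i) ∈ A then 1 else 0
  let B : Finset R := univ.filter fun r => Sum.inr (Sum.inl r) ∈ A
  let α2 : R → ℤ := fun r => if Sum.inr (Sum.inl r) ∈ A then 1 else 0
  have hα1 : ∀ s, α1 s * α1 s = α1 s := by
    intro s; simp only [α1]; split_ifs <;> norm_num
  have hB : ∑ r, α2 r = B.card := by simp [α2, B]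
  have hBc : (Bᶜ.card : ℤ) = Fintype.card R - B.card := by
    have := Finset.card_add_card_compl B
    have : (B.card : ℤ) + Bᶜ.card = Fintype.card R := by exact_mod_cast this
    linarith
  have hAc : ∑ s, α1 s + (∑ r, α2 r + ∑ i, α3 i) = p := by
    have h2 : (A.card : ℤ) = ∑ x, (if x ∈ A then (1:ℤ) else 0) := by simp
    rw [hcard] at h2
    rw [h2]
    simp only [Fintype.sum_sum_type, α1, α2, α3]
  have hcutH : (cutSize H B : ℤ) = ∑ u, ∑ v, adjW H u v * (α2 u * (1 - α2 v)) := by
    rw [cutSize_eq, wcut_eq_sum]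
    refine Finset.sum_congr rfl fun u _ => Finset.sum_congr rfl fun v _ => ?_
    simp [B, α2]
  set a := ∑ s, α1 s with ha
  set c := ∑ i, α3 i with hc
  set b : ℤ := (B.card : ℤ) with hb
  set M := ∑ s, mu δ miss s * α1 s with hM
  have hsplit : (cutSize (big δ H l miss) A : ℤ) =
      a * (δ - a) + (a - M) * (Fintype.card R - b) + b * (δ - a - (mm miss - M))
        + a * (l - c) + c * (δ - a) + cutSize H B := by
    rw [h1, hcutH]
    simp only [Fintype.sum_sum_type, big_ss, big_sr, big_rs, big_sl, big_ls, big_rr, big_rl, big_lr,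
      big_ll, zero_mul, Finset.sum_const_zero, add_zero, zero_add, one_mul]
    have e1 : ∑ s, ∑ s', (1 - (if s = s' then (1:ℤ) else 0)) * (α1 s * (1 - α1 s'))
        = a * (δ - a) := by
      have : ∀ s s', (1 - (if s = s' then (1:ℤ) else 0)) * (α1 s * (1 - α1 s'))
          = α1 s * (1 - α1 s') := by
        intro s s'
        by_cases h : s = s'
        · subst h
          have := hα1 s
          simp only [if_true, sub_self, zero_mul]
          linarith
        · simp [h]
      simp_rw [this, ← Finset.mul_sum, Finset.sum_sub_distrib]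
      rw [← Finset.sum_mul]
      simp [ha]
    have e2 : ∑ s, ∑ r, (1 - mu δ miss s) * (α1 s * (1 - α2 r))
        = (a - M) * (Fintype.card R - b) := by
      have : ∀ s, ∑ r, (1 - mu δ miss s) * (α1 s * (1 - α2 r))
          = (α1 s - mu δ miss s * α1 s) * (Fintype.card R - b) := by
        intro s
        rw [← hB, ← Finset.mul_sum, ← Finset.mul_sum, Finset.sum_sub_distrib]
        simp only [Finset.sum_const, Finset.card_univ, nsmul_eq_mul, mul_one]
        ring
      simp_rw [this]
      rw [← Finset.sum_mul, Finset.sum_sub_distrib]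
    have e3 : ∑ r, ∑ s, (1 - mu δ miss s) * (α2 r * (1 - α1 s))
        = b * (δ - a - (mm miss - M)) := by
      have : ∀ r, ∑ s, (1 - mu δ miss s) * (α2 r * (1 - α1 s))
          = α2 r * (δ - a - (mm miss - M)) := by
        intro r
        have h3 : ∀ s, (1 - mu δ miss s) * (α2 r * (1 - α1 s))
            = α2 r * (1 - α1 s - (mu δ miss s - mu δ miss s * α1 s)) := by
          intro s; ring
        simp_rw [h3]
        rw [← Finset.mul_sum, Finset.sum_sub_distrib, Finset.sum_sub_distrib,
          Finset.sum_sub_distrib, sum_mu δ miss hδ]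
        simp [ha, hM]
      simp_rw [this]
      rw [← Finset.sum_mul, hB]
    have e4 : ∑ s, ∑ i, (α1 s * (1 - α3 i)) = a * (l - c) := by
      simp_rw [← Finset.mul_sum, Finset.sum_sub_distrib]
      rw [← Finset.sum_mul]
      simp [ha, hc]
    have e5 : ∑ i, ∑ s, (α3 i * (1 - α1 s)) = c * (δ - a) := by
      simp_rw [← Finset.mul_sum, Finset.sum_sub_distrib]
      rw [← Finset.sum_mul]
      simp [ha, hc]
    have f1 : ∀ (s : Fin δ) (dd : Decidable ((Sum.inl s : Fin δ ⊕ (R ⊕ Fin l)) ∈ A)),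
        @ite ℤ ((Sum.inl s : Fin δ ⊕ (R ⊕ Fin l)) ∈ A) dd 1 0 = α1 s := fun s dd => by
      simp only [α1]
      congr
    have f2 : ∀ (r : R) (dd : Decidable ((Sum.inr (Sum.inl r) : Fin δ ⊕ (R ⊕ Fin l)) ∈ A)),
        @ite ℤ ((Sum.inr (Sum.inl r) : Fin δ ⊕ (R ⊕ Fin l)) ∈ A) dd 1 0 = α2 r := fun s dd => by
      simp only [α2]
      congr
    have f3 : ∀ (i : Fin l) (dd : Decidable ((Sum.inr (Sum.inr i) : Fin δ ⊕ (R ⊕ Fin l)) ∈ A)),
        @ite ℤ ((Sum.inr (Sum.inr i) : Fin δ ⊕ (R ⊕ Fin l)) ∈ A) dd 1 0 = α3 i := fun s dd => by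
      simp only [α3]
      congr
    simp only [f1, f2, f3, Finset.sum_add_distrib]
    rw [e1, e2, e3, e4, e5]
    ring
  have hMcases : (mm miss = 0 ∧ M = 0) ∨ (mm miss = 1 ∧ (M = 0 ∨ M = 1)) := by
    by_cases h : miss
    · right
      refine ⟨by simp [mm, h], ?_⟩
      have : M = α1 ⟨0, hδ⟩ := by
        rw [hM, Finset.sum_eq_single (⟨0, hδ⟩ : Fin δ)]
        · simp [mu, h]
        · intro b _ hb
          have : ¬ (miss ∧ b.val = 0) := fun h0 => hb (Fin.ext h0.2)
          simp [mu, this]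
        · simp
      rw [this]
      simp only [α1]
      split_ifs <;> simp
    · left
      refine ⟨by simp [mm, h], ?_⟩
      rw [hM]
      exact Finset.sum_eq_zero fun s _ => by simp [mu, h]
  have hFB := hF B
  rw [hBc] at hFB
  have hpz : (δ:ℤ) + (Fintype.card R + l) = 2 * p := by exact_mod_cast hp
  rw [hB] at hAc
  have ha0 : 0 ≤ a * (δ - a) := by
    have h2 : 0 ≤ a := Finset.sum_nonneg fun s _ => by simp only [α1]; split_ifs <;> norm_num
    have h3 : a ≤ δ := by
      have : a ≤ ∑ _s : Fin δ, (1:ℤ) :=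
        Finset.sum_le_sum fun s _ => by simp only [α1]; split_ifs <;> norm_num
      simpa using this
    exact mul_nonneg h2 (by linarith)
  have hmin1 : min b ((Fintype.card R : ℤ) - b) ≤ b := min_le_left _ _
  have hmin2 : min b ((Fintype.card R : ℤ) - b) ≤ (Fintype.card R : ℤ) - b := min_le_right _ _
  have hfin : (cutSize (big δ H l miss) A : ℤ) ≤ δ * p + F := by
    rw [hsplit]
    have e1 : a * (δ - a) + (a - M) * (Fintype.card R - b) + b * (δ - a - (mm miss - M))
        + a * (l - c) + c * (δ - a)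
        = δ * p - a * (δ - a) - M * (Fintype.card R - b) - b * (mm miss - M) := by
      have hcc : c = p - a - b := by linarith
      have hl : (l:ℤ) = 2 * p - δ - Fintype.card R := by linarith
      rw [hcc, hl]; ring
    rw [e1]
    rcases hMcases with ⟨h2, h3⟩ | ⟨h2, h3 | h3⟩ <;> rw [h2] at hFB ⊢ <;> rw [h3] <;> linarith
  exact_mod_cast hfin

end

end Pool.Agent.Bisect
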