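import Mathlib
import Pool.Agent.Bisect.Single

/-!
# The lower bound for graphs with many edges
-/

set_option autoImplicit false
set_option linter.unusedSectionVars false

namespace Pool.Agent.Bisect

open Finset

open Classical

variable {V : Type} [Fintype V] (G : SimpleGraph V)

/-- A partial sign vector with very negative form suffices. -/
lemma suffices_vector {δ k h : ℕ} (hm : 2 * G.edgeSet.ncard + δ * (δ + 1) = 4 * δ * k + 2 * h)
    {x : V → ℤ} (hx : IsTri x) (hs : ∑ v, x v = 0)
    (hq : qf (adjW G) x ≤ -(δ * (δ + 1) + 2 * δ)) :
    δ * k + min δ (weightedCutMin h) ≤ maxBisection G := by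
  have h1 := four_maxBisection_ge' G hx (Or.inl hs)
  have h2 : min δ (weightedCutMin h) ≤ δ := min_le_left _ _
  have h3 : min δ (weightedCutMin h) ≤ h := (min_le_right _ _).trans (weightedCutMin_le_self h)
  have hm' : (2:ℤ) * G.edgeSet.ncard + δ * (δ + 1) = 4 * δ * k + 2 * h := by exact_mod_cast hm
  have h2' : ((min δ (weightedCutMin h) : ℕ) : ℤ) ≤ δ := by exact_mod_cast h2
  have h3' : ((min δ (weightedCutMin h) : ℕ) : ℤ) ≤ h := by exact_mod_cast h3
  have h4 : 4 * ((δ * k + min δ (weightedCutMin h) : ℕ) : ℤ) ≤ 4 * (maxBisection G : ℤ) := by
    rw [Nat.cast_add, Nat.cast_mul]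
    linarith
  have h5 : ((δ * k + min δ (weightedCutMin h) : ℕ) : ℤ) ≤ (maxBisection G : ℤ) := by linarith
  exact_mod_cast h5

/-- The main lower bound. -/
theorem main_lower {δ : ℕ} (hδ : 1 ≤ δ) :
    ∃ m₀ : ℕ, ∀ (V : Type) (_ : Fintype V) (G : SimpleGraph V) (k h : ℕ),
      (∀ v, δ ≤ (G.neighborSet v).ncard) → m₀ ≤ G.edgeSet.ncard →
      2 * G.edgeSet.ncard + δ * (δ + 1) = 4 * δ * k + 2 * h → h < 2 * δ →
      δ * k + min δ (weightedCutMin h) ≤ maxBisection G := by
  set r : ℕ := δ * (δ + 1) + 2 * δ with hr
  set w : ℕ := 2 * r with hw
  set K : ℕ := w + (2 * w * w + r) with hK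
  set B : ℕ := w + 2 ^ w * K with hB
  set N : ℕ := 2 * δ + 2 * B + 2 with hN
  refine ⟨N * N, ?_⟩
  intro V _ G k h hdeg hmN hm hh
  -- the number of vertices is large
  have hnV : N ≤ Fintype.card V := by
    by_contra hcon
    push Not at hcon
    have h1 : (2:ℤ) * G.edgeSet.ncard ≤ (Fintype.card V : ℤ) * Fintype.card V := by
      rw [← adjW_sum]
      refine (Finset.sum_le_sum fun u _ => Finset.sum_le_sum fun v _ => adjW_le_one G u v).trans ?_
      simp
    have h2 : 2 * G.edgeSet.ncard ≤ Fintype.card V * Fintype.card V := by exact_mod_cast h1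
    have h3 : Fintype.card V * Fintype.card V < N * N :=
      Nat.mul_self_lt_mul_self hcon
    omega
  have hrδ : (-(2 * (r:ℤ))) ≤ -(δ * (δ + 1) + 2 * δ) := by
    rw [hr]; push_cast
    have : (0:ℤ) ≤ δ := by positivity
    nlinarith
  rcases match_or_cover G r with ⟨x, h1, h2, _, h4⟩ | ⟨W, hWc, hW⟩
  · exact suffices_vector G hm h1 h2 (h4.trans hrδ)
  · -- class sizes
    by_cases htwo : ∃ S T, S ⊆ W ∧ T ⊆ W ∧ S ≠ T ∧ K ≤ (cls G W S).card ∧ K ≤ (cls G W T).card
    · obtain ⟨S, T, hS, hT, hST, hcS, hcT⟩ := htwo
      have hWw : W.card ≤ w := by omega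
      have hmulW : 2 * W.card * W.card ≤ 2 * w * w :=
        Nat.mul_le_mul (Nat.mul_le_mul_left 2 hWw) hWw
      obtain ⟨y, y1, y2, y3⟩ := two_classes G hW hST hS hT r (by omega) (by omega)
      exact suffices_vector G hm y1 y2 (y3.trans hrδ)
    · push Not at htwo
      -- covering of the vertex set by W and the classes
      have hcover : (univ : Finset V) = W ∪ W.powerset.biUnion (fun S => cls G W S) := by
        ext v
        simp only [Finset.mem_univ, Finset.mem_union, Finset.mem_biUnion, true_iff]
        by_cases hv : v ∈ W
        · exact Or.inl hv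
        · right
          exact ⟨nb G W v, Finset.mem_powerset.mpr (Finset.filter_subset _ _),
            (mem_cls G).mpr ⟨hv, rfl⟩⟩
      have hpow : W.powerset.card ≤ 2 ^ w := by
        rw [Finset.card_powerset]
        exact Nat.pow_le_pow_right (by norm_num) (by omega)
      -- there is a popular class
      obtain ⟨S, hSW, hSK⟩ : ∃ S, S ⊆ W ∧ K ≤ (cls G W S).card := by
        by_contra hcon
        push Not at hcon
        have h1 : Fintype.card V ≤ W.card + (W.powerset.biUnion (fun S => cls G W S)).card := by
          rw [← Finset.card_univ, hcover]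
          exact Finset.card_union_le _ _
        have h2 : (W.powerset.biUnion (fun S => cls G W S)).card ≤ W.powerset.card * K :=
          Finset.card_biUnion_le_card_mul _ _ _ (fun S hS =>
            (hcon S (Finset.mem_powerset.mp hS)).le)
        have h3 : W.powerset.card * K ≤ 2 ^ w * K := Nat.mul_le_mul_right K hpow
        omega
      set I := cls G W S with hI
      have hIW : ∀ v ∈ I, v ∉ W := fun v hv => ((mem_cls G).mp hv).1
      have hInb : ∀ v ∈ I, ∀ u, G.Adj u v ↔ u ∈ S := by
        intro v hv u
        have h1 := ((mem_cls G).mp hv).2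
        constructor
        · intro h
          have huW : u ∈ W := by
            by_contra hu
            exact hW u hu v (hIW v hv) h
          rw [← h1]
          exact Finset.mem_filter.mpr ⟨huW, h⟩
        · intro h
          rw [← h1] at h
          exact (Finset.mem_filter.mp h).2
      have hSI : Disjoint S I := by
        rw [Finset.disjoint_left]
        intro v hv hv'
        exact hIW v hv' (hSW hv)
      -- |S| ≥ δ
      have hSδ : δ ≤ S.card := by
        have hKpos : 0 < I.card := by omega
        obtain ⟨v, hv⟩ := Finset.card_pos.mp hKpos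
        have h1 := hdeg v
        have h2 : G.neighborSet v = (S : Set V) := by
          ext u
          rw [SimpleGraph.mem_neighborSet, G.adj_comm]
          exact hInb v hv u
        rw [h2, Set.ncard_coe_finset] at h1
        exact h1
      rcases Nat.eq_or_lt_of_le hSδ with heq | hlt
      · -- |S| = δ
        have hRc : ((S ∪ I)ᶜ).card ≤ B := by
          have hsub : (S ∪ I)ᶜ ⊆ W ∪ (W.powerset.erase S).biUnion (fun T => cls G W T) := by
            intro v hv
            rw [Finset.mem_compl, Finset.mem_union] at hv
            push Not at hv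
            rw [Finset.mem_union]
            by_cases hvW : v ∈ W
            · exact Or.inl hvW
            · right
              rw [Finset.mem_biUnion]
              refine ⟨nb G W v, ?_, (mem_cls G).mpr ⟨hvW, rfl⟩⟩
              rw [Finset.mem_erase]
              refine ⟨?_, Finset.mem_powerset.mpr (Finset.filter_subset _ _)⟩
              intro h
              exact hv.2 ((mem_cls G).mpr ⟨hvW, h⟩)
          have h1 := Finset.card_le_card hsub
          have h2 := Finset.card_union_le W ((W.powerset.erase S).biUnion (fun T => cls G W T))
          have h3 : ((W.powerset.erase S).biUnion (fun T => cls G W T)).card ≤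
              (W.powerset.erase S).card * K := by
            refine Finset.card_biUnion_le_card_mul _ _ _ (fun T hT => ?_)
            have hT' := Finset.mem_erase.mp hT
            exact (htwo S T hSW (Finset.mem_powerset.mp hT'.2) hT'.1.symm hSK).le
          have h4 : (W.powerset.erase S).card ≤ 2 ^ w :=
            (Finset.card_le_card (Finset.erase_subset _ _)).trans hpow
          have h5 := Nat.mul_le_mul_right K h4
          omega
        have hIc : δ + ((S ∪ I)ᶜ).card + 1 ≤ I.card := by
          have h1 : (S ∪ I).card + ((S ∪ I)ᶜ).card = Fintype.card V :=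
            Finset.card_add_card_compl (S ∪ I)
          rw [Finset.card_union_of_disjoint hSI] at h1
          omega
        obtain ⟨p, c, eS, h'', hp, heS, hmm, hc, hb⟩ :=
          single_class G hδ hSI heq.symm hInb hIc
        refine le_trans ?_ hb
        rcases Nat.lt_or_ge k p with hkp | hpk
        · -- p ≥ k + 1
          have h1 : δ * (k + 1) ≤ δ * p := Nat.mul_le_mul_left δ hkp
          have h2 : min δ (weightedCutMin h) ≤ δ := min_le_left _ _
          have h3 : δ * (k + 1) = δ * k + δ := by ring
          omega
        · -- p ≤ k
          obtain ⟨j, hj⟩ : ∃ j, k = p + j := ⟨k - p, by omega⟩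
          have hm' : (2:ℤ) * G.edgeSet.ncard + δ * (δ + 1) = 4 * δ * k + 2 * h := by
            exact_mod_cast hm
          have hn2p : (Fintype.card V : ℤ) ≤ 2 * p := by omega
          have hδ0 : (0:ℤ) ≤ δ := by positivity
          have h1 : (2:ℤ) * (2 * δ * j + h) ≤ 2 * h'' := by
            have h2 : (δ:ℤ) * Fintype.card V ≤ δ * (2 * p) := mul_le_mul_of_nonneg_left hn2p hδ0
            rw [hj] at hm'
            push_cast at hm'
            nlinarith
          have h2 : (0:ℤ) ≤ h'' := by
            have : (0:ℤ) ≤ 2 * (2 * δ * j + h) := by positivity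
            linarith
          have h3 := hc h2
          have h4 : 2 * δ * j + h ≤ h''.toNat := by
            have : ((2 * δ * j + h : ℕ) : ℤ) ≤ h'' := by push_cast; linarith
            omega
          have h5 := weightedCutMin_mono h4
          have h6 := weighted_super hh j
          have h7 : δ * k = δ * p + δ * j := by rw [hj]; ring
          omega
      · -- |S| ≥ δ + 1
        have hSw : S.card ≤ w := (Finset.card_le_card hSW).trans (by omega)
        obtain ⟨J, hJ, hJc⟩ := Finset.exists_subset_card_eq (show S.card ≤ I.card by omega)
        have hJS : ∀ v ∈ J, v ∉ S := fun v hv h => Finset.disjoint_left.mp hSI h (hJ hv)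
        have haJ : ∀ v ∈ J, ∀ u, adjW G u v = if u ∈ S then 1 else 0 := by
          intro v hv u
          by_cases h : u ∈ S
          · rw [if_pos h]; exact adjW_of_adj G ((hInb v (hJ hv) u).mpr h)
          · rw [if_neg h]; exact adjW_of_not_adj G (fun h' => h ((hInb v (hJ hv) u).mp h'))
        apply suffices_vector G hm (x := ind S + (-1 : ℤ) • ind J)
        · intro v
          by_cases h1 : v ∈ S
          · have h2 : v ∉ J := fun h => hJS v h h1
            right; left
            simp [ind_mem h1, ind_not_mem h2]
          · by_cases h2 : v ∈ J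
            · right; right
              simp [ind_mem h2, ind_not_mem h1]
            · left
              simp [ind_not_mem h1, ind_not_mem h2]
        · simp only [Pi.add_apply, Pi.smul_apply, smul_eq_mul, Finset.sum_add_distrib,
            ← Finset.mul_sum, sum_ind, hJc]
          ring
        · rw [qf_add (adjW_symm G), bil_smul_right, qf_smul]
          have e1 : qf (adjW G) (ind S) ≤ (S.card : ℤ) * (S.card - 1) := by
            unfold qf
            rw [bil_ind_ind]
            have : ∑ v ∈ S, ∑ u ∈ S, adjW G u v ≤ ∑ v ∈ S, ((S.card : ℤ) - 1) := by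
              refine Finset.sum_le_sum fun v hv => ?_
              rw [← Finset.add_sum_erase S _ hv, adjW_self, zero_add]
              have : ∑ u ∈ S.erase v, adjW G u v ≤ ∑ u ∈ S.erase v, (1:ℤ) :=
                Finset.sum_le_sum fun u _ => adjW_le_one G u v
              refine this.trans (le_of_eq ?_)
              have hSpos : 1 ≤ S.card := by omega
              rw [Finset.sum_const, Finset.card_erase_of_mem hv, nsmul_eq_mul, mul_one]
              push_cast [hSpos]
              ring
            refine this.trans (le_of_eq ?_)
            simp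
            ring
          have e2 : bil (adjW G) (ind S) (ind J) = S.card * S.card := by
            rw [bil_ind_ind, Finset.sum_congr rfl (g := fun _ => (S.card : ℤ))]
            · rw [Finset.sum_const, hJc, nsmul_eq_mul]
            · intro v hv
              rw [Finset.sum_congr rfl (g := fun _ => (1:ℤ))]
              · simp
              · intro u hu
                rw [haJ v hv, if_pos hu]
          have e3 : qf (adjW G) (ind J) = 0 := by
            unfold qf
            rw [bil_ind_ind]
            refine Finset.sum_eq_zero fun v hv => Finset.sum_eq_zero fun u hu => ?_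
            rw [haJ v hv, if_neg (hJS u hu)]
          rw [e2, e3]
          have hs : (δ:ℤ) + 1 ≤ S.card := by exact_mod_cast hlt
          have hδ0 : (0:ℤ) ≤ δ := by positivity
          nlinarith

end Pool.Agent.Bisect
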