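import Mathlib
import Pool.Agent.Bisect.Construct
import Pool.Agent.Bisect.Lower

/-!
# The upper bound for large `m`
-/

set_option autoImplicit false
set_option linter.unusedSectionVars false

namespace Pool.Agent.Bisect

open Finset

open Classical

/-- the perfect matching on `Fin j × Bool` -/
def mat (j : ℕ) : SimpleGraph (Fin j × Bool) where
  Adj := fun p q => p.1 = q.1 ∧ p.2 ≠ q.2
  symm := ⟨fun _ _ h => ⟨h.1.symm, h.2.symm⟩⟩
  loopless := ⟨fun _ h => h.2 rfl⟩

lemma mat_row (j : ℕ) (p : Fin j × Bool) : ∑ q, adjW (mat j) p q = 1 := by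
  rw [Finset.sum_eq_single (p.1, !p.2)]
  · exact adjW_of_adj _ ⟨rfl, by simp⟩
  · rintro ⟨a, b⟩ _ hb
    apply adjW_of_not_adj
    rintro ⟨h1, h2⟩
    apply hb
    ext
    · exact congrArg _ h1.symm
    · simp only at h2
      revert h2
      cases b <;> cases p.2 <;> simp
  · simp

lemma mat_edges (j : ℕ) : (mat j).edgeSet.ncard = j := by
  have h := adjW_sum (mat j)
  simp only [mat_row, Finset.sum_const, Finset.card_univ, Fintype.card_prod, Fintype.card_fin,
    Fintype.card_bool, nsmul_eq_mul, mul_one] at h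
  push_cast at h
  omega

lemma cut_le_card {V : Type} [Fintype V] (G : SimpleGraph V) (hrow : ∀ p, ∑ q, adjW G p q = 1)
    (B : Finset V) : (cutSize G B : ℤ) ≤ min (B.card : ℤ) (Bᶜ.card : ℤ) := by
  rw [cutSize_eq]
  apply le_min
  · unfold wcut
    have : ∑ p ∈ B, ∑ q ∈ Bᶜ, adjW G p q ≤ ∑ p ∈ B, (1:ℤ) := by
      refine Finset.sum_le_sum fun p _ => ?_
      rw [← hrow p]
      exact Finset.sum_le_sum_of_subset_of_nonneg (Finset.subset_univ _)
        (fun q _ _ => adjW_nonneg _ _ _)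
    simpa using this
  · unfold wcut
    rw [Finset.sum_comm]
    have : ∑ q ∈ Bᶜ, ∑ p ∈ B, adjW G p q ≤ ∑ q ∈ Bᶜ, (1:ℤ) := by
      refine Finset.sum_le_sum fun q _ => ?_
      rw [← hrow q]
      refine (Finset.sum_le_sum_of_subset_of_nonneg (Finset.subset_univ B)
        (fun p _ _ => adjW_nonneg _ _ _)).trans (le_of_eq ?_)
      exact Finset.sum_congr rfl fun p _ => adjW_symm _ _ _
    simpa using this

/-- membership in the set defining `bisMin` -/
lemma bisMin_le {δ m : ℕ} {V : Type} [Fintype V] (G : SimpleGraph V) (hm : G.edgeSet.ncard = m)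
    (hd : ∀ v, δ ≤ (G.neighborSet v).ncard) {b : ℕ} (hb : maxBisection G ≤ b) :
    bisMin δ m ≤ b :=
  (Nat.sInf_le (show maxBisection G ∈ {k | ∃ (V : Type) (_ : Fintype V) (G : SimpleGraph V),
    G.edgeSet.ncard = m ∧ (∀ v, δ ≤ (G.neighborSet v).ncard) ∧ maxBisection G = k} from
      ⟨V, inferInstance, G, hm, hd, rfl⟩)).trans hb

/-- the big construction as an admissible graph, with `p` half of the number of vertices -/
lemma big_admissible {δ : ℕ} (hδ : 1 ≤ δ) {R : Type} [Fintype R] (H : SimpleGraph R) (miss : Prop)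
    (hmiss : miss → ∀ r, ∃ v, H.Adj r v) {p F m : ℕ} (hp : δ + Fintype.card R + 1 ≤ 2 * p)
    (hF : ∀ B : Finset R, (cutSize H B : ℤ) ≤ F + mm miss * min (B.card : ℤ) (Bᶜ.card : ℤ))
    (hm : (2 * m + δ * (δ + 1) : ℤ) =
      4 * δ * p + 2 * H.edgeSet.ncard - 2 * mm miss * Fintype.card R) :
    (∃ (V : Type) (_ : Fintype V) (G : SimpleGraph V), G.edgeSet.ncard = m ∧
      (∀ v, δ ≤ (G.neighborSet v).ncard) ∧ maxBisection G ≤ δ * p + F) := by
  obtain ⟨l, hl⟩ : ∃ l, 2 * p = δ + (Fintype.card R + l) := ⟨2 * p - δ - Fintype.card R, by omega⟩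
  have hl1 : 1 ≤ l := by omega
  refine ⟨Fin δ ⊕ (R ⊕ Fin l), inferInstance, big δ H l miss, ?_, ?_, ?_⟩
  · have h1 := big_edges δ H l miss hδ
    have h2 : (2:ℤ) * p = δ + (Fintype.card R + l) := by exact_mod_cast hl
    have h3 : (Fintype.card R : ℤ) + l = 2 * p - δ := by linarith
    rw [h3] at h1
    have h4 : (2:ℤ) * ((big δ H l miss).edgeSet.ncard : ℤ) = 2 * m := by
      rw [h1]; linarith
    omega
  · rintro (s | r | i)
    · exact big_deg_s δ H l miss s hl1
    · exact big_deg_r δ H l miss hδ r (fun h => hmiss h r)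
    · exact big_deg_l δ H l miss i
  · exact big_bisection δ H l miss hδ hl.symm hF

lemma exists_graph_edges (h : ℕ) :
    ∃ (V : Type) (_ : Fintype V) (G : SimpleGraph V), G.edgeSet.ncard = h :=
  ⟨_, inferInstance, mat h, mat_edges h⟩

/-- Extremal graphs for the Edwards function. -/
lemma cutMin_mem (h : ℕ) : ∃ (V : Type) (_ : Fintype V) (G : SimpleGraph V),
    G.edgeSet.ncard = h ∧ maxCut G = cutMin h := by
  have hne : {k | ∃ (V : Type) (_ : Fintype V) (G : SimpleGraph V),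
      G.edgeSet.ncard = h ∧ maxCut G = k}.Nonempty := by
    obtain ⟨V, i, G, hG⟩ := exists_graph_edges h
    exact ⟨maxCut G, V, i, G, hG, rfl⟩
  exact Nat.sInf_mem hne

lemma cutMin_le {h : ℕ} {V : Type} [Fintype V] (G : SimpleGraph V) (hm : G.edgeSet.ncard = h)
    {b : ℕ} (hb : ∀ A, cutSize G A ≤ b) : cutMin h ≤ b :=
  (Nat.sInf_le (show maxCut G ∈ {k | ∃ (V : Type) (_ : Fintype V) (G : SimpleGraph V),
    G.edgeSet.ncard = h ∧ maxCut G = k} from
      ⟨V, inferInstance, G, hm, rfl⟩)).trans (maxCut_le G hb)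

lemma exists_uniform {P : ℕ → ℕ → Prop} (n : ℕ) (h : ∀ i < n, ∃ N, ∀ m, N ≤ m → P i m) :
    ∃ N, ∀ i < n, ∀ m, N ≤ m → P i m := by
  induction n with
  | zero => exact ⟨0, fun i hi => absurd hi (by omega)⟩
  | succ n ih =>
    obtain ⟨N, hN⟩ := ih (fun i hi => h i (by omega))
    obtain ⟨M, hM⟩ := h n (by omega)
    refine ⟨max N M, fun i hi m hm => ?_⟩
    rcases Nat.lt_or_ge i n with h1 | h1
    · exact hN i h1 m (by omega)
    · have : i = n := by omega
      subst this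
      exact hM m (by omega)

/-- The upper bound. -/
theorem main_upper {δ : ℕ} (hδ : 1 ≤ δ) :
    ∃ m₀ : ℕ, ∀ m k h : ℕ, m₀ ≤ m → 2 * m + δ * (δ + 1) = 4 * δ * k + 2 * h → h < 2 * δ →
      (∃ (V : Type) (_ : Fintype V) (G : SimpleGraph V), G.edgeSet.ncard = m ∧
        (∀ v, δ ≤ (G.neighborSet v).ncard)) ∧
      bisMin δ m ≤ δ * k + min δ (cutMin h) := by
  have key : ∀ h < 2 * δ, ∃ N, ∀ m, N ≤ m → ∀ k, 2 * m + δ * (δ + 1) = 4 * δ * k + 2 * h →
      (∃ (V : Type) (_ : Fintype V) (G : SimpleGraph V), G.edgeSet.ncard = m ∧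
        (∀ v, δ ≤ (G.neighborSet v).ncard)) ∧
      bisMin δ m ≤ δ * k + min δ (cutMin h) := by
    intro h hh
    obtain ⟨R, iR, H, hH, hHc⟩ := cutMin_mem h
    set N : ℕ := 2 * δ * (δ + Fintype.card R + 1) + 2 * δ * (5 * δ + 1) + 2 * δ with hN
    refine ⟨N, fun m hm k hk => ?_⟩
    have hk1 : δ + Fintype.card R + 1 + 5 * δ + 1 ≤ 2 * k := by
      by_contra hcon
      push Not at hcon
      have h1 : 2 * δ * (2 * k) ≤ 2 * δ * (δ + Fintype.card R + 1 + 5 * δ + 1) :=
        Nat.mul_le_mul_left _ hcon.le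
      have h2 : 4 * δ * k = 2 * δ * (2 * k) := by ring
      have h3 : 2 * δ * (δ + Fintype.card R + 1 + 5 * δ + 1) + 2 * δ = N := by rw [hN]; ring
      have h4 : 0 < δ * (δ + 1) := by positivity
      have h5 : 0 < δ * (δ + Fintype.card R + 1 + 5 * δ + 1) := by positivity
      nlinarith
    have hkz : (2 * m + δ * (δ + 1) : ℤ) = 4 * δ * k + 2 * h := by exact_mod_cast hk
    -- first construction
    obtain ⟨V, iV, G, g1, g2, g3⟩ := big_admissible (δ := δ) hδ H False (fun h => h.elim)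
      (p := k) (F := cutMin h) (m := m) (by omega)
      (fun B => by
        have h1 := le_maxCut H B
        rw [hHc] at h1
        have h2 : (cutSize H B : ℤ) ≤ cutMin h := by exact_mod_cast h1
        simpa [mm] using h2)
      (by simp only [mm, if_false, mul_zero, zero_mul, sub_zero, hH]; exact hkz)
    refine ⟨⟨V, iV, G, g1, g2⟩, ?_⟩
    have hb1 := bisMin_le G g1 g2 g3
    -- second construction
    obtain ⟨j, hj⟩ : ∃ j, h + j = 2 * δ := ⟨2 * δ - h, by omega⟩
    obtain ⟨V', iV', G', g1', g2', g3'⟩ := big_admissible (δ := δ) hδ (mat j) True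
      (fun _ r => ⟨(r.1, !r.2), rfl, by simp⟩)
      (p := k + 1) (F := 0) (m := m)
      (by
        rw [Fintype.card_prod, Fintype.card_fin, Fintype.card_bool]
        omega)
      (fun B => by
        have h1 := cut_le_card (mat j) (mat_row j) B
        simp only [mm, if_true, one_mul, Nat.cast_zero, zero_add]
        exact h1)
      (by
        have h1 : (h:ℤ) + j = 2 * δ := by exact_mod_cast hj
        rw [mat_edges, hkz, Fintype.card_prod, Fintype.card_fin, Fintype.card_bool]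
        simp only [mm, if_true]
        push_cast
        linarith)
    have hb2 := bisMin_le G' g1' g2' g3'
    have h3 : δ * (k + 1) = δ * k + δ := by ring
    rcases le_total δ (cutMin h) with h4 | h4
    · rw [min_eq_left h4]; omega
    · rw [min_eq_right h4]; omega
  obtain ⟨N, hN⟩ := exists_uniform (P := fun h m => ∀ k, 2 * m + δ * (δ + 1) = 4 * δ * k + 2 * h →
      (∃ (V : Type) (_ : Fintype V) (G : SimpleGraph V), G.edgeSet.ncard = m ∧
        (∀ v, δ ≤ (G.neighborSet v).ncard)) ∧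
      bisMin δ m ≤ δ * k + min δ (cutMin h)) (2 * δ) key
  exact ⟨N, fun m k h hm hk hh => hN h hh m hm k hk⟩

/-- Two-sided bound. -/
theorem main_two_sided {δ : ℕ} (hδ : 1 ≤ δ) :
    ∃ m₀ : ℕ, ∀ m k h : ℕ, m₀ ≤ m → 2 * m + δ * (δ + 1) = 4 * δ * k + 2 * h → h < 2 * δ →
      (∃ (V : Type) (_ : Fintype V) (G : SimpleGraph V), G.edgeSet.ncard = m ∧
        (∀ v, δ ≤ (G.neighborSet v).ncard)) ∧
      δ * k + min δ (weightedCutMin h) ≤ bisMin δ m ∧
      bisMin δ m ≤ δ * k + min δ (cutMin h) := by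
  obtain ⟨N₁, h₁⟩ := main_lower hδ
  obtain ⟨N₂, h₂⟩ := main_upper hδ
  refine ⟨max N₁ N₂, fun m k h hm hk hh => ?_⟩
  obtain ⟨hne, hup⟩ := h₂ m k h (by omega) hk hh
  refine ⟨hne, ?_, hup⟩
  have hne' : {k | ∃ (V : Type) (_ : Fintype V) (G : SimpleGraph V),
    G.edgeSet.ncard = m ∧ (∀ v, δ ≤ (G.neighborSet v).ncard) ∧ maxBisection G = k}.Nonempty := by
    obtain ⟨V, i, G, g1, g2⟩ := hne
    exact ⟨_, V, i, G, g1, g2, rfl⟩
  obtain ⟨V, i, G, g1, g2, g3⟩ := Nat.sInf_mem hne'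
  have h3 : maxBisection G = bisMin δ m := g3
  rw [← h3]
  subst g1
  exact h₁ V i G k h g2 (by omega) hk hh

end Pool.Agent.Bisect
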