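import Mathlib
import Pool.Agent.Bisect.WeightedUpper
import Pool.Agent.Bisect.Upper

/-!
# The Edwards function for simple graphs
-/

set_option autoImplicit false
set_option linter.unusedSectionVars false

namespace Pool.Agent.Bisect

open Finset

open Classical

/-! ### Abstract consequences of the clique recursion -/

section abstract

variable {F : ℕ → ℕ} (h0 : F 0 = 0) (hm : Monotone F)
  (hc : ∀ t x, 1 ≤ t → F (t * (t - 1) / 2 + x) ≤ t * t / 4 + F x)

include h0 hm hc

lemma le_tb_of : ∀ h, h < 172 → F h ≤ tb.getD h 0 := by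
  intro h
  induction h using Nat.strong_induction_on with
  | _ h ih =>
    intro hh
    obtain ⟨t, _, h1 | h1⟩ := tb_check h hh
    · obtain ⟨h2, h3, h4⟩ := h1
      have hpos : 1 ≤ t * (t - 1) / 2 := by
        rw [Nat.one_le_div_iff (by norm_num)]
        have : 2 * 1 ≤ t * (t - 1) := Nat.mul_le_mul h2 (by omega)
        omega
      have h5 := ih (h - t * (t - 1) / 2) (by omega) (by omega)
      have h6 := hc t (h - t * (t - 1) / 2) (by omega)
      rw [Nat.add_sub_cancel' h3] at h6
      omega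
    · obtain ⟨h2, h3, h4⟩ := h1
      have h5 := hc t 0 h3
      rw [h0] at h5
      exact (hm h2).trans (h5.trans h4)

/-- The upper bound `2 F(h) ≤ h + 2 + √h`. -/
lemma ub_of (h : ℕ) : (2 * F h : ℤ) ≤ h + 2 ∨
    (2 * F h - h - 2 : ℤ) * (2 * F h - h - 2) ≤ h := by
  induction h using Nat.strong_induction_on with
  | _ h ih =>
    rcases Nat.lt_or_ge h 172 with hlt | hge
    · have h1 := le_tb_of h0 hm hc h hlt
      rcases tb_ub h hlt with h2 | h2
      · left; exact_mod_cast (by omega : 2 * F h ≤ h + 2)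
      · rcases Nat.lt_or_ge (h + 2) (2 * F h) with h3 | h3
        swap
        · left; exact_mod_cast h3
        · right
          have h4 : (2 * F h - h - 2) * (2 * F h - h - 2) ≤
              (2 * tb.getD h 0 - h - 2) * (2 * tb.getD h 0 - h - 2) :=
            Nat.mul_le_mul (by omega) (by omega)
          have h5 := h4.trans h2
          have h6 : ((2 * F h - h - 2 : ℕ) : ℤ) = 2 * F h - h - 2 := by
            omega
          rw [← h6]
          exact_mod_cast h5
    · obtain ⟨t, x, ht, h1, h2⟩ := exists_tri h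
      have ht19 : 19 ≤ t := by
        by_contra hcon
        have h3 : t ≤ 18 := by omega
        have h4 : t * (t - 1) ≤ 18 * 17 := Nat.mul_le_mul h3 (by omega)
        omega
      have hdiv : h = t * (t - 1) / 2 + x := by
        have h3 : 2 ∣ t * (t - 1) := (Nat.even_mul_pred_self t).two_dvd
        omega
      have hxlt : x < h := by
        have : 19 * 18 ≤ t * (t - 1) := Nat.mul_le_mul ht19 (by omega)
        omega
      have h3 := hc t x ht
      rw [← hdiv] at h3
      have h4 : t * t / 4 * 4 ≤ t * t := Nat.div_mul_le_self _ _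
      have h1' : (2:ℤ) * h = t * (t - 1) + 2 * x := by
        have : ((2 * h : ℕ) : ℤ) = ((t * (t - 1) + 2 * x : ℕ) : ℤ) := by rw [h1]
        push_cast [Nat.cast_sub ht] at this
        linarith
      have h3' : (F h : ℤ) ≤ ((t * t / 4 : ℕ) : ℤ) + F x := by
        exact_mod_cast h3
      have h4' : ((t * t / 4 : ℕ) : ℤ) * 4 ≤ t * t := by exact_mod_cast h4
      have ht' : (19:ℤ) ≤ t := by exact_mod_cast ht19
      have hx' : (x:ℤ) + 1 ≤ t := by exact_mod_cast h2
      have hx0 : (0:ℤ) ≤ x := by positivity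
      set Fh : ℤ := (F h : ℤ)
      set y : ℤ := 2 * (F x : ℤ) - x - 2 with hy
      have h5 : 2 * (2 * Fh - h - 2) ≤ t + 2 * y := by
        rw [hy]; nlinarith
      rcases le_or_gt (2 * Fh) (h + 2) with h6 | h6
      · left; exact h6
      · right
        have h7 : 0 < 2 * Fh - h - 2 := by linarith
        have h7' : 0 ≤ t + 2 * y := by linarith
        have h8 : (2 * (2 * Fh - h - 2)) * (2 * (2 * Fh - h - 2)) ≤ (t + 2 * y) * (t + 2 * y) :=
          mul_le_mul h5 h5 (by linarith) h7'
        have htt : (19:ℤ) * t ≤ t * t := mul_le_mul_of_nonneg_right ht' (by linarith)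
        have hfin0 : y ≤ 0 → (2 * Fh - h - 2) * (2 * Fh - h - 2) ≤ h := by
          intro hy0
          have h10 : (t + 2 * y) * (t + 2 * y) ≤ t * t :=
            mul_le_mul (by linarith) (by linarith) h7' (by linarith)
          linarith
        rcases ih x hxlt with h9 | h9
        · exact hfin0 (by rw [hy]; linarith)
        · have hyx : y * y ≤ x := h9
          rcases le_or_gt y 0 with hy0 | hy0
          · exact hfin0 hy0
          · have h11 : 4 * y + 2 ≤ t := by
              rcases le_or_gt y 4 with h | h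
              · linarith
              · have : 5 * y ≤ y * y := mul_le_mul_of_nonneg_right (by linarith) (by linarith)
                linarith
            have h12 : t * (4 * y + 2) ≤ t * t := mul_le_mul_of_nonneg_left h11 (by linarith)
            linarith

end abstract

/-- Superadditivity-type inequality. -/
lemma super_of {Fh : ℕ} {δ h : ℕ}
    (hub : (2 * Fh : ℤ) ≤ h + 2 ∨ (2 * Fh - h - 2 : ℤ) * (2 * Fh - h - 2) ≤ h)
    (hh : h < 2 * δ) {j : ℕ} (hj : 1 ≤ j) :
    δ * j + min δ Fh ≤ weightedCutMin (2 * δ * j + h) := by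
  by_contra hcon
  push Not at hcon
  obtain ⟨hE1, hE2⟩ := weighted_edwards (2 * δ * j + h)
  set F : ℤ := (weightedCutMin (2 * δ * j + h) : ℤ) with hF
  set g := min δ Fh with hg
  have hg1 : g ≤ δ := min_le_left _ _
  have hg2 : g ≤ Fh := min_le_right _ _
  have hcon' : F + 1 ≤ δ * j + g := by
    have h1 : F < ((δ * j + g : ℕ) : ℤ) := by rw [hF]; exact_mod_cast hcon
    push_cast at h1
    linarith
  push_cast at hE1 hE2
  have hg1' : (g:ℤ) ≤ δ := by exact_mod_cast hg1
  have hg2' : (g:ℤ) ≤ Fh := by exact_mod_cast hg2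
  have hj' : (1:ℤ) ≤ j := by exact_mod_cast hj
  have hδ' : (0:ℤ) ≤ δ := by positivity
  have hh' : (h:ℤ) + 1 ≤ 2 * δ := by exact_mod_cast hh
  have hh0 : (0:ℤ) ≤ h := by positivity
  set y : ℤ := 4 * F - 2 * (2 * δ * j + h) with hy
  have hy0 : 0 ≤ y := by rw [hy]; linarith
  have hyle : y ≤ 4 * g - 4 - 2 * h := by rw [hy]; nlinarith
  have h1 : 2 * (h:ℤ) + 4 * δ ≤ y * (y + 1) := by
    refine le_trans ?_ hE2
    nlinarith
  set z : ℤ := 4 * (g:ℤ) - 4 - 2 * h with hz
  have h2 : y * (y + 1) ≤ z * (z + 1) := by nlinarith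
  have h3 : 2 * (h:ℤ) + 4 * g ≤ z * (z + 1) := by linarith
  set ψ : ℤ := 2 * (g:ℤ) - h with hψ
  have hz' : z = 2 * ψ - 4 := by rw [hz, hψ]; ring
  have hz0 : 0 ≤ z := by linarith
  have h4 : (h:ℤ) ≤ (ψ - 1) * (ψ - 3) := by
    rw [hz'] at h3
    have : (g:ℤ) * 2 = ψ + h := by rw [hψ]; ring
    nlinarith
  have hψ2 : 2 ≤ ψ := by linarith
  rcases hub with h5 | h5
  · have : ψ ≤ 2 := by rw [hψ]; linarith
    have hψe : ψ = 2 := le_antisymm this hψ2
    rw [hψe] at h4
    linarith
  · have h6 : ψ ≤ 2 * Fh - h := by rw [hψ]; linarith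
    have h7 : (ψ - 2) * (ψ - 2) ≤ h := by
      refine le_trans ?_ h5
      nlinarith
    nlinarith

/-! ### Simple graphs -/

lemma wcut_mono {V : Type*} [Fintype V] {w w' : V → V → ℤ} (h : ∀ u v, w u v ≤ w' u v)
    (A : Finset V) : wcut w A ≤ wcut w' A := by
  unfold wcut
  exact Finset.sum_le_sum fun u _ => Finset.sum_le_sum fun v _ => h u v

lemma cutSize_mono {V : Type} [Fintype V] {G G' : SimpleGraph V} (h : G ≤ G') (A : Finset V) :
    cutSize G A ≤ cutSize G' A := by
  have h1 : (cutSize G A : ℤ) ≤ cutSize G' A := by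
    rw [cutSize_eq, cutSize_eq]
    apply wcut_mono
    intro u v
    by_cases huv : G.Adj u v
    · rw [adjW_of_adj G huv, adjW_of_adj G' (h huv)]
    · rw [adjW_of_not_adj G huv]
      exact adjW_nonneg _ _ _
  exact_mod_cast h1

lemma cutMin_mono_succ (h : ℕ) : cutMin h ≤ cutMin (h + 1) := by
  obtain ⟨V, i, G, h1, h2⟩ := cutMin_mem (h + 1)
  have hne : G.edgeSet.Nonempty := by
    rw [← Set.ncard_pos (Set.toFinite _)]
    omega
  obtain ⟨e, he⟩ := hne
  apply cutMin_le (G.deleteEdges {e})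
  · rw [SimpleGraph.edgeSet_deleteEdges, Set.ncard_sdiff_singleton_of_mem he, h1]
    omega
  · intro A
    refine (cutSize_mono (SimpleGraph.deleteEdges_le _) A).trans ?_
    rw [← h2]
    exact le_maxCut G A

lemma cutMin_mono : Monotone cutMin := monotone_nat_of_le_succ cutMin_mono_succ

lemma cutMin_zero : cutMin 0 = 0 := by
  apply Nat.le_zero.mp
  apply cutMin_le (V := Fin 0) (⊥ : SimpleGraph (Fin 0))
  · simp
  · intro A
    have : cutSize (⊥ : SimpleGraph (Fin 0)) A ≤ Fintype.card (Fin 0) * Fintype.card (Fin 0) :=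
      cutSize_le _ _
    simpa using this

/-- disjoint union with a complete graph -/
def cliqueAdd (t : ℕ) {V : Type} (G : SimpleGraph V) : SimpleGraph (Fin t ⊕ V) where
  Adj := fun p q => match p, q with
    | Sum.inl a, Sum.inl b => a ≠ b
    | Sum.inr a, Sum.inr b => G.Adj a b
    | _, _ => False
  symm := ⟨by
    rintro (a | a) (b | b) h
    · exact fun h' => h h'.symm
    · exact h
    · exact h
    · exact G.adj_symm h⟩
  loopless := ⟨by
    rintro (a | a) h
    · exact h rfl
    · exact G.loopless.irrefl _ h⟩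

section

variable (t : ℕ) {V : Type} [Fintype V] (G : SimpleGraph V)

lemma ca_ll (a b : Fin t) : adjW (cliqueAdd t G) (Sum.inl a) (Sum.inl b)
    = 1 - (if a = b then 1 else 0) := by
  by_cases h : a = b
  · rw [adjW_of_not_adj, if_pos h]
    · ring
    · exact fun h' => h' h
  · rw [adjW_of_adj, if_neg h]
    · ring
    · exact h

lemma ca_lr (a : Fin t) (b : V) : adjW (cliqueAdd t G) (Sum.inl a) (Sum.inr b) = 0 :=
  adjW_of_not_adj _ (fun h => h)

lemma ca_rl (a : V) (b : Fin t) : adjW (cliqueAdd t G) (Sum.inr a) (Sum.inl b) = 0 :=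
  adjW_of_not_adj _ (fun h => h)

lemma ca_rr (a b : V) : adjW (cliqueAdd t G) (Sum.inr a) (Sum.inr b) = adjW G a b := by
  by_cases h : G.Adj a b
  · rw [adjW_of_adj G h]; exact adjW_of_adj _ h
  · rw [adjW_of_not_adj G h]; exact adjW_of_not_adj _ h

lemma cliqueAdd_edges (ht : 1 ≤ t) :
    (cliqueAdd t G).edgeSet.ncard = t * (t - 1) / 2 + G.edgeSet.ncard := by
  have h1 := adjW_sum (cliqueAdd t G)
  have h2 := adjW_sum G
  simp only [Fintype.sum_sum_type, ca_ll, ca_lr, ca_rl, ca_rr, Finset.sum_sub_distrib,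
    Finset.sum_add_distrib, Finset.sum_const, Finset.sum_ite_eq, Finset.mem_univ, if_true,
    Finset.card_univ, Fintype.card_fin, nsmul_eq_mul, mul_zero, add_zero, zero_add, h2] at h1
  have h3 : 2 ∣ t * (t - 1) := (Nat.even_mul_pred_self t).two_dvd
  obtain ⟨q, hq⟩ := h3
  have h4 : t * (t - 1) / 2 = q := by omega
  have h5 : ((t * (t - 1) : ℕ) : ℤ) = ((2 * q : ℕ) : ℤ) := by rw [hq]
  push_cast [Nat.cast_sub ht] at h5
  rw [h4]
  have h6 : (2:ℤ) * ((cliqueAdd t G).edgeSet.ncard : ℤ) = 2 * (q + G.edgeSet.ncard : ℕ) := by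
    rw [← h1]
    push_cast
    linarith
  omega

lemma cliqueAdd_cut (A : Finset (Fin t ⊕ V)) {c : ℕ} (hc : ∀ B : Finset V, cutSize G B ≤ c) :
    cutSize (cliqueAdd t G) A ≤ t * t / 4 + c := by
  let A1 : Finset (Fin t) := univ.filter fun a => Sum.inl a ∈ A
  let A2 : Finset V := univ.filter fun a => Sum.inr a ∈ A
  have key : (cutSize (cliqueAdd t G) A : ℤ) = (A1.card : ℤ) * (A1ᶜ.card : ℤ) + cutSize G A2 := by
    rw [cutSize_eq, cutSize_eq, wcut_eq_sum, wcut_eq_sum]
    simp only [Fintype.sum_sum_type, ca_ll, ca_lr, ca_rl, ca_rr, zero_mul, Finset.sum_const_zero,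
      add_zero, zero_add]
    congr 1
    · have e0 : ∀ a b : Fin t, ∀ (d1 : Decidable ((Sum.inl a : Fin t ⊕ V) ∈ A))
          (d2 : Decidable ((Sum.inl b : Fin t ⊕ V) ∈ A)),
          (1 - (if a = b then (1:ℤ) else 0)) * (@ite ℤ _ d1 1 0 * (1 - @ite ℤ _ d2 1 0))
          = (if a ∈ A1 then 1 else 0) * (1 - (if b ∈ A1 then 1 else 0)) := by
        intro a b d1 d2
        by_cases hab : a = b
        · subst hab
          by_cases h : (Sum.inl a : Fin t ⊕ V) ∈ A
          · have h' : a ∈ A1 := by simp [A1, h]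
            simp [h']
          · have h' : a ∉ A1 := by simp [A1, h]
            simp [h']
        · by_cases h : (Sum.inl a : Fin t ⊕ V) ∈ A <;>
          by_cases h2 : (Sum.inl b : Fin t ⊕ V) ∈ A <;> simp [A1, h, h2, hab]
      simp only [e0]
      rw [← Finset.sum_mul_sum]
      have h1 := Finset.card_add_card_compl A1
      have h2 : (A1.card : ℤ) + (A1ᶜ.card : ℤ) = Fintype.card (Fin t) := by exact_mod_cast h1
      have h3 : (A1ᶜ.card : ℤ) = Fintype.card (Fin t) - A1.card := by linarith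
      rw [h3]
      simp
    · refine Finset.sum_congr rfl fun a _ => Finset.sum_congr rfl fun b _ => ?_
      by_cases h : (Sum.inr a : Fin t ⊕ V) ∈ A <;>
      by_cases h2 : (Sum.inr b : Fin t ⊕ V) ∈ A <;> simp [A2, h, h2]
  have h1 := card_mul_compl_le A1
  rw [Fintype.card_fin] at h1
  have h2 := hc A2
  have h3 : (A1.card : ℤ) * (A1ᶜ.card : ℤ) ≤ ((t * t / 4 : ℕ) : ℤ) := by exact_mod_cast h1
  have h4 : (cutSize (cliqueAdd t G) A : ℤ) ≤ ((t * t / 4 + c : ℕ) : ℤ) := by
    rw [key, Nat.cast_add]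
    have h5 : (cutSize G A2 : ℤ) ≤ c := by exact_mod_cast h2
    linarith
  exact_mod_cast h4

end

lemma cutMin_clique_add (t x : ℕ) (ht : 1 ≤ t) :
    cutMin (t * (t - 1) / 2 + x) ≤ t * t / 4 + cutMin x := by
  obtain ⟨V, i, G, h1, h2⟩ := cutMin_mem x
  apply cutMin_le (cliqueAdd t G)
  · rw [cliqueAdd_edges t G ht, h1]
  · intro A
    apply cliqueAdd_cut
    intro B
    rw [← h2]
    exact le_maxCut G B

lemma cutMin_le_tb : ∀ h, h < 172 → cutMin h ≤ tb.getD h 0 :=
  le_tb_of cutMin_zero cutMin_mono cutMin_clique_add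

lemma cutMin_ub (h : ℕ) : (2 * cutMin h : ℤ) ≤ h + 2 ∨
    (2 * cutMin h - h - 2 : ℤ) * (2 * cutMin h - h - 2) ≤ h :=
  ub_of cutMin_zero cutMin_mono cutMin_clique_add h

lemma weightedCutMin_le_cutMin (h : ℕ) : weightedCutMin h ≤ cutMin h := by
  obtain ⟨V, i, G, h1, h2⟩ := cutMin_mem h
  apply weightedCutMin_le_of_mem
  refine ⟨V, i, Classical.decEq V, adjW G, adjW_symm G, adjW_self G, ?_, ?_⟩
  · rw [adjW_sum, h1]
  · intro A
    rw [← h2]
    have h3 := le_maxCut G A
    have h4 := cutSize_eq G A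
    have h5 : (cutSize G A : ℤ) ≤ maxCut G := by exact_mod_cast h3
    rw [h4] at h5
    exact h5

/-- Extremal graphs without isolated vertices. -/
lemma cutMin_mem_small (h : ℕ) : ∃ (V : Type) (_ : Fintype V) (G : SimpleGraph V),
    G.edgeSet.ncard = h ∧ Fintype.card V ≤ 2 * h ∧ ∀ A, cutSize G A ≤ cutMin h := by
  obtain ⟨V, i, G, h1, h2⟩ := cutMin_mem h
  let Z : Type := {v : V // ∃ u, G.Adj v u}
  let G' : SimpleGraph Z := G.comap Subtype.val
  have hadj : ∀ u v : Z, adjW G' u v = adjW G u.1 v.1 := by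
    intro u v
    by_cases huv : G.Adj u.1 v.1
    · rw [adjW_of_adj G huv]
      exact adjW_of_adj _ huv
    · rw [adjW_of_not_adj G huv]
      exact adjW_of_not_adj _ huv
  have hzero : ∀ v : V, (¬ ∃ u, G.Adj v u) → ∀ u, adjW G v u = 0 := by
    intro v hv u
    apply adjW_of_not_adj
    intro h
    exact hv ⟨u, h⟩
  have hsum : ∀ f : V → ℤ, (∀ v, (¬ ∃ u, G.Adj v u) → f v = 0) → ∑ v, f v = ∑ v : Z, f v.1 := by
    intro f hf
    rw [← Finset.sum_subtype (univ.filter fun v => ∃ u, G.Adj v u) (by simp) f]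
    rw [Finset.sum_subset (Finset.subset_univ (univ.filter fun v => ∃ u, G.Adj v u))]
    intro v _ hv
    apply hf
    simpa using hv
  have hedge : G'.edgeSet.ncard = h := by
    have e1 := adjW_sum G'
    have e2 := adjW_sum G
    have e3 : ∑ u : Z, ∑ v : Z, adjW G' u v = ∑ u, ∑ v, adjW G u v := by
      rw [hsum (fun u => ∑ v, adjW G u v)
        (fun v hv => Finset.sum_eq_zero fun u _ => hzero v hv u)]
      refine Finset.sum_congr rfl fun u _ => ?_
      rw [hsum (fun v => adjW G u.1 v) (fun v hv => by rw [adjW_symm]; exact hzero v hv _)]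
      exact Finset.sum_congr rfl fun v _ => hadj u v
    rw [e3, e2, h1] at e1
    omega
  refine ⟨Z, inferInstance, G', hedge, ?_, ?_⟩
  · have e1 := adjW_sum G'
    rw [hedge] at e1
    have e2 : ∑ _u : Z, (1:ℤ) ≤ ∑ u : Z, ∑ v : Z, adjW G' u v := by
      refine Finset.sum_le_sum fun u _ => ?_
      obtain ⟨v, hv⟩ := u.2
      have hv' : ∃ u', G.Adj v u' := ⟨u.1, hv.symm⟩
      have e3 := Finset.single_le_sum (f := fun v => adjW G' u v)
        (fun w _ => adjW_nonneg G' u w) (Finset.mem_univ (⟨v, hv'⟩ : Z))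
      simp only [hadj, adjW_of_adj G hv] at e3
      simp only [hadj]
      exact e3
    rw [e1] at e2
    simp only [Finset.sum_const, Finset.card_univ, nsmul_eq_mul, mul_one] at e2
    exact_mod_cast e2
  · intro B
    have e1 : (cutSize G' B : ℤ) ≤ cutSize G (B.map (Function.Embedding.subtype _)) := by
      rw [cutSize_eq, cutSize_eq, wcut_eq_sum, wcut_eq_sum]
      apply le_of_eq
      rw [hsum]
      · refine Finset.sum_congr rfl fun u _ => ?_
        rw [hsum]
        · refine Finset.sum_congr rfl fun v _ => ?_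
          rw [hadj]
          have m1 : ∀ u : Z, u.1 ∈ B.map (Function.Embedding.subtype _) ↔ u ∈ B := by
            intro u
            simpa using fun _ => u.2
          by_cases hu : u ∈ B <;> by_cases hv : v ∈ B <;> simp only [m1, hu, hv] <;> simp
        · intro v hv
          rw [adjW_symm, hzero v hv]; ring
      · intro v hv
        refine Finset.sum_eq_zero fun u _ => ?_
        rw [hzero v hv]; ring
    have e2 := le_maxCut G (B.map (Function.Embedding.subtype _))
    rw [h2] at e2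
    have e3 : (cutSize G (B.map (Function.Embedding.subtype _)) : ℤ) ≤ cutMin h := by
      exact_mod_cast e2
    exact_mod_cast e1.trans e3

end Pool.Agent.Bisect
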