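import Mathlib
import Pool.Agent.Bisect.Pairs


/-!
# Maximum matchings and large gains
-/

set_option autoImplicit false
set_option linter.unusedSectionVars false

namespace Pool.Agent.Bisect

open Finset

open Classical

variable {V : Type} [Fintype V] (G : SimpleGraph V)

/-- there is a partial signing with zero sum and quadratic form at most `-q`. -/
def Gain (q : ℤ) : Prop := ∃ y : V → ℤ, IsTri y ∧ ∑ v, y v = 0 ∧ qf (adjW G) y ≤ -q

lemma Gain.mono {q q' : ℤ} (h : Gain G q) (hq : q' ≤ q) : Gain G q' := by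
  obtain ⟨y, h1, h2, h3⟩ := h
  exact ⟨y, h1, h2, by linarith⟩

/-- `(P, g)` is a matching: `x ∈ P` is matched with `g x`. -/
structure IsMatch (P : Finset V) (g : V → V) : Prop where
  inj : Set.InjOn g P
  nm : ∀ x ∈ P, g x ∉ P
  adj : ∀ x ∈ P, G.Adj x (g x)

/-- vertices not covered by the matching -/
noncomputable def freeSet (P : Finset V) (g : V → V) : Finset V := (P ∪ P.image g)ᶜ

lemma mem_free {P : Finset V} {g : V → V} {v : V} :
    v ∈ freeSet P g ↔ v ∉ P ∧ ∀ x ∈ P, g x ≠ v := by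
  unfold freeSet
  rw [Finset.mem_compl, Finset.mem_union, Finset.mem_image]
  push Not
  rfl

lemma exists_max_match : ∃ (P : Finset V) (g : V → V), IsMatch G P g ∧
    ∀ (P' : Finset V) (g' : V → V), IsMatch G P' g' → P'.card ≤ P.card := by
  have hne : {k | ∃ (P : Finset V) (g : V → V), IsMatch G P g ∧ P.card = k}.Nonempty :=
    ⟨0, ∅, id, ⟨by simp, by simp, by simp⟩, rfl⟩
  have hbdd : BddAbove {k | ∃ (P : Finset V) (g : V → V), IsMatch G P g ∧ P.card = k} := by
    refine ⟨Fintype.card V, ?_⟩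
    rintro k ⟨P, g, _, rfl⟩
    exact Finset.card_le_univ P
  obtain ⟨P, g, h1, h2⟩ := Nat.sSup_mem hne hbdd
  refine ⟨P, g, h1, fun P' g' h' => ?_⟩
  rw [h2]
  exact le_csSup hbdd ⟨P', g', h', rfl⟩

lemma card_free {P : Finset V} {g : V → V} (hm : IsMatch G P g) :
    2 * P.card + (freeSet P g).card = Fintype.card V := by
  have h1 : (P ∪ P.image g).card = 2 * P.card := by
    rw [Finset.card_union_of_disjoint, Finset.card_image_of_injOn hm.inj]
    · ring
    · rw [Finset.disjoint_left]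
      intro v hv hv'
      obtain ⟨x, hx, rfl⟩ := Finset.mem_image.mp hv'
      exact hm.nm x hx hv
  have h2 := Finset.card_add_card_compl (P ∪ P.image g)
  unfold freeSet
  omega

/-- Extending a matching by one edge between free vertices. -/
lemma extend_match {P : Finset V} {g : V → V} (hm : IsMatch G P g) {u v : V}
    (hu : u ∈ freeSet P g) (hv : v ∈ freeSet P g) (huv : G.Adj u v) :
    ∃ (P' : Finset V) (g' : V → V), IsMatch G P' g' ∧ P'.card = P.card + 1 ∧
      ∀ w ∈ freeSet P g, w ≠ u → w ≠ v → w ∈ freeSet P' g' := by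
  rw [mem_free] at hu hv
  have hne := huv.ne
  have hup : ∀ x ∈ P, Function.update g u v x = g x := by
    intro x hx
    rw [Function.update_of_ne]
    rintro rfl
    exact hu.1 hx
  refine ⟨insert u P, Function.update g u v, ⟨?_, ?_, ?_⟩, ?_, ?_⟩
  · intro a ha b hb hab
    rw [Finset.mem_coe, Finset.mem_insert] at ha hb
    rcases ha with ha | ha
    · rcases hb with hb | hb
      · rw [ha, hb]
      · rw [ha, Function.update_self, hup b hb] at hab
        exact absurd hab.symm (hv.2 b hb)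
    · rcases hb with hb | hb
      · rw [hb, Function.update_self, hup a ha] at hab
        exact absurd hab (hv.2 a ha)
      · rw [hup a ha, hup b hb] at hab
        exact hm.inj ha hb hab
  · intro x hx hcon
    rcases Finset.mem_insert.mp hx with h | h
    · rw [h, Function.update_self] at hcon
      rcases Finset.mem_insert.mp hcon with h' | h'
      · exact hne h'.symm
      · exact hv.1 h'
    · rw [hup x h] at hcon
      rcases Finset.mem_insert.mp hcon with h' | h'
      · exact hu.2 x h h'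
      · exact hm.nm x h h'
  · intro x hx
    rcases Finset.mem_insert.mp hx with h | h
    · rw [h, Function.update_self]; exact huv
    · rw [hup x h]; exact hm.adj x h
  · rw [Finset.card_insert_of_notMem hu.1]
  · intro w hw hwu hwv
    rw [mem_free] at hw ⊢
    refine ⟨?_, ?_⟩
    · rw [Finset.mem_insert]
      push Not
      exact ⟨hwu, hw.1⟩
    · intro x hx
      rcases Finset.mem_insert.mp hx with h | h
      · rw [h, Function.update_self]; exact hwv.symm
      · rw [hup x h]; exact hw.2 x h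

/-- Removing one edge of a matching. -/
lemma erase_match {P : Finset V} {g : V → V} (hm : IsMatch G P g) {x : V} (hx : x ∈ P) :
    IsMatch G (P.erase x) g ∧ (P.erase x).card + 1 = P.card ∧
      x ∈ freeSet (P.erase x) g ∧ g x ∈ freeSet (P.erase x) g ∧
      ∀ w ∈ freeSet P g, w ∈ freeSet (P.erase x) g := by
  have hsub := Finset.erase_subset x P
  refine ⟨⟨hm.inj.mono (by exact_mod_cast hsub), fun y hy h => hm.nm y (hsub hy) (hsub h),
    fun y hy => hm.adj y (hsub hy)⟩, Finset.card_erase_add_one hx, ?_, ?_, ?_⟩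
  · rw [mem_free]
    refine ⟨Finset.notMem_erase _ _, fun y hy h => ?_⟩
    exact hm.nm y (hsub hy) (by rw [h]; exact hx)
  · rw [mem_free]
    refine ⟨fun h => hm.nm x hx (hsub h), fun y hy h => ?_⟩
    have := hm.inj (hsub hy) hx h
    exact (Finset.mem_erase.mp hy).1 this
  · intro w hw
    rw [mem_free] at hw ⊢
    exact ⟨fun h => hw.1 (hsub h), fun y hy => hw.2 y (hsub hy)⟩

section maxm

variable {P : Finset V} {g : V → V} (hm : IsMatch G P g)
  (hmax : ∀ (P' : Finset V) (g' : V → V), IsMatch G P' g' → P'.card ≤ P.card)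

include hm hmax

lemma free_indep {u v : V} (hu : u ∈ freeSet P g) (hv : v ∈ freeSet P g) : ¬ G.Adj u v := by
  intro huv
  obtain ⟨P', g', h1, h2, _⟩ := extend_match G hm hu hv huv
  have := hmax P' g' h1
  omega

lemma free_ne {u x : V} (hu : u ∈ freeSet P g) (hx : x ∈ P) : u ≠ x ∧ u ≠ g x := by
  rw [mem_free] at hu
  exact ⟨fun h => hu.1 (h ▸ hx), fun h => hu.2 x hx h.symm⟩

lemma free_unique {x v v' : V} (hx : x ∈ P) (hv : v ∈ freeSet P g) (hv' : v' ∈ freeSet P g)
    (h1 : G.Adj x v) (h2 : G.Adj (g x) v') : v = v' := by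
  by_contra hne
  obtain ⟨e1, e2, e3, e4, e5⟩ := erase_match G hm hx
  obtain ⟨P₁, g₁, f1, f2, f3⟩ := extend_match G e1 e3 (e5 v hv) h1
  have hxg : x ≠ g x := (hm.adj x hx).ne
  obtain ⟨n1, n2⟩ := free_ne G hm hmax hv hx
  obtain ⟨n3, n4⟩ := free_ne G hm hmax hv' hx
  obtain ⟨P₂, g₂, k1, k2, _⟩ := extend_match G f1 (f3 (g x) e4 hxg.symm n2.symm)
    (f3 v' (e5 v' hv') n3 (fun h => hne h.symm)) h2
  have := hmax P₂ g₂ k1
  omega

/-- No augmenting path of length five. -/
lemma no_aug5 {x x' p q p' q' v v' : V} (hx : x ∈ P) (hx' : x' ∈ P) (hxx : x ≠ x')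
    (hpq : (p = x ∧ q = g x) ∨ (p = g x ∧ q = x))
    (hpq' : (p' = x' ∧ q' = g x') ∨ (p' = g x' ∧ q' = x'))
    (hv : v ∈ freeSet P g) (hv' : v' ∈ freeSet P g) (hvv : v ≠ v')
    (h1 : G.Adj q v) (h2 : G.Adj q' v') : ¬ G.Adj p p' := by
  intro hadj
  obtain ⟨e1, e2, e3, e4, e5⟩ := erase_match G hm hx
  have hx'2 : x' ∈ P.erase x := Finset.mem_erase.mpr ⟨hxx.symm, hx'⟩
  obtain ⟨d1, d2, d3, d4, d5⟩ := erase_match G e1 hx'2
  -- all six vertices are free and distinct
  have hxg : x ≠ g x := (hm.adj x hx).ne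
  have hxg' : x' ≠ g x' := (hm.adj x' hx').ne
  have hne1 : x ≠ g x' := fun h => hm.nm x' hx' (h ▸ hx)
  have hne2 : g x ≠ x' := fun h => hm.nm x hx (h ▸ hx')
  have hne3 : g x ≠ g x' := fun h => hxx (hm.inj hx hx' h)
  obtain ⟨n1, n2⟩ := free_ne G hm hmax hv hx
  obtain ⟨n3, n4⟩ := free_ne G hm hmax hv' hx
  obtain ⟨n5, n6⟩ := free_ne G hm hmax hv hx'
  obtain ⟨n7, n8⟩ := free_ne G hm hmax hv' hx'
  have fv := d5 v (e5 v hv)
  have fv' := d5 v' (e5 v' hv')
  have fx := d5 x e3
  have fg := d5 (g x) e4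
  have fp : p ∈ freeSet ((P.erase x).erase x') g := by
    rcases hpq with ⟨rfl, _⟩ | ⟨rfl, _⟩ <;> assumption
  have fq : q ∈ freeSet ((P.erase x).erase x') g := by
    rcases hpq with ⟨_, rfl⟩ | ⟨_, rfl⟩ <;> assumption
  have fp' : p' ∈ freeSet ((P.erase x).erase x') g := by
    rcases hpq' with ⟨rfl, _⟩ | ⟨rfl, _⟩ <;> assumption
  have fq' : q' ∈ freeSet ((P.erase x).erase x') g := by
    rcases hpq' with ⟨_, rfl⟩ | ⟨_, rfl⟩ <;> assumption
  have q_p : q ≠ p := by
    rcases hpq with ⟨rfl, rfl⟩ | ⟨rfl, rfl⟩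
    · exact hxg.symm
    · exact hxg
  have q_p' : q ≠ p' := by
    rcases hpq with ⟨rfl, rfl⟩ | ⟨rfl, rfl⟩ <;> rcases hpq' with ⟨rfl, rfl⟩ | ⟨rfl, rfl⟩ <;>
      assumption
  have q'_p' : q' ≠ p' := by
    rcases hpq' with ⟨rfl, rfl⟩ | ⟨rfl, rfl⟩
    · exact hxg'.symm
    · exact hxg'
  have q'_p : q' ≠ p := by
    rcases hpq with ⟨rfl, rfl⟩ | ⟨rfl, rfl⟩ <;> rcases hpq' with ⟨rfl, rfl⟩ | ⟨rfl, rfl⟩
    · exact hne1.symm
    · exact hxx.symm
    · exact hne3.symm
    · exact hne2.symm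
  have q'_q : q' ≠ q := by
    rcases hpq with ⟨rfl, rfl⟩ | ⟨rfl, rfl⟩ <;> rcases hpq' with ⟨rfl, rfl⟩ | ⟨rfl, rfl⟩
    · exact hne3.symm
    · exact hne2.symm
    · exact hne1.symm
    · exact hxx.symm
  have v_p : v ≠ p := by rcases hpq with ⟨rfl, _⟩ | ⟨rfl, _⟩ <;> assumption
  have v_p' : v ≠ p' := by rcases hpq' with ⟨rfl, _⟩ | ⟨rfl, _⟩ <;> assumption
  have v'_p : v' ≠ p := by rcases hpq with ⟨rfl, _⟩ | ⟨rfl, _⟩ <;> assumption
  have v'_p' : v' ≠ p' := by rcases hpq' with ⟨rfl, _⟩ | ⟨rfl, _⟩ <;> assumption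
  have v'_q : v' ≠ q := by rcases hpq with ⟨_, rfl⟩ | ⟨_, rfl⟩ <;> assumption
  have v_q' : v ≠ q' := by rcases hpq' with ⟨_, rfl⟩ | ⟨_, rfl⟩ <;> assumption
  obtain ⟨P₁, g₁, k1, k2, k3⟩ := extend_match G d1 fp fp' hadj
  obtain ⟨P₂, g₂, l1, l2, l3⟩ := extend_match G k1 (k3 q fq q_p q_p') (k3 v fv v_p v_p') h1
  obtain ⟨P₃, g₃, m1, m2, _⟩ := extend_match G l1
    (l3 q' (k3 q' fq' q'_p q'_p') q'_q v_q'.symm)
    (l3 v' (k3 v' fv' v'_p v'_p') v'_q hvv.symm) h2
  have := hmax P₃ g₃ m1
  omega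

end maxm

/-- the label of a vertex: its neighbours whose partners are not neighbours -/
noncomputable def lab (P : Finset V) (g : V → V) (v : V) : Finset V :=
  (P.filter fun x => G.Adj x v ∧ ¬ G.Adj (g x) v) ∪
    ((P.filter fun x => G.Adj (g x) v ∧ ¬ G.Adj x v).image g)

/-- matched pairs with both ends adjacent to `v` -/
noncomputable def trip (P : Finset V) (g : V → V) (v : V) : Finset V :=
  P.filter fun x => G.Adj x v ∧ G.Adj (g x) v

/-- the difference of the adjacencies -/
noncomputable def dif (g : V → V) (x v : V) : ℤ := adjW G x v - adjW G (g x) v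

lemma dif_one {g : V → V} {x v : V} : dif G g x v = 1 ↔ G.Adj x v ∧ ¬ G.Adj (g x) v := by
  unfold dif
  by_cases h1 : G.Adj x v <;> by_cases h2 : G.Adj (g x) v
  · rw [adjW_of_adj G h1, adjW_of_adj G h2]; simp [h1, h2]
  · rw [adjW_of_adj G h1, adjW_of_not_adj G h2]; simp [h1, h2]
  · rw [adjW_of_not_adj G h1, adjW_of_adj G h2]; simp [h1]
  · rw [adjW_of_not_adj G h1, adjW_of_not_adj G h2]; simp [h1]

lemma dif_neg_one {g : V → V} {x v : V} : dif G g x v = -1 ↔ G.Adj (g x) v ∧ ¬ G.Adj x v := by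
  unfold dif
  by_cases h1 : G.Adj x v <;> by_cases h2 : G.Adj (g x) v
  · rw [adjW_of_adj G h1, adjW_of_adj G h2]; simp [h1]
  · rw [adjW_of_adj G h1, adjW_of_not_adj G h2]; simp [h1]
  · rw [adjW_of_not_adj G h1, adjW_of_adj G h2]; simp [h1, h2]
  · rw [adjW_of_not_adj G h1, adjW_of_not_adj G h2]; simp [h2]

lemma lab_eq_of_dif {P : Finset V} {g : V → V} {v v' : V}
    (h : ∀ x ∈ P, dif G g x v = dif G g x v') : lab G P g v = lab G P g v' := by
  unfold lab
  congr 1
  · apply Finset.filter_congr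
    intro x hx
    rw [← dif_one, ← dif_one, h x hx]
  · congr 1
    apply Finset.filter_congr
    intro x hx
    rw [← dif_neg_one, ← dif_neg_one, h x hx]

/-- The gain from a matching and disjoint pairs of free vertices with different labels. -/
lemma gain_match_pairs {P : Finset V} {g : V → V} (hm : IsMatch G P g)
    (hind : ∀ u ∈ freeSet P g, ∀ v ∈ freeSet P g, ¬ G.Adj u v)
    {Q : Finset V} {g₂ : V → V} (hQ : Q ⊆ freeSet P g) (hg₂ : ∀ v ∈ Q, g₂ v ∈ freeSet P g)
    (hinj : Set.InjOn g₂ Q) (hnm : ∀ v ∈ Q, g₂ v ∉ Q)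
    (hlab : ∀ v ∈ Q, lab G P g v ≠ lab G P g (g₂ v)) :
    Gain G (2 * (P.card + Q.card)) := by
  set F : V → V → ℤ := fun z => ee z + (-1 : ℤ) • ee (g z) with hF
  let X : Finset V → V → ℤ := fun A => ∑ z ∈ P, sg A z • F z
  have hXval : ∀ A v, X A v = ∑ z ∈ P, sg A z * F z v := by
    intro A v
    simp only [X, Finset.sum_apply, Pi.smul_apply, smul_eq_mul]
  have hXP : ∀ A, ∀ v ∈ P, X A v = sg A v := by
    intro A v hv
    rw [hXval, Finset.sum_eq_single v]
    · have : v ≠ g v := fun h => hm.nm v hv (h ▸ hv)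
      simp only [hF, Pi.add_apply, Pi.smul_apply, smul_eq_mul, ee_same, ee_ne this]
      ring
    · intro z hz hzv
      have : v ≠ g z := fun h => hm.nm z hz (h ▸ hv)
      simp only [hF, Pi.add_apply, Pi.smul_apply, smul_eq_mul, ee_ne this, ee_ne hzv.symm]
      ring
    · intro h; exact absurd hv h
  have hXg : ∀ A, ∀ z ∈ P, X A (g z) = - sg A z := by
    intro A z hz
    rw [hXval, Finset.sum_eq_single z]
    · have : g z ≠ z := fun h => hm.nm z hz (by rw [h]; exact hz)
      simp only [hF, Pi.add_apply, Pi.smul_apply, smul_eq_mul, ee_same, ee_ne this]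
      ring
    · intro z' hz' hne
      have h1 : g z ≠ z' := fun h => hm.nm z hz (by rw [h]; exact hz')
      have h2 : g z ≠ g z' := fun h => hne (hm.inj hz hz' h).symm
      simp only [hF, Pi.add_apply, Pi.smul_apply, smul_eq_mul, ee_ne h1, ee_ne h2]
      ring
    · intro h; exact absurd hz h
  have hX0 : ∀ A, ∀ v ∈ freeSet P g, X A v = 0 := by
    intro A v hv
    rw [mem_free] at hv
    rw [hXval]
    refine Finset.sum_eq_zero fun z hz => ?_
    have h1 : v ≠ z := fun h => hv.1 (h ▸ hz)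
    have h2 : v ≠ g z := fun h => hv.2 z hz h.symm
    simp only [hF, Pi.add_apply, Pi.smul_apply, smul_eq_mul, ee_ne h1, ee_ne h2]
    ring
  have hXtri : ∀ A, IsTri (X A) := by
    intro A v
    by_cases h1 : v ∈ P
    · rw [hXP A v h1]; exact Or.inr (sg_isSign A v)
    · by_cases h2 : ∃ z ∈ P, g z = v
      · obtain ⟨z, hz, rfl⟩ := h2
        rw [hXg A z hz]
        rcases sg_isSign A z with h | h <;> rw [h] <;> norm_num
      · push Not at h2
        left; exact hX0 A v (mem_free.mpr ⟨h1, h2⟩)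
  have hXsum : ∀ A, ∑ v, X A v = 0 := by
    intro A
    simp_rw [hXval]
    rw [Finset.sum_comm]
    refine Finset.sum_eq_zero fun z _ => ?_
    rw [← Finset.mul_sum]
    simp only [hF, Pi.add_apply, Pi.smul_apply, smul_eq_mul, Finset.sum_add_distrib,
      ← Finset.mul_sum, sum_ee]
    ring
  -- the average of the quadratic form
  have hq : ∑ A : Finset V, qf (adjW G) (X A) =
      (Fintype.card (Finset V) : ℤ) * (-(2 * P.card)) := by
    have h1 : ∀ A : Finset V, qf (adjW G) (X A) = ∑ z ∈ P, ∑ z' ∈ P,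
        (sg A z * sg A z') * bil (adjW G) (F z) (F z') := by
      intro A
      unfold qf
      simp only [X]
      rw [bil_sum_left]
      refine Finset.sum_congr rfl fun z _ => ?_
      rw [bil_smul_left, bil_sum_right, Finset.mul_sum]
      refine Finset.sum_congr rfl fun z' _ => ?_
      rw [bil_smul_right]; ring
    simp_rw [h1]
    rw [Finset.sum_comm]
    have h2 : ∀ z ∈ P, ∑ A : Finset V, ∑ z' ∈ P, (sg A z * sg A z') * bil (adjW G) (F z) (F z')
        = (Fintype.card (Finset V) : ℤ) * (-2) := by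
      intro z hz
      rw [Finset.sum_comm, Finset.sum_eq_single z]
      · rw [← Finset.sum_mul, sum_sg_mul_self]
        have h2 : bil (adjW G) (F z) (F z) = - 2 * adjW G z (g z) :=
          qf_ee_sub (adjW_symm G) (adjW_self G) z (g z)
        rw [h2, adjW_of_adj G (hm.adj z hz)]
        ring
      · intro z' _ hne
        rw [← Finset.sum_mul, sum_sg_mul_ne hne.symm]; simp
      · intro h; exact absurd hz h
    rw [Finset.sum_congr rfl h2, Finset.sum_const, nsmul_eq_mul]
    ring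
  -- the linear forms
  have hL : ∀ v ∈ Q, (Fintype.card (Finset V) : ℤ) ≤
      ∑ A : Finset V, |bil (adjW G) (X A) (ee v + (-1 : ℤ) • ee (g₂ v))| := by
    intro v hv
    have h1 : ∀ A : Finset V, bil (adjW G) (X A) (ee v + (-1 : ℤ) • ee (g₂ v))
        = ∑ z ∈ P, sg A z * (dif G g z v - dif G g z (g₂ v)) := by
      intro A
      simp only [X]
      rw [bil_sum_left]
      refine Finset.sum_congr rfl fun z hz => ?_
      rw [bil_smul_left]
      congr 1
      simp only [hF, dif]
      rw [bil_add_left, bil_add_right, bil_add_right, bil_smul_right, bil_smul_left, bil_smul_left,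
        bil_smul_right, bil_ee_ee, bil_ee_ee, bil_ee_ee, bil_ee_ee]
      ring
    simp_rw [h1]
    obtain ⟨z0, hz0, hne⟩ : ∃ z0 ∈ P, dif G g z0 v - dif G g z0 (g₂ v) ≠ 0 := by
      by_contra hcon
      push Not at hcon
      exact hlab v hv (lab_eq_of_dif G fun x hx => sub_eq_zero.mp (hcon x hx))
    exact sum_abs_ge (c := fun z => dif G g z v - dif G g z (g₂ v)) hz0 hne
  -- choose a good A
  obtain ⟨A, hA⟩ : ∃ A : Finset V, qf (adjW G) (X A)
      - 2 * ∑ v ∈ Q, |bil (adjW G) (X A) (ee v + (-1 : ℤ) • ee (g₂ v))|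
        ≤ -(2 * (P.card + Q.card)) := by
    by_contra hcon
    push Not at hcon
    have h1 : ∑ _A : Finset V, (-(2 * ((P.card : ℤ) + Q.card))) < ∑ A : Finset V,
        (qf (adjW G) (X A)
          - 2 * ∑ v ∈ Q, |bil (adjW G) (X A) (ee v + (-1 : ℤ) • ee (g₂ v))|) :=
      Finset.sum_lt_sum_of_nonempty Finset.univ_nonempty fun A _ => hcon A
    rw [Finset.sum_sub_distrib, ← Finset.mul_sum, Finset.sum_comm, hq] at h1
    have h2 : ∑ v ∈ Q, (Fintype.card (Finset V) : ℤ) ≤ ∑ v ∈ Q,
        ∑ A : Finset V, |bil (adjW G) (X A) (ee v + (-1 : ℤ) • ee (g₂ v))| :=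
      Finset.sum_le_sum hL
    simp only [Finset.sum_const, Finset.card_univ, nsmul_eq_mul] at h1 h2
    linarith
  obtain ⟨y, y1, y2, y3⟩ := add_pairs G (W := P ∪ P.image g)
    (fun u hu v hv => hind u (Finset.mem_compl.mpr hu) v (Finset.mem_compl.mpr hv)) g₂ Q
    (X A) (hXtri A) (fun v hv => Finset.mem_compl.mp (hQ hv))
    (fun v hv => Finset.mem_compl.mp (hg₂ v hv)) hinj hnm
    (fun v hv => hX0 A v (hQ hv)) (fun v hv => hX0 A _ (hg₂ v hv))
  exact ⟨y, y1, y2.trans (hXsum A), y3.trans hA⟩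

/-- Adding matched pairs one after the other. -/
lemma add_match (g : V → V) (P : Finset V) : ∀ x : V → ℤ, IsTri x → IsMatch G P g →
    (∀ v ∈ P, x v = 0) → (∀ v ∈ P, x (g v) = 0) →
    ∃ y : V → ℤ, IsTri y ∧ ∑ v, y v = ∑ v, x v ∧
      qf (adjW G) y ≤ qf (adjW G) x - 2 * P.card := by
  induction P using Finset.induction_on with
  | empty =>
    intro x hx _ _ _
    exact ⟨x, hx, rfl, by simp⟩
  | insert a P ha ih =>
    intro x hx hm h5 h6
    have haP : a ∈ insert a P := Finset.mem_insert_self _ _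
    have hag : a ≠ g a := fun h => hm.nm a haP (h ▸ haP)
    obtain ⟨y, y1, y2, _, _, y5, y6⟩ :=
      add_pair (adjW_symm G) (adjW_self G) hx hag (h5 a haP) (h6 a haP)
    have hsub : P ⊆ insert a P := Finset.subset_insert _ _
    obtain ⟨y', z1, z2, z3⟩ := ih y y1
      ⟨hm.inj.mono (by exact_mod_cast hsub), fun v hv h => hm.nm v (hsub hv) (hsub h),
        fun v hv => hm.adj v (hsub hv)⟩
      (by
        intro v hv
        have e1 : v ≠ a := fun h => ha (h ▸ hv)
        have e2 : v ≠ g a := fun h => hm.nm a haP (hsub (h ▸ hv))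
        rw [y2 v e1 e2]
        exact h5 v (hsub hv))
      (by
        intro v hv
        have e1 : g v ≠ a := fun h => hm.nm v (hsub hv) (h ▸ haP)
        have e2 : g v ≠ g a := fun h => by
          have := hm.inj (by exact_mod_cast hsub hv) (by exact_mod_cast haP) h
          exact ha (this ▸ hv)
        rw [y2 _ e1 e2]
        exact h6 v (hsub hv))
    refine ⟨y', z1, z2.trans y5, z3.trans ?_⟩
    rw [Finset.card_insert_of_notMem ha, adjW_of_adj G (hm.adj a haP)] at *
    have := abs_nonneg (bil (adjW G) x (ee a + (-1 : ℤ) • ee (g a)))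
    push_cast
    linarith

/-- The gain from a complete bipartite graph between `S` and an independent set `J` of the same
size, together with a matching avoiding both. -/
lemma gain_biclique_match {S J : Finset V} (hSJ : Disjoint S J) (hc : S.card = J.card)
    (hadj : ∀ u ∈ S, ∀ v ∈ J, G.Adj u v) (hJ : ∀ u ∈ J, ∀ v ∈ J, ¬ G.Adj u v)
    {P : Finset V} {g : V → V} (hm : IsMatch G P g) (h1 : ∀ x ∈ P, x ∉ S ∧ x ∉ J)
    (h2 : ∀ x ∈ P, g x ∉ S ∧ g x ∉ J) :
    Gain G (J.card * (J.card + 1) + 2 * P.card) := by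
  have hJS : ∀ v ∈ J, v ∉ S := fun v hv h => Finset.disjoint_left.mp hSJ h hv
  have hY0 : ∀ v, v ∉ S → v ∉ J → (ind S + (-1 : ℤ) • ind J) v = 0 := by
    intro v hv hv'
    simp [ind_not_mem hv, ind_not_mem hv']
  obtain ⟨y, y1, y2, y3⟩ := add_match G g P (ind S + (-1 : ℤ) • ind J) (by
      intro v
      by_cases h1 : v ∈ S
      · have h2 : v ∉ J := fun h => hJS v h h1
        right; left
        simp [ind_mem h1, ind_not_mem h2]
      · by_cases h2 : v ∈ J
        · right; right
          simp [ind_mem h2, ind_not_mem h1]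
        · left; exact hY0 v h1 h2) hm
    (fun v hv => hY0 v (h1 v hv).1 (h1 v hv).2) (fun v hv => hY0 _ (h2 v hv).1 (h2 v hv).2)
  refine ⟨y, y1, ?_, y3.trans ?_⟩
  · rw [y2]
    simp only [Pi.add_apply, Pi.smul_apply, smul_eq_mul, Finset.sum_add_distrib,
      ← Finset.mul_sum, sum_ind, hc]
    ring
  · rw [qf_add (adjW_symm G), bil_smul_right, qf_smul]
    have e1 : qf (adjW G) (ind S) ≤ (S.card : ℤ) * (S.card - 1) := by
      unfold qf
      rw [bil_ind_ind]
      have : ∑ v ∈ S, ∑ u ∈ S, adjW G u v ≤ ∑ v ∈ S, ((S.card : ℤ) - 1) := by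
        refine Finset.sum_le_sum fun v hv => ?_
        rw [← Finset.add_sum_erase S _ hv, adjW_self, zero_add]
        have : ∑ u ∈ S.erase v, adjW G u v ≤ ∑ u ∈ S.erase v, (1:ℤ) :=
          Finset.sum_le_sum fun u _ => adjW_le_one G u v
        refine this.trans (le_of_eq ?_)
        have hSpos : 1 ≤ S.card := Finset.card_pos.mpr ⟨v, hv⟩
        rw [Finset.sum_const, Finset.card_erase_of_mem hv, nsmul_eq_mul, mul_one]
        push_cast [hSpos]
        ring
      refine this.trans (le_of_eq ?_)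
      simp
      ring
    have e2 : bil (adjW G) (ind S) (ind J) = S.card * J.card := by
      rw [bil_ind_ind, Finset.sum_congr rfl (g := fun _ => (S.card : ℤ))]
      · rw [Finset.sum_const, nsmul_eq_mul]; ring
      · intro v hv
        rw [Finset.sum_congr rfl (g := fun _ => (1:ℤ))]
        · simp
        · intro u hu
          exact adjW_of_adj G (hadj u hu v hv)
    have e3 : qf (adjW G) (ind J) = 0 := by
      unfold qf
      rw [bil_ind_ind]
      refine Finset.sum_eq_zero fun v hv => Finset.sum_eq_zero fun u hu => ?_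
      exact adjW_of_not_adj G (hJ u hu v hv)
    rw [e2, e3]
    rw [hc] at e1 ⊢
    linarith

end Pool.Agent.Bisect
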