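import Mathlib
import Pool.Agent.Bisect.MaxMatch

/-!
# The structure theorem: a large gain or a popular neighbourhood
-/

set_option autoImplicit false
set_option linter.unusedSectionVars false

namespace Pool.Agent.Bisect

open Finset

open Classical

variable {V : Type} [Fintype V] (G : SimpleGraph V)

lemma mem_lab {P : Finset V} {g : V → V} {v z : V} : z ∈ lab G P g v ↔
    (z ∈ P ∧ G.Adj z v ∧ ¬ G.Adj (g z) v) ∨ ∃ x ∈ P, G.Adj (g x) v ∧ ¬ G.Adj x v ∧ g x = z := by
  unfold lab
  rw [Finset.mem_union, Finset.mem_filter, Finset.mem_image]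
  constructor
  · rintro (h | ⟨x, hx, hz⟩)
    · exact Or.inl h
    · rw [Finset.mem_filter] at hx
      exact Or.inr ⟨x, hx.1, hx.2.1, hx.2.2, hz⟩
  · rintro (h | ⟨x, hx, h1, h2, hz⟩)
    · exact Or.inl h
    · exact Or.inr ⟨x, Finset.mem_filter.mpr ⟨hx, h1, h2⟩, hz⟩

lemma lab_adj {P : Finset V} {g : V → V} {v z : V} (h : z ∈ lab G P g v) : G.Adj z v := by
  rcases (mem_lab G).mp h with h | ⟨x, _, h1, _, rfl⟩
  · exact h.2.1
  · exact h1

lemma lab_sub {P : Finset V} {g : V → V} {v z : V} (h : z ∈ lab G P g v) :
    z ∈ P ∪ P.image g := by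
  rcases (mem_lab G).mp h with h | ⟨x, hx, _, _, rfl⟩
  · exact Finset.mem_union_left _ h.1
  · exact Finset.mem_union_right _ (Finset.mem_image_of_mem g hx)

lemma lab_card_eq {P : Finset V} {g : V → V} (hm : IsMatch G P g) (v : V) :
    (lab G P g v).card = (P.filter fun x => G.Adj x v ∧ ¬ G.Adj (g x) v).card +
      (P.filter fun x => G.Adj (g x) v ∧ ¬ G.Adj x v).card := by
  unfold lab
  rw [Finset.card_union_of_disjoint, Finset.card_image_of_injOn]
  · exact hm.inj.mono (by
      intro x hx
      exact (Finset.mem_filter.mp hx).1)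
  · rw [Finset.disjoint_left]
    intro z hz hz'
    obtain ⟨x, hx, rfl⟩ := Finset.mem_image.mp hz'
    exact hm.nm x (Finset.mem_filter.mp hx).1 (Finset.mem_filter.mp hz).1

lemma lab_card_le {P : Finset V} {g : V → V} (hm : IsMatch G P g) (v : V) :
    (lab G P g v).card ≤ P.card := by
  rw [lab_card_eq G hm, ← Finset.card_union_of_disjoint]
  · exact Finset.card_le_card (Finset.union_subset (Finset.filter_subset _ _)
      (Finset.filter_subset _ _))
  · rw [Finset.disjoint_left]
    intro z hz hz'
    exact (Finset.mem_filter.mp hz').2.2 (Finset.mem_filter.mp hz).2.1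

/-- sums over the vertex set of functions vanishing on the free vertices -/
lemma sum_match {P : Finset V} {g : V → V} (hm : IsMatch G P g) (f : V → ℤ)
    (hf : ∀ v ∈ freeSet P g, f v = 0) : ∑ v, f v = ∑ x ∈ P, (f x + f (g x)) := by
  have h1 : ∑ v, f v = ∑ v ∈ P ∪ P.image g, f v := by
    rw [← Finset.sum_subset (Finset.subset_univ (P ∪ P.image g))]
    intro v _ hv
    exact hf v (Finset.mem_compl.mpr hv)
  rw [h1, Finset.sum_union, Finset.sum_image, ← Finset.sum_add_distrib]
  · intro a ha b hb hab
    exact hm.inj ha hb hab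
  · rw [Finset.disjoint_left]
    intro v hv hv'
    obtain ⟨x, hx, rfl⟩ := Finset.mem_image.mp hv'
    exact hm.nm x hx hv

lemma row_free {P : Finset V} {g : V → V} (hm : IsMatch G P g)
    (hind : ∀ u ∈ freeSet P g, ∀ v ∈ freeSet P g, ¬ G.Adj u v) {v : V} (hv : v ∈ freeSet P g) :
    ∑ u, adjW G u v = (lab G P g v).card + 2 * (trip G P g v).card := by
  rw [sum_match G hm _ (fun u hu => adjW_of_not_adj G (hind u hu v hv)), lab_card_eq G hm]
  have h1 : ∀ x ∈ P, adjW G x v + adjW G (g x) v =
      (if G.Adj x v ∧ ¬ G.Adj (g x) v then (1:ℤ) else 0) +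
      (if G.Adj (g x) v ∧ ¬ G.Adj x v then (1:ℤ) else 0) +
      2 * (if G.Adj x v ∧ G.Adj (g x) v then (1:ℤ) else 0) := by
    intro x _
    by_cases h1 : G.Adj x v <;> by_cases h2 : G.Adj (g x) v
    · rw [adjW_of_adj G h1, adjW_of_adj G h2]; simp [h1, h2]
    · rw [adjW_of_adj G h1, adjW_of_not_adj G h2]; simp [h1, h2]
    · rw [adjW_of_not_adj G h1, adjW_of_adj G h2]; simp [h1, h2]
    · rw [adjW_of_not_adj G h1, adjW_of_not_adj G h2]; simp [h1, h2]
  rw [Finset.sum_congr rfl h1, Finset.sum_add_distrib, Finset.sum_add_distrib, ← Finset.mul_sum]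
  unfold trip
  rw [Finset.card_filter, Finset.card_filter, Finset.card_filter]
  push_cast
  rfl

lemma sum_trip_le {P : Finset V} {g : V → V} (hm : IsMatch G P g)
    (hmax : ∀ (P' : Finset V) (g' : V → V), IsMatch G P' g' → P'.card ≤ P.card)
    {O' : Finset V} (hO : O' ⊆ freeSet P g) : ∑ v ∈ O', (trip G P g v).card ≤ P.card := by
  rw [← Finset.card_biUnion]
  · apply Finset.card_le_card
    intro x hx
    obtain ⟨v, _, hx'⟩ := Finset.mem_biUnion.mp hx
    exact (Finset.mem_filter.mp hx').1
  · intro v hv v' hv' hne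
    rw [Function.onFun, Finset.disjoint_left]
    intro x hx hx'
    obtain ⟨hxP, h1, _⟩ := Finset.mem_filter.mp hx
    obtain ⟨_, _, h2⟩ := Finset.mem_filter.mp hx'
    exact hne (free_unique G hm hmax hxP (hO hv) (hO hv') h1 h2)

lemma two_edges_match {P : Finset V} {g : V → V}
    (hind : ∀ u ∈ freeSet P g, ∀ v ∈ freeSet P g, ¬ G.Adj u v) :
    (2 * G.edgeSet.ncard : ℤ) = ∑ u ∈ P ∪ P.image g, ∑ v ∈ P ∪ P.image g, adjW G u v +
      2 * ∑ v ∈ freeSet P g, ∑ u, adjW G u v := by
  set W := P ∪ P.image g with hW
  have hO : freeSet P g = Wᶜ := rfl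
  rw [← adjW_sum]
  have hs : ∀ f : V → ℤ, ∑ v, f v = ∑ v ∈ W, f v + ∑ v ∈ Wᶜ, f v :=
    fun f => (Finset.sum_add_sum_compl W f).symm
  rw [hs]
  have e1 : ∑ u ∈ W, ∑ v, adjW G u v = ∑ u ∈ W, ∑ v ∈ W, adjW G u v
      + ∑ u ∈ W, ∑ v ∈ Wᶜ, adjW G u v := by
    rw [← Finset.sum_add_distrib]
    exact Finset.sum_congr rfl fun u _ => hs _
  have e2 : ∑ u ∈ W, ∑ v ∈ Wᶜ, adjW G u v = ∑ v ∈ Wᶜ, ∑ u, adjW G u v := by
    rw [Finset.sum_comm]
    refine Finset.sum_congr rfl fun v hv => ?_
    rw [hs (fun u => adjW G u v)]
    have : ∑ u ∈ Wᶜ, adjW G u v = 0 :=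
      Finset.sum_eq_zero fun u hu => adjW_of_not_adj G (hind u hu v hv)
    rw [this, add_zero]
  have e3 : ∑ u ∈ Wᶜ, ∑ v, adjW G u v = ∑ v ∈ Wᶜ, ∑ u, adjW G u v :=
    Finset.sum_congr rfl fun u _ => Finset.sum_congr rfl fun v _ => adjW_symm G u v
  rw [e1, e2, e3, hO]
  ring

lemma card_W {P : Finset V} {g : V → V} (hm : IsMatch G P g) :
    (P ∪ P.image g).card = 2 * P.card := by
  have h1 := card_free G hm
  have h2 := Finset.card_add_card_compl (P ∪ P.image g)
  have hO : freeSet P g = (P ∪ P.image g)ᶜ := rfl
  rw [hO] at h1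
  omega

/-- rows inside a set -/
lemma row_in_le {W N : Finset V} {u : V} (hu : u ∈ W) (hN : N ⊆ W) (huN : u ∉ N)
    (hnadj : ∀ v ∈ N, ¬ G.Adj u v) : ∑ v ∈ W, adjW G u v ≤ (W.card : ℤ) - 1 - N.card := by
  have hsub : insert u N ⊆ W := Finset.insert_subset hu hN
  rw [← Finset.sum_sdiff hsub]
  have h1 : ∑ v ∈ insert u N, adjW G u v = 0 := by
    refine Finset.sum_eq_zero fun v hv => ?_
    rcases Finset.mem_insert.mp hv with h | h
    · rw [h, adjW_self]
    · exact adjW_of_not_adj G (hnadj v h)
  have h2 : ∑ v ∈ W \ insert u N, adjW G u v ≤ ∑ v ∈ W \ insert u N, (1:ℤ) :=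
    Finset.sum_le_sum fun v _ => adjW_le_one G u v
  have h3 : (W \ insert u N).card + (insert u N).card = W.card := by
    rw [Finset.card_sdiff_of_subset hsub]
    have := Finset.card_le_card hsub
    omega
  have h4 : (insert u N).card = N.card + 1 := Finset.card_insert_of_notMem huN
  have h5 : ((W \ insert u N).card : ℤ) + (N.card + 1) = W.card := by
    rw [← h3, h4]; push_cast; ring
  rw [Finset.sum_const, nsmul_eq_mul, mul_one] at h2
  rw [h1, add_zero]
  linarith

lemma ww_le {P : Finset V} {g : V → V} (hm : IsMatch G P g) :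
    ∑ u ∈ P ∪ P.image g, ∑ v ∈ P ∪ P.image g, adjW G u v ≤
      2 * (P.card : ℤ) * (2 * P.card - 1) := by
  have h1 : ∑ u ∈ P ∪ P.image g, ∑ v ∈ P ∪ P.image g, adjW G u v ≤
      ∑ u ∈ P ∪ P.image g, (((P ∪ P.image g).card : ℤ) - 1) := by
    refine Finset.sum_le_sum fun u hu => ?_
    have := row_in_le G hu (Finset.empty_subset _) (Finset.notMem_empty _) (by simp)
    simpa using this
  refine h1.trans (le_of_eq ?_)
  rw [Finset.sum_const, card_W G hm, nsmul_eq_mul]
  push_cast
  ring

lemma ww_le' {P : Finset V} {g : V → V} (hm : IsMatch G P g)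
    (hmax : ∀ (P' : Finset V) (g' : V → V), IsMatch G P' g' → P'.card ≤ P.card)
    {IS : Finset V} (hIS : IS ⊆ freeSet P g) (hL : 2 ≤ IS.card)
    (hT : ∀ v ∈ IS, (trip G P g v).Nonempty) :
    ∑ u ∈ P ∪ P.image g, ∑ v ∈ P ∪ P.image g, adjW G u v ≤
      2 * (P.card : ℤ) * (2 * P.card - 1) - 2 * IS.card := by
  set W := P ∪ P.image g with hW
  choose! t ht using hT
  have htP : ∀ v ∈ IS, t v ∈ P ∧ G.Adj (t v) v ∧ G.Adj (g (t v)) v := by
    intro v hv
    exact Finset.mem_filter.mp (ht v hv)
  have hinj : ∀ v ∈ IS, ∀ v' ∈ IS, t v = t v' → v = v' := by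
    intro v hv v' hv' h
    obtain ⟨h1, h2, _⟩ := htP v hv
    obtain ⟨_, _, h5⟩ := htP v' hv'
    rw [← h] at h5
    exact free_unique G hm hmax h1 (hIS hv) (hIS hv') h2 h5
  have himg : IS.image t ⊆ W := by
    intro u hu
    obtain ⟨v, hv, rfl⟩ := Finset.mem_image.mp hu
    exact Finset.mem_union_left _ (htP v hv).1
  have himgc : (IS.image t).card = IS.card :=
    Finset.card_image_of_injOn fun a ha b hb h => hinj a ha b hb h
  rw [← Finset.sum_sdiff himg]
  have h1 : ∑ u ∈ W \ IS.image t, ∑ v ∈ W, adjW G u v ≤
      ∑ u ∈ W \ IS.image t, ((W.card : ℤ) - 1) := by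
    refine Finset.sum_le_sum fun u hu => ?_
    have := row_in_le G (Finset.mem_sdiff.mp hu).1 (Finset.empty_subset W)
      (Finset.notMem_empty _) (by simp)
    simpa using this
  have h2 : ∑ u ∈ IS.image t, ∑ v ∈ W, adjW G u v ≤
      ∑ u ∈ IS.image t, ((W.card : ℤ) - 3) := by
    refine Finset.sum_le_sum fun u hu => ?_
    obtain ⟨v, hv, rfl⟩ := Finset.mem_image.mp hu
    obtain ⟨v', hv', hne⟩ : ∃ v' ∈ IS, v' ≠ v := by
      by_contra hcon
      push Not at hcon
      have : IS ⊆ {v} := fun w hw => Finset.mem_singleton.mpr (hcon w hw)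
      have := Finset.card_le_card this
      rw [Finset.card_singleton] at this
      omega
    obtain ⟨a1, a2, a3⟩ := htP v hv
    obtain ⟨b1, b2, b3⟩ := htP v' hv'
    have htne : t v ≠ t v' := fun h => hne (hinj v hv v' hv' h).symm
    have hgne : t v ≠ g (t v') := fun h => hm.nm _ b1 (h ▸ a1)
    have hgt : t v' ≠ g (t v') := (hm.adj _ b1).ne
    have hcard2 : ({t v', g (t v')} : Finset V).card = 2 := Finset.card_pair hgt
    have := row_in_le G (W := W) (N := {t v', g (t v')}) (u := t v)
      (Finset.mem_union_left _ a1)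
      (by
        intro z hz
        rw [Finset.mem_insert, Finset.mem_singleton] at hz
        rcases hz with h | h
        · rw [h]; exact Finset.mem_union_left _ b1
        · rw [h]; exact Finset.mem_union_right _ (Finset.mem_image_of_mem g b1))
      (by
        rw [Finset.mem_insert, Finset.mem_singleton]
        push Not
        exact ⟨htne, hgne⟩)
      (by
        intro z hz
        rw [Finset.mem_insert, Finset.mem_singleton] at hz
        rcases hz with h | h
        · rw [h]
          exact no_aug5 G hm hmax a1 b1 htne (Or.inl ⟨rfl, rfl⟩) (Or.inl ⟨rfl, rfl⟩)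
            (hIS hv) (hIS hv') hne.symm a3 b3
        · rw [h]
          exact no_aug5 G hm hmax a1 b1 htne (Or.inl ⟨rfl, rfl⟩) (Or.inr ⟨rfl, rfl⟩)
            (hIS hv) (hIS hv') hne.symm a3 b2)
    rw [hcard2] at this
    push_cast at this
    linarith
  have h3 : (W \ IS.image t).card + IS.card = W.card := by
    have h := Finset.card_le_card himg
    rw [Finset.card_sdiff_of_subset himg, ← himgc]
    omega
  have h3' : ((W \ IS.image t).card : ℤ) + IS.card = 2 * P.card := by
    have h4 := card_W G hm
    rw [← hW] at h4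
    have : (((W \ IS.image t).card + IS.card : ℕ) : ℤ) = ((2 * P.card : ℕ) : ℤ) := by rw [h3, h4]
    push_cast at this
    exact this
  rw [Finset.sum_const, nsmul_eq_mul] at h1 h2
  rw [himgc] at h2
  have h4 : (W.card : ℤ) = 2 * P.card := by
    rw [hW, card_W G hm]; push_cast; ring
  rw [h4] at h1 h2
  have h5 : ((W \ IS.image t).card : ℤ) = 2 * P.card - IS.card := by linarith
  rw [h5] at h1
  refine (add_le_add h1 h2).trans (le_of_eq ?_)
  ring

/-- The structure theorem. -/
theorem structure_thm :
    Gain G ((Fintype.card V : ℤ) - 1) ∨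
    ∃ (S IS I : Finset V) (ν D : ℕ),
      Fintype.card V = 2 * ν + IS.card + D ∧ D < IS.card ∧ S.card ≤ IS.card ∧
      S.card ≤ ν ∧ I ⊆ IS ∧ Disjoint S I ∧ (∀ v ∈ I, ∀ u, G.Adj u v ↔ u ∈ S) ∧ IS.card ≤ I.card + ν ∧
      (∀ δ : ℕ, (∀ v, δ ≤ (G.neighborSet v).ncard) →
        δ * IS.card ≤ S.card * IS.card + 2 * ν) ∧
      (I = ∅ → (2 * G.edgeSet.ncard : ℤ) ≤
        4 * ν * ν + 2 * ν + 2 * S.card * IS.card + 2 * ν * D - 2 * IS.card) ∧
      Gain G (2 * (ν + D)) ∧ Gain G (2 * ν + (S.card : ℤ) * (S.card - 1)) := by
  obtain ⟨P, g, hm, hmax⟩ := exists_max_match G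
  have hind : ∀ u ∈ freeSet P g, ∀ v ∈ freeSet P g, ¬ G.Adj u v :=
    fun u hu v hv => free_indep G hm hmax hu hv
  have hcard := card_free G hm
  set O := freeSet P g with hO
  by_cases hbig : ∀ l, 2 * (O.filter fun v => lab G P g v = l).card ≤ O.card
  · left
    obtain ⟨Q, g₂, p1, p2, p3, p4, p5, p6⟩ := exists_pairs (lab G P g) (O.card / 2) O (by omega) (by
      intro l
      have h1 := hbig l
      have key : (O.filter fun v => lab G P g v = l).card + O.card / 2 ≤ O.card := by omega
      convert key)
    refine (gain_match_pairs G hm hind p2 p3 p4 p5 p6).mono G ?_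
    rw [p1]
    have h1 : (Fintype.card V : ℤ) = 2 * P.card + O.card := by
      rw [← hcard]; push_cast; ring
    omega
  · push Not at hbig
    obtain ⟨S, hS⟩ := hbig
    set IS := O.filter fun v => lab G P g v = S with hIS
    have hISO : IS ⊆ O := Finset.filter_subset _ _
    obtain ⟨D, hD⟩ : ∃ D, O.card = IS.card + D := ⟨O.card - IS.card, by
      have := Finset.card_le_card hISO
      omega⟩
    have hDL : D < IS.card := by omega
    have hlabS : ∀ v ∈ IS, lab G P g v = S := fun v hv => (Finset.mem_filter.mp hv).2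
    obtain ⟨v₀, hv₀⟩ : IS.Nonempty := Finset.card_pos.mp (by omega)
    by_cases hone : IS.card = 1
    · left
      have h := gain_match_pairs G hm hind (Q := ∅) (g₂ := id) (Finset.empty_subset _)
        (by simp) (by simp) (by simp) (by simp)
      refine h.mono G ?_
      have h1 : (Fintype.card V : ℤ) = 2 * P.card + 1 := by
        have : Fintype.card V = 2 * P.card + 1 := by omega
        rw [this]; push_cast; ring
      rw [h1, Finset.card_empty]
      push_cast
      linarith
    -- first gain
    have gain1 : Gain G (2 * (P.card + D)) := by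
      obtain ⟨Q, g₂, p1, p2, p3, p4, p5, p6⟩ := exists_pairs (lab G P g) D O (by omega) (by
        intro l
        have key : (O.filter fun v => lab G P g v = l).card + D ≤ O.card := by
          by_cases hl : l = S
          · rw [hl]
            have : (O.filter fun v => lab G P g v = S).card = IS.card := rfl
            omega
          · have h1 : Disjoint (O.filter fun v => lab G P g v = l) IS := by
              rw [Finset.disjoint_left]
              intro v hv hv'
              exact hl ((Finset.mem_filter.mp hv).2.symm.trans (hlabS v hv'))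
            have h2 : ((O.filter fun v => lab G P g v = l) ∪ IS).card ≤ O.card :=
              Finset.card_le_card (Finset.union_subset (Finset.filter_subset _ _) hISO)
            rw [Finset.card_union_of_disjoint h1] at h2
            omega
        convert key)
      have := gain_match_pairs G hm hind p2 p3 p4 p5 p6
      rw [p1] at this
      exact this
    -- second gain
    have hSadj : ∀ z ∈ S, ∀ v ∈ IS, G.Adj z v := by
      intro z hz v hv
      rw [← hlabS v hv] at hz
      exact lab_adj G hz
    have hSW : ∀ z ∈ S, z ∈ P ∪ P.image g := by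
      intro z hz
      rw [← hlabS v₀ hv₀] at hz
      exact lab_sub G hz
    have hISW : ∀ v ∈ IS, v ∉ P ∪ P.image g := fun v hv => Finset.mem_compl.mp (hISO hv)
    have hSIS : Disjoint S IS := by
      rw [Finset.disjoint_left]
      intro v hv hv'
      exact hISW v hv' (hSW v hv)
    have gain2 : ∀ j, j ≤ S.card → j ≤ IS.card →
        Gain G (2 * P.card + (j : ℤ) * (j - 1)) := by
      intro j hj1 hj2
      obtain ⟨S', hS', hSc⟩ := Finset.exists_subset_card_eq hj1
      obtain ⟨J, hJ, hJc⟩ := Finset.exists_subset_card_eq hj2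
      set P' := P.filter fun x => x ∉ S' ∧ g x ∉ S' with hP'
      have hP'c : P.card ≤ P'.card + j := by
        have h1 : P.card = P'.card + (P.filter fun x => ¬ (x ∉ S' ∧ g x ∉ S')).card :=
          (Finset.card_filter_add_card_filter_not _).symm
        have h2 : (P.filter fun x => ¬ (x ∉ S' ∧ g x ∉ S')).card ≤ S'.card := by
          apply Finset.card_le_card_of_injOn (fun x => if x ∈ S' then x else g x)
          · intro x hx
            have hx' := (Finset.mem_filter.mp hx).2
            by_cases h : x ∈ S'
            · simp only [h, if_true, Finset.mem_coe]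
            · simp only [h, if_false, Finset.mem_coe]
              by_contra h'
              exact hx' ⟨h, h'⟩
          · intro a ha b hb hab
            have haP := (Finset.mem_filter.mp ha).1
            have hbP := (Finset.mem_filter.mp hb).1
            simp only at hab
            by_cases h1 : a ∈ S' <;> by_cases h2 : b ∈ S' <;>
              simp only [h1, h2, if_true, if_false] at hab
            · exact hab
            · exact absurd (hab ▸ haP) (hm.nm b hbP)
            · exact absurd (hab ▸ hbP) (hm.nm a haP)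
            · exact hm.inj haP hbP hab
        omega
      have hmP' : IsMatch G P' g := by
        have hsub : P' ⊆ P := Finset.filter_subset _ _
        exact ⟨hm.inj.mono (by exact_mod_cast hsub), fun x hx h => hm.nm x (hsub hx) (hsub h),
          fun x hx => hm.adj x (hsub hx)⟩
      have h := gain_biclique_match G (S := S') (J := J)
        (Finset.disjoint_of_subset_left hS' (Finset.disjoint_of_subset_right hJ hSIS))
        (by rw [hSc, hJc]) (fun u hu v hv => hSadj u (hS' hu) v (hJ hv))
        (fun u hu v hv => hind u (hISO (hJ hu)) v (hISO (hJ hv))) hmP'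
        (fun x hx => by
          obtain ⟨h1, h2, h3⟩ := Finset.mem_filter.mp hx
          exact ⟨h2, fun h => hISW x (hJ h) (Finset.mem_union_left _ h1)⟩)
        (fun x hx => by
          obtain ⟨h1, h2, h3⟩ := Finset.mem_filter.mp hx
          exact ⟨h3, fun h => hISW _ (hJ h)
            (Finset.mem_union_right _ (Finset.mem_image_of_mem g h1))⟩)
      refine h.mono G ?_
      rw [hJc]
      have : (P.card : ℤ) ≤ P'.card + j := by exact_mod_cast hP'c
      linarith
    rcases Nat.lt_or_ge IS.card S.card with hlt | hge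
    · -- `L < s`
      left
      have g2 := gain2 IS.card hlt.le le_rfl
      have hn : (Fintype.card V : ℤ) = 2 * P.card + (IS.card + D) := by
        rw [← hcard, hD]; push_cast; ring
      rcases Nat.lt_or_ge IS.card 3 with h3 | h3
      · have hL1 : 1 ≤ IS.card := by omega
        have : IS.card = 1 ∨ IS.card = 2 := by omega
        rcases this with h | h
        · refine g2.mono G ?_
          rw [hn, h]
          have : D = 0 := by omega
          rw [this]
          norm_num
        · refine g2.mono G ?_
          rw [hn, h]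
          have : (D : ℤ) ≤ 1 := by
            have : D ≤ 1 := by omega
            exact_mod_cast this
          push_cast
          linarith
      · refine g2.mono G ?_
        rw [hn]
        have h4 : (3:ℤ) ≤ IS.card := by exact_mod_cast h3
        have h5 : (D:ℤ) + 1 ≤ IS.card := by exact_mod_cast hDL
        nlinarith
    · right
      set I := IS.filter fun v => trip G P g v = ∅ with hI
      have hIIS : I ⊆ IS := Finset.filter_subset _ _
      refine ⟨S, IS, I, P.card, D, ?_, hDL, hge, ?_, hIIS, ?_, ?_, ?_, ?_, ?_, gain1,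
        gain2 S.card le_rfl hge⟩
      · omega
      · rw [← hlabS v₀ hv₀]
        exact lab_card_le G hm v₀
      · exact Finset.disjoint_of_subset_right hIIS hSIS
      · intro v hv u
        obtain ⟨hvIS, hvT⟩ := Finset.mem_filter.mp hv
        constructor
        · intro huv
          have huW : u ∈ P ∪ P.image g := by
            by_contra hu
            exact hind u (Finset.mem_compl.mpr hu) v (hISO hvIS) huv
          have hT : ∀ x ∈ P, ¬ (G.Adj x v ∧ G.Adj (g x) v) := by
            intro x hx h
            have : x ∈ trip G P g v := Finset.mem_filter.mpr ⟨hx, h⟩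
            rw [hvT] at this
            exact absurd this (Finset.notMem_empty _)
          rw [← hlabS v hvIS, mem_lab]
          rcases Finset.mem_union.mp huW with h | h
          · left
            exact ⟨h, huv, fun h' => hT u h ⟨huv, h'⟩⟩
          · right
            obtain ⟨x, hx, rfl⟩ := Finset.mem_image.mp h
            exact ⟨x, hx, huv, fun h' => hT x hx ⟨h', huv⟩, rfl⟩
        · intro hu
          exact hSadj u hu v hvIS
      · have h1 : IS.card = I.card + (IS.filter fun v => ¬ trip G P g v = ∅).card :=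
          (Finset.card_filter_add_card_filter_not _).symm
        have h2 : (IS.filter fun v => ¬ trip G P g v = ∅).card ≤ P.card := by
          refine le_trans ?_ (sum_trip_le G hm hmax
            ((Finset.filter_subset (fun v => ¬ trip G P g v = ∅) IS).trans hISO))
          rw [Finset.card_eq_sum_ones]
          refine Finset.sum_le_sum fun v hv => ?_
          have h3 := (Finset.mem_filter.mp hv).2
          exact Finset.card_pos.mpr (Finset.nonempty_iff_ne_empty.mpr h3)
        omega
      · intro δ hδ
        have h1 : ∀ v ∈ IS, (δ : ℤ) ≤ S.card + 2 * (trip G P g v).card := by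
          intro v hv
          have h2 := row_free G hm hind (hISO hv)
          have h3 := adjW_row G v
          have h4 : ∑ u, adjW G u v = ∑ u, adjW G v u :=
            Finset.sum_congr rfl fun u _ => adjW_symm G u v
          rw [h4, h3, hlabS v hv] at h2
          have h5 : (δ : ℤ) ≤ ((G.neighborSet v).ncard : ℤ) := by exact_mod_cast hδ v
          linarith
        have h2 : ∑ v ∈ IS, (δ : ℤ) ≤ ∑ v ∈ IS, ((S.card : ℤ) + 2 * (trip G P g v).card) :=
          Finset.sum_le_sum h1
        have h3 := sum_trip_le G hm hmax hISO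
        have h3' : ∑ v ∈ IS, ((trip G P g v).card : ℤ) ≤ P.card := by exact_mod_cast h3
        rw [Finset.sum_add_distrib, ← Finset.mul_sum, Finset.sum_const, Finset.sum_const,
          nsmul_eq_mul, nsmul_eq_mul] at h2
        have h4 : ((δ * IS.card : ℕ) : ℤ) ≤ ((S.card * IS.card + 2 * P.card : ℕ) : ℤ) := by
          push_cast
          linarith
        exact_mod_cast h4
      · intro hIe
        have hTne : ∀ v ∈ IS, (trip G P g v).Nonempty := by
          intro v hv
          rw [Finset.nonempty_iff_ne_empty]
          intro h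
          have : v ∈ I := Finset.mem_filter.mpr ⟨hv, h⟩
          rw [hIe] at this
          exact absurd this (Finset.notMem_empty _)
        have h0 := ww_le' G hm hmax hISO (by omega) hTne
        have h1 := two_edges_match G hind
        have h2 : ∑ v ∈ O, ∑ u, adjW G u v ≤ (S.card : ℤ) * IS.card + P.card * D + 2 * P.card := by
          have e1 : ∑ v ∈ O, ∑ u, adjW G u v =
              ∑ v ∈ O, ((lab G P g v).card + 2 * (trip G P g v).card : ℤ) :=
            Finset.sum_congr rfl fun v hv => row_free G hm hind hv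
          rw [e1, Finset.sum_add_distrib, ← Finset.mul_sum]
          have h3 := sum_trip_le G hm hmax (O' := O) (by rw [hO])
          have h3' : ∑ v ∈ O, ((trip G P g v).card : ℤ) ≤ P.card := by exact_mod_cast h3
          have h4 : ∑ v ∈ O, ((lab G P g v).card : ℤ) ≤ S.card * IS.card + P.card * D := by
            rw [← Finset.sum_sdiff hISO]
            have h5 : ∑ v ∈ IS, ((lab G P g v).card : ℤ) = S.card * IS.card := by
              rw [Finset.sum_congr rfl (g := fun _ => (S.card : ℤ))]
              · rw [Finset.sum_const, nsmul_eq_mul]; ring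
              · intro v hv
                rw [hlabS v hv]
            have h6 : ∑ v ∈ O \ IS, ((lab G P g v).card : ℤ) ≤ P.card * D := by
              have h7 : ∑ v ∈ O \ IS, ((lab G P g v).card : ℤ) ≤ ∑ v ∈ O \ IS, (P.card : ℤ) :=
                Finset.sum_le_sum fun v _ => by exact_mod_cast lab_card_le G hm v
              refine h7.trans (le_of_eq ?_)
              have h8 : (O \ IS).card = D := by
                rw [Finset.card_sdiff_of_subset hISO]; omega
              rw [Finset.sum_const, h8, nsmul_eq_mul]; ring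
            linarith
          linarith
        have h3 : (0:ℤ) ≤ P.card := by positivity
        nlinarith

end Pool.Agent.Bisect
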