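import Mathlib
import Pool.Agent.Bisect.Structure

/-!
# The lower bound for all graphs
-/

set_option autoImplicit false
set_option linter.unusedSectionVars false

namespace Pool.Agent.Bisect

open Finset

open Classical

variable {V : Type} [Fintype V] (G : SimpleGraph V)

lemma two_edges_le' : (2 * G.edgeSet.ncard : ℤ) ≤ Fintype.card V * (Fintype.card V - 1) := by
  rw [← adjW_sum]
  have h1 : ∑ u, ∑ v, adjW G u v ≤ ∑ _u : V, ((Fintype.card V : ℤ) - 1) := by
    refine Finset.sum_le_sum fun u _ => ?_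
    rw [← Finset.add_sum_erase univ _ (Finset.mem_univ u), adjW_self, zero_add]
    have : ∑ v ∈ univ.erase u, adjW G u v ≤ ∑ v ∈ univ.erase u, (1:ℤ) :=
      Finset.sum_le_sum fun v _ => adjW_le_one G u v
    refine this.trans (le_of_eq ?_)
    have hpos : 1 ≤ Fintype.card V := Fintype.card_pos_iff.mpr ⟨u⟩
    rw [Finset.sum_const, Finset.card_erase_of_mem (Finset.mem_univ u), nsmul_eq_mul, mul_one,
      Finset.card_univ]
    push_cast [hpos]
    ring
  refine h1.trans (le_of_eq ?_)
  rw [Finset.sum_const, Finset.card_univ, nsmul_eq_mul]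

lemma Gain.bound {q : ℤ} (h : Gain G q) :
    2 * (G.edgeSet.ncard : ℤ) + q ≤ 4 * (maxBisection G : ℤ) := by
  obtain ⟨y, h1, h2, h3⟩ := h
  have := four_maxBisection_ge' G h1 (Or.inl h2)
  linarith

lemma deg_of_class {S I : Finset V} (hI : ∀ v ∈ I, ∀ u, G.Adj u v ↔ u ∈ S) {v : V} (hv : v ∈ I) :
    (G.neighborSet v).ncard = S.card := by
  have h2 : G.neighborSet v = (S : Set V) := by
    ext u
    rw [SimpleGraph.mem_neighborSet, G.adj_comm]
    exact hI v hv u
  rw [h2, Set.ncard_coe_finset]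

/-- Every graph has a large gain. -/
theorem gain_all {δ : ℕ} (hdeg : ∀ v, δ ≤ (G.neighborSet v).ncard) :
    (∃ q : ℤ, Gain G q ∧ 0 ≤ q ∧ (2 * G.edgeSet.ncard : ℤ) ≤ q * (q + 1)) ∨
      Gain G (δ * (δ + 1)) := by
  rcases structure_thm G with h | ⟨S, IS, I, ν, D, h1, h2, h3, h4, h5, h6, h7, h8, h9, h10, h11, h12⟩
  · left
    rcases Nat.eq_zero_or_pos (Fintype.card V) with h0 | h0
    · refine ⟨0, ⟨0, fun _ => Or.inl rfl, by simp, by simp [qf, bil]⟩, le_rfl, ?_⟩
      have := two_edges_le' G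
      rw [h0] at this
      simpa using this
    · refine ⟨(Fintype.card V : ℤ) - 1, h, ?_, ?_⟩
      · have : (1:ℤ) ≤ Fintype.card V := by exact_mod_cast h0
        linarith
      · have := two_edges_le' G
        rw [sub_add_cancel]
        linarith
  · rcases I.eq_empty_or_nonempty with hI | ⟨v, hv⟩
    · left
      have h10' := h10 hI
      rw [hI, Finset.card_empty, zero_add] at h8
      have hν : (0:ℤ) ≤ ν := by positivity
      have hL : (IS.card : ℤ) ≤ ν := by exact_mod_cast h8
      have hL0 : (0:ℤ) ≤ IS.card := by positivity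
      have hD0 : (0:ℤ) ≤ D := by positivity
      have hs0 : (0:ℤ) ≤ S.card := by positivity
      have hss : (0:ℤ) ≤ (S.card : ℤ) * (S.card - 1) := by
        rcases Nat.eq_zero_or_pos S.card with h | h
        · rw [h]; norm_num
        · have : (1:ℤ) ≤ S.card := by exact_mod_cast h
          nlinarith
      have key : ∀ E : ℤ, 2 * (D:ℤ) ≤ E → (S.card : ℤ) * (S.card - 1) ≤ E →
          (2 * G.edgeSet.ncard : ℤ) ≤ (2 * ν + E) * (2 * ν + E + 1) := by
        intro E hE1 hE2
        have hE0 : 0 ≤ E := by linarith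
        have e1 : 2 * (ν:ℤ) * D ≤ ν * E := by nlinarith
        have e2 : 2 * ((S.card : ℤ) - 1) * IS.card ≤ 3 * ν * E := by
          have h16 : 0 ≤ (ν:ℤ) * E := mul_nonneg hν hE0
          rcases Nat.lt_or_ge S.card 2 with h | h
          · have : (S.card : ℤ) ≤ 1 := by
              have : S.card ≤ 1 := by omega
              exact_mod_cast this
            have : ((S.card : ℤ) - 1) * IS.card ≤ 0 :=
              mul_nonpos_of_nonpos_of_nonneg (by linarith) hL0
            linarith
          · have h13 : (2:ℤ) ≤ S.card := by exact_mod_cast h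
            have h14 : (S.card : ℤ) - 1 ≤ E := by nlinarith
            have h15 : ((S.card : ℤ) - 1) * IS.card ≤ E * ν := mul_le_mul h14 hL hL0 hE0
            linarith
        have e3 : 0 ≤ E * E := mul_nonneg hE0 hE0
        nlinarith
      rcases le_total (2 * (D:ℤ)) ((S.card : ℤ) * (S.card - 1)) with h | h
      · exact ⟨_, h12, by linarith, key _ h le_rfl⟩
      · refine ⟨_, h11, by linarith, ?_⟩
        exact (key (2 * (D:ℤ)) le_rfl h).trans (le_of_eq (by ring))
    · right
      have hs : δ ≤ S.card := by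
        rw [← deg_of_class G h7 hv]
        exact hdeg v
      refine h12.mono G ?_
      have h13 : (δ:ℤ) ≤ S.card := by exact_mod_cast hs
      have h14 : (S.card : ℤ) ≤ ν := by exact_mod_cast h4
      have h15 : (0:ℤ) ≤ δ := by positivity
      nlinarith

/-- The Edwards term. -/
noncomputable def edw (m : ℕ) : ℝ := Real.sqrt (m / 8 + 1 / 64) - 1 / 8

lemma edw_le {m : ℕ} {q : ℤ} (h0 : 0 ≤ q) (h : (2 * m : ℤ) ≤ q * (q + 1)) : edw m ≤ (q:ℝ) / 4 := by
  unfold edw
  have h5 : Real.sqrt (m / 8 + 1 / 64) ≤ (q:ℝ) / 4 + 1 / 8 := by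
    apply Real.sqrt_le_iff.mpr
    have h2' : (0:ℝ) ≤ (q:ℝ) := by exact_mod_cast h0
    have h3' : (2:ℝ) * m ≤ q * (q + 1) := by exact_mod_cast h
    constructor
    · linarith
    · nlinarith
  linarith

/-- The lower bound in real form. -/
theorem bisection_lower {δ : ℕ} (hdeg : ∀ v, δ ≤ (G.neighborSet v).ncard) :
    (G.edgeSet.ncard : ℝ) / 2 + min (edw G.edgeSet.ncard) ((δ : ℝ) * (δ + 1) / 4) ≤
      maxBisection G := by
  rcases gain_all G hdeg with ⟨q, h1, h2, h3⟩ | h1
  · have h4 := Gain.bound G h1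
    have h5 := edw_le h2 h3
    have h6 : (2:ℝ) * G.edgeSet.ncard + q ≤ 4 * maxBisection G := by exact_mod_cast h4
    have h7 := min_le_left (edw G.edgeSet.ncard) ((δ : ℝ) * (δ + 1) / 4)
    linarith
  · have h4 := Gain.bound G h1
    have h6 : (2:ℝ) * G.edgeSet.ncard + (δ * (δ + 1)) ≤ 4 * maxBisection G := by exact_mod_cast h4
    have h7 := min_le_right (edw G.edgeSet.ncard) ((δ : ℝ) * (δ + 1) / 4)
    linarith

end Pool.Agent.Bisect
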