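import Mathlib
import Pool.Agent.Bisect.Single
import Pool.Agent.Bisect.LowerAll
import Pool.Agent.Bisect.CutMin

/-!
# The structure of graphs with small maximum bisection
-/

set_option autoImplicit false
set_option linter.unusedSectionVars false

namespace Pool.Agent.Bisect

open Finset

open Classical

variable {V : Type} [Fintype V] (G : SimpleGraph V)

/-- More than half of the vertices have the same neighbourhood `S`, of size `δ`. -/
def IsClass (δ : ℕ) (S I : Finset V) : Prop :=
  Disjoint S I ∧ S.card = δ ∧ (∀ v ∈ I, ∀ u, G.Adj u v ↔ u ∈ S) ∧ Fintype.card V < 2 * I.card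

lemma min_cut_bound {δ h c : ℕ}
    (hub : (2 * c : ℤ) ≤ h + 2 ∨ (2 * c - h - 2 : ℤ) * (2 * c - h - 2) ≤ h) (hh : h < 2 * δ) :
    2 * min δ c ≤ h + δ + 2 := by
  have hg2 : min δ c ≤ c := min_le_right _ _
  rcases hub with h4 | h4
  · have : 2 * c ≤ h + 2 := by exact_mod_cast h4
    omega
  · have h5 : (2 * c - h - 2 : ℤ) ≤ δ := by
      by_contra hcon
      push Not at hcon
      have h6 : (h:ℤ) + 1 ≤ 2 * δ := by exact_mod_cast hh
      have h7 : (0:ℤ) ≤ δ := by positivity
      have h8 : ((δ:ℤ) + 1) * (δ + 1) ≤ (2 * c - h - 2 : ℤ) * (2 * c - h - 2) :=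
        mul_le_mul (by linarith) (by linarith) (by linarith) (by linarith)
      nlinarith
    have h6 : 2 * ((min δ c : ℕ) : ℤ) ≤ h + δ + 2 := by
      have : ((min δ c : ℕ) : ℤ) ≤ c := by exact_mod_cast hg2
      linarith
    exact_mod_cast h6

lemma aux_small {δ s j ν L : ℤ} (hj : δ = s + j) (hj1 : 1 ≤ j) (hδ : 1 ≤ δ)
    (h1 : δ * L ≤ s * L + 2 * ν) (h2 : 2 * ν + s * (s - 1) < δ * (δ + 5)) : L ≤ 8 * δ := by
  have e1 : j * L ≤ 2 * ν := by
    have : j = δ - s := by linarith
    rw [this]; linarith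
  have e2 : 2 * ν ≤ j * (8 * δ) := by
    have : s = δ - j := by linarith
    rw [this] at h2
    nlinarith
  exact le_of_mul_le_mul_left (e1.trans e2) (by linarith)

lemma aux_nu {δ s ν : ℤ} (hδ : 1 ≤ δ) (hs : δ ≤ s)
    (h2 : 2 * ν + s * (s - 1) < δ * (δ + 5)) : ν ≤ 3 * δ := by
  have : δ * (δ - 1) ≤ s * (s - 1) := mul_le_mul hs (by linarith) (by linarith) (by linarith)
  linarith

lemma aux_prod {δ s ν : ℤ} (hδ : 0 ≤ δ) (hs : δ + 1 ≤ s) (hν : s ≤ ν) :
    (δ + 1) * (δ + 2) ≤ 2 * ν + s * (s - 1) := by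
  have : (δ + 1) * (δ + 2) ≤ s * (s + 1) := mul_le_mul hs (by linarith) (by linarith) (by linarith)
  linarith

/-- The dichotomy. -/
theorem dichotomy {δ k h : ℕ} (hδ : 1 ≤ δ) (hdeg : ∀ v, δ ≤ (G.neighborSet v).ncard)
    (hn : δ * (δ + 17) + 1 ≤ Fintype.card V)
    (hm : 2 * G.edgeSet.ncard + δ * (δ + 1) = 4 * δ * k + 2 * h) (hh : h < 2 * δ) :
    δ * k + min δ (cutMin h) ≤ maxBisection G ∨
    (δ * k + min δ (weightedCutMin h) ≤ maxBisection G ∧
      ∃ S I : Finset V, IsClass G δ S I) := by
  have hmz : (2:ℤ) * G.edgeSet.ncard + δ * (δ + 1) = 4 * δ * k + 2 * h := by exact_mod_cast hm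
  have hδ0 : (0:ℤ) ≤ δ := by positivity
  have hδ1 : (1:ℤ) ≤ δ := by exact_mod_cast hδ
  -- a large gain suffices
  have hgain : Gain G (δ * (δ + 5)) → δ * k + min δ (cutMin h) ≤ maxBisection G := by
    intro hg
    have h1 := Gain.bound G hg
    have h2 : min δ (cutMin h) ≤ δ := min_le_left _ _
    have h4 : 4 * ((δ * k + δ : ℕ) : ℤ) ≤ 4 * (maxBisection G : ℤ) := by
      rw [Nat.cast_add, Nat.cast_mul]
      have : (0:ℤ) ≤ h := by positivity
      linarith
    have h5 : ((δ * k + δ : ℕ) : ℤ) ≤ (maxBisection G : ℤ) := by linarith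
    have h6 : δ * k + δ ≤ maxBisection G := by exact_mod_cast h5
    omega
  rcases structure_thm G with hq | ⟨S, IS, I, ν, D, h1, h2, h3, h4, h5, h6, hInb, h8, h9, h10, h11, h12⟩
  · left
    apply hgain
    refine hq.mono G ?_
    have : (δ:ℤ) * (δ + 17) + 1 ≤ Fintype.card V := by exact_mod_cast hn
    linarith
  · by_cases hc1 : (δ:ℤ) * (δ + 5) ≤ 2 * (ν + D)
    · exact Or.inl (hgain (h11.mono G hc1))
    by_cases hc2 : (δ:ℤ) * (δ + 5) ≤ 2 * ν + (S.card : ℤ) * (S.card - 1)
    · exact Or.inl (hgain (h12.mono G hc2))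
    push Not at hc1 hc2
    have hnz : (δ:ℤ) * (δ + 17) + 1 ≤ 2 * ν + IS.card + D := by
      have : (δ * (δ + 17) + 1 : ℕ) ≤ 2 * ν + IS.card + D := by rw [← h1]; exact hn
      exact_mod_cast this
    have hν0 : (0:ℤ) ≤ ν := by positivity
    have hD0 : (0:ℤ) ≤ D := by positivity
    have hL0 : (0:ℤ) ≤ IS.card := by positivity
    have hs0 : (0:ℤ) ≤ S.card := by positivity
    have hsν : (S.card : ℤ) ≤ ν := by exact_mod_cast h4
    -- I is nonempty
    have hIne : I.Nonempty := by
      rw [Finset.nonempty_iff_ne_empty]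
      intro hIe
      rw [hIe, Finset.card_empty, zero_add] at h8
      have hLν : (IS.card : ℤ) ≤ ν := by exact_mod_cast h8
      have hL8 : (IS.card : ℤ) ≤ 8 * δ := by
        rcases Nat.lt_or_ge S.card δ with hlt | hge
        · have h13 := h9 δ hdeg
          have h13' : (δ:ℤ) * IS.card ≤ S.card * IS.card + 2 * ν := by exact_mod_cast h13
          obtain ⟨j, hj⟩ : ∃ j, δ = S.card + j := ⟨δ - S.card, by omega⟩
          have hj1 : 1 ≤ j := by omega
          exact aux_small (j := (j:ℤ)) (by exact_mod_cast hj) (by exact_mod_cast hj1) hδ1 h13' hc2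
        · have := aux_nu hδ1 (by exact_mod_cast hge) hc2
          linarith
      linarith
    obtain ⟨v₀, hv₀⟩ := hIne
    have hSδ : δ ≤ S.card := by
      rw [← deg_of_class G hInb hv₀]
      exact hdeg v₀
    have hSI : Disjoint S I := h6
    have hn' : Fintype.card V = S.card + I.card + ((S ∪ I)ᶜ).card := by
      have h1 : (S ∪ I).card + ((S ∪ I)ᶜ).card = Fintype.card V :=
        Finset.card_add_card_compl (S ∪ I)
      rw [Finset.card_union_of_disjoint hSI] at h1
      omega
    rcases Nat.eq_or_lt_of_le hSδ with heq | hlt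
    · -- |S| = δ
      have hbig : Fintype.card V < 2 * I.card := by
        have hsd : (S.card : ℤ) = δ := by exact_mod_cast heq.symm
        rw [hsd] at hc2
        have e1 : (IS.card : ℤ) ≤ I.card + ν := by exact_mod_cast h8
        have e4 := aux_nu hδ1 le_rfl hc2
        have e2 : (2:ℤ) * ν + IS.card + D < 2 * I.card := by linarith
        have e3 : 2 * ν + IS.card + D < 2 * I.card := by exact_mod_cast e2
        omega
      obtain ⟨p, c, eS, h'', hp, heS, hmm, hc, hb⟩ :=
        single_class G hδ hSI heq.symm hInb (by omega)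
      rcases Nat.lt_or_ge k p with hkp | hpk
      · left
        refine le_trans ?_ hb
        have h1 : δ * (k + 1) ≤ δ * p := Nat.mul_le_mul_left δ hkp
        have h2 : min δ (cutMin h) ≤ δ := min_le_left _ _
        have h3 : δ * (k + 1) = δ * k + δ := by ring
        omega
      · obtain ⟨j, hj⟩ : ∃ j, k = p + j := ⟨k - p, by omega⟩
        have hn2p : (Fintype.card V : ℤ) ≤ 2 * p := by omega
        have h1 : (2:ℤ) * (2 * δ * j + h) ≤ 2 * h'' := by
          have h2 : (δ:ℤ) * Fintype.card V ≤ δ * (2 * p) := mul_le_mul_of_nonneg_left hn2p hδ0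
          rw [hj] at hmz
          push_cast at hmz
          nlinarith
        have h2 : (0:ℤ) ≤ h'' := by
          have : (0:ℤ) ≤ 2 * (2 * δ * j + h) := by positivity
          linarith
        have h3 := hc h2
        have h4 : 2 * δ * j + h ≤ h''.toNat := by
          have : ((2 * δ * j + h : ℕ) : ℤ) ≤ h'' := by push_cast; linarith
          omega
        have h5 := weightedCutMin_mono h4
        rcases Nat.eq_zero_or_pos j with hj0 | hj0
        · right
          subst hj0
          rw [add_zero] at hj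
          subst hj
          rw [mul_zero, zero_add] at h5
          have h6 : min δ (weightedCutMin h) ≤ weightedCutMin h := min_le_right _ _
          exact ⟨by omega, S, I, hSI, heq.symm, hInb, hbig⟩
        · left
          refine le_trans ?_ hb
          have h6 := super_of (cutMin_ub h) hh hj0
          have h7 : δ * k = δ * p + δ * j := by rw [hj]; ring
          omega
    · -- |S| ≥ δ + 1
      left
      have hs : (δ:ℤ) + 1 ≤ S.card := by exact_mod_cast hlt
      have hg := Gain.bound G (h12.mono G (aux_prod hδ0 hs hsν))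
      have h3 := min_cut_bound (cutMin_ub h) hh
      by_contra hcon
      push Not at hcon
      have h4 : (maxBisection G : ℤ) + 1 ≤ δ * k + (min δ (cutMin h) : ℕ) := by
        exact_mod_cast hcon
      have h5 : 2 * ((min δ (cutMin h) : ℕ) : ℤ) ≤ h + δ + 2 := by exact_mod_cast h3
      linarith

end Pool.Agent.Bisect
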