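import Mathlib
import Pool.Agent.Bisect.Dichotomy

/-!
# Adding and removing twins
-/

set_option autoImplicit false
set_option linter.unusedSectionVars false

namespace Pool.Agent.Bisect

open Finset

open Classical

/-! ### Invariance under isomorphism -/

section iso

variable {V V' : Type} [Fintype V] [Fintype V'] {G : SimpleGraph V} {G' : SimpleGraph V'}
  (e : V ≃ V') (he : ∀ u v, G.Adj u v ↔ G'.Adj (e u) (e v))

include he

lemma iso_adjW (u v : V) : adjW G u v = adjW G' (e u) (e v) := by
  by_cases h : G.Adj u v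
  · rw [adjW_of_adj G h, adjW_of_adj G' ((he u v).mp h)]
  · rw [adjW_of_not_adj G h, adjW_of_not_adj G' (fun h' => h ((he u v).mpr h'))]

lemma iso_edges : G.edgeSet.ncard = G'.edgeSet.ncard := by
  have h1 := adjW_sum G
  have h2 := adjW_sum G'
  have h3 : ∑ u, ∑ v, adjW G u v = ∑ u, ∑ v, adjW G' u v := by
    simp_rw [iso_adjW e he]
    rw [Equiv.sum_comp e (fun u => ∑ v, adjW G' u (e v))]
    exact Finset.sum_congr rfl fun u _ => Equiv.sum_comp e (fun v => adjW G' u v)
  rw [h1, h2] at h3
  omega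

lemma iso_deg (u : V) : (G.neighborSet u).ncard = (G'.neighborSet (e u)).ncard := by
  have h1 := adjW_row G u
  have h2 := adjW_row G' (e u)
  have h3 : ∑ v, adjW G u v = ∑ v, adjW G' (e u) v := by
    simp_rw [iso_adjW e he]
    exact Equiv.sum_comp e (fun v => adjW G' (e u) v)
  rw [h1, h2] at h3
  exact_mod_cast h3

lemma iso_cutSize (A : Finset V) : cutSize G A = cutSize G' (A.map e.toEmbedding) := by
  have h : (cutSize G A : ℤ) = cutSize G' (A.map e.toEmbedding) := by
    rw [cutSize_eq, cutSize_eq, wcut_eq_sum, wcut_eq_sum]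
    simp_rw [iso_adjW e he]
    rw [← Equiv.sum_comp e]
    refine Finset.sum_congr rfl fun u _ => ?_
    rw [← Equiv.sum_comp e]
    refine Finset.sum_congr rfl fun v _ => ?_
    have m1 : ∀ u, e u ∈ A.map e.toEmbedding ↔ u ∈ A := by
      intro u; simp
    by_cases hu : u ∈ A <;> by_cases hv : v ∈ A <;> simp [hu, hv]
  exact_mod_cast h

omit he in
lemma iso_bisection {A : Finset V} (hA : IsBisection A) : IsBisection (A.map e.toEmbedding) := by
  unfold IsBisection at hA ⊢
  have h1 : (A.map e.toEmbedding).card = A.card := Finset.card_map _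
  have h2 := Finset.card_add_card_compl A
  have h3 := Finset.card_add_card_compl (A.map e.toEmbedding)
  have h4 : Fintype.card V = Fintype.card V' := Fintype.card_congr e
  omega

lemma iso_maxBisection_le : maxBisection G ≤ maxBisection G' := by
  apply maxBisection_le
  intro A hA
  rw [iso_cutSize e he]
  exact le_maxBisection G' (iso_bisection e hA)

lemma iso_maxBisection : maxBisection G = maxBisection G' := by
  apply le_antisymm (iso_maxBisection_le e he)
  apply iso_maxBisection_le e.symm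
  intro u v
  rw [he]
  simp

end iso

/-! ### Blow-ups -/

/-- `K` with `i` further vertices joined exactly to `S`. -/
def blow {Z : Type} (K : SimpleGraph Z) (S : Finset Z) (i : ℕ) : SimpleGraph (Z ⊕ Fin i) where
  Adj := fun p q => match p, q with
    | Sum.inl a, Sum.inl b => K.Adj a b
    | Sum.inl a, Sum.inr _ => a ∈ S
    | Sum.inr _, Sum.inl b => b ∈ S
    | Sum.inr _, Sum.inr _ => False
  symm := ⟨by
    rintro (a | a) (b | b) h
    · exact K.adj_symm h
    · exact h
    · exact h
    · exact h⟩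
  loopless := ⟨by
    rintro (a | a) h
    · exact K.loopless.irrefl _ h
    · exact h⟩

section blow

variable {Z : Type} [Fintype Z] (K : SimpleGraph Z) (S : Finset Z) (i : ℕ)

lemma bw_ll (a b : Z) : adjW (blow K S i) (Sum.inl a) (Sum.inl b) = adjW K a b := by
  by_cases h : K.Adj a b
  · rw [adjW_of_adj K h]; exact adjW_of_adj _ h
  · rw [adjW_of_not_adj K h]; exact adjW_of_not_adj _ h

lemma bw_lr (a : Z) (b : Fin i) : adjW (blow K S i) (Sum.inl a) (Sum.inr b) = ind S a := by
  by_cases h : a ∈ S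
  · rw [ind_mem h]; exact adjW_of_adj _ h
  · rw [ind_not_mem h]; exact adjW_of_not_adj _ h

lemma bw_rl (a : Fin i) (b : Z) : adjW (blow K S i) (Sum.inr a) (Sum.inl b) = ind S b := by
  rw [adjW_symm, bw_lr]

lemma bw_rr (a b : Fin i) : adjW (blow K S i) (Sum.inr a) (Sum.inr b) = 0 :=
  adjW_of_not_adj _ (fun h => h)

lemma blow_edges : (blow K S i).edgeSet.ncard = K.edgeSet.ncard + S.card * i := by
  have h1 := adjW_sum (blow K S i)
  have h2 := adjW_sum K
  simp only [Fintype.sum_sum_type, bw_ll, bw_lr, bw_rl, bw_rr, Finset.sum_add_distrib,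
    Finset.sum_const, Finset.card_univ, Fintype.card_fin, nsmul_eq_mul, mul_zero, add_zero,
    h2, ← Finset.mul_sum, sum_ind] at h1
  have h3 : (2:ℤ) * ((blow K S i).edgeSet.ncard : ℤ) = 2 * (K.edgeSet.ncard + S.card * i : ℕ) := by
    rw [← h1]
    push_cast
    ring
  omega

lemma blow_deg_r (j : Fin i) : ((blow K S i).neighborSet (Sum.inr j)).ncard = S.card := by
  have h1 := adjW_row (blow K S i) (Sum.inr j)
  simp only [Fintype.sum_sum_type, bw_rl, bw_rr, Finset.sum_const_zero, add_zero, sum_ind] at h1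
  exact_mod_cast h1.symm

lemma blow_deg_l (a : Z) : ((blow K S i).neighborSet (Sum.inl a)).ncard =
    (K.neighborSet a).ncard + (if a ∈ S then i else 0) := by
  have h1 := adjW_row (blow K S i) (Sum.inl a)
  have h2 := adjW_row K a
  simp only [Fintype.sum_sum_type, bw_ll, bw_lr, Finset.sum_const, Finset.card_univ,
    Fintype.card_fin, nsmul_eq_mul, h2] at h1
  by_cases h : a ∈ S
  · rw [ind_mem h] at h1
    rw [if_pos h]
    have : (((K.neighborSet a).ncard + i : ℕ) : ℤ) = ((blow K S i).neighborSet (Sum.inl a)).ncard := by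
      rw [← h1]; push_cast; ring
    exact_mod_cast this.symm
  · rw [ind_not_mem h] at h1
    rw [if_neg h]
    have : (((K.neighborSet a).ncard + 0 : ℕ) : ℤ) = ((blow K S i).neighborSet (Sum.inl a)).ncard := by
      rw [← h1]; push_cast; ring
    exact_mod_cast this.symm

/-- left part -/
noncomputable def lf {Z Y : Type} [Fintype Z] (A : Finset (Z ⊕ Y)) : Finset Z :=
  univ.filter fun a => Sum.inl a ∈ A
/-- right part -/
noncomputable def rt {Z Y : Type} [Fintype Y] (A : Finset (Z ⊕ Y)) : Finset Y :=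
  univ.filter fun a => Sum.inr a ∈ A

lemma card_lf_rt {Y : Type} [Fintype Y] (A : Finset (Z ⊕ Y)) : A.card = (lf A).card + (rt A).card := by
  have h2 : (A.card : ℤ) = ∑ x, (if x ∈ A then (1:ℤ) else 0) := by simp
  have h3 : ((lf A).card : ℤ) = ∑ x : Z, (if Sum.inl x ∈ A then (1:ℤ) else 0) := by simp [lf]
  have h4 : ((rt A).card : ℤ) = ∑ x : Y, (if Sum.inr x ∈ A then (1:ℤ) else 0) := by simp [rt]
  rw [Fintype.sum_sum_type] at h2
  have h5 : (A.card : ℤ) = ((lf A).card + (rt A).card : ℕ) := by
    rw [Nat.cast_add, h3, h4]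
    convert h2
  exact_mod_cast h5

lemma blow_cut (A : Finset (Z ⊕ Fin i)) : (cutSize (blow K S i) A : ℤ) =
    cutSize K (lf A) + (rt A).card * ((S.card : ℤ) - (S ∩ lf A).card)
      + ((i:ℤ) - (rt A).card) * (S ∩ lf A).card := by
  rw [cutSize_eq, cutSize_eq, wcut_eq_sum, wcut_eq_sum]
  let α : Z → ℤ := ind (lf A)
  let β : Fin i → ℤ := ind (rt A)
  have f1 : ∀ (s : Z) (dd : Decidable ((Sum.inl s : Z ⊕ Fin i) ∈ A)),
      @ite ℤ ((Sum.inl s : Z ⊕ Fin i) ∈ A) dd 1 0 = α s := fun s dd => by
    by_cases h : (Sum.inl s : Z ⊕ Fin i) ∈ A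
    · have : s ∈ lf A := by simp [lf, h]
      simp only [α, ind_mem this]
      simp [h]
    · have : s ∉ lf A := by simp [lf, h]
      simp only [α, ind_not_mem this]
      simp [h]
  have f2 : ∀ (s : Fin i) (dd : Decidable ((Sum.inr s : Z ⊕ Fin i) ∈ A)),
      @ite ℤ ((Sum.inr s : Z ⊕ Fin i) ∈ A) dd 1 0 = β s := fun s dd => by
    by_cases h : (Sum.inr s : Z ⊕ Fin i) ∈ A
    · have : s ∈ rt A := by simp [rt, h]
      simp only [β, ind_mem this]
      simp [h]
    · have : s ∉ rt A := by simp [rt, h]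
      simp only [β, ind_not_mem this]
      simp [h]
  have f3 : ∀ (s : Z) (dd : Decidable (s ∈ lf A)), @ite ℤ (s ∈ lf A) dd 1 0 = α s := fun s dd => by
    by_cases h : s ∈ lf A
    · simp only [α, ind_mem h]; simp [h]
    · simp only [α, ind_not_mem h]; simp [h]
  simp only [Fintype.sum_sum_type, bw_ll, bw_lr, bw_rl, bw_rr, f1, f2, f3, zero_mul,
    Finset.sum_const_zero, add_zero, Finset.sum_add_distrib]
  have hβ : ∑ j, β j = (rt A).card := sum_ind _
  have hSα : ∑ s, ind S s * α s = (S ∩ lf A).card := by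
    rw [← sum_ind (S ∩ lf A)]
    refine Finset.sum_congr rfl fun s _ => ?_
    by_cases h1 : s ∈ S
    · by_cases h2 : s ∈ lf A
      · simp only [α, ind_mem h1, ind_mem h2, ind_mem (Finset.mem_inter.mpr ⟨h1, h2⟩)]; ring
      · have h3 : s ∉ S ∩ lf A := fun h => h2 (Finset.mem_inter.mp h).2
        simp only [α, ind_mem h1, ind_not_mem h2, ind_not_mem h3]; ring
    · have h3 : s ∉ S ∩ lf A := fun h => h1 (Finset.mem_inter.mp h).1
      simp only [ind_not_mem h1, ind_not_mem h3]; ring
  have e1 : ∑ s, ∑ j, ind S s * (α s * (1 - β j)) = (S ∩ lf A).card * ((i:ℤ) - (rt A).card) := by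
    rw [← hSα, Finset.sum_mul]
    refine Finset.sum_congr rfl fun s _ => ?_
    have : ∀ j, ind S s * (α s * (1 - β j)) = ind S s * α s * (1 - β j) := fun j => by ring
    simp_rw [this]
    rw [← Finset.mul_sum, Finset.sum_sub_distrib, hβ]
    simp
  have e2 : ∑ j, ∑ s, ind S s * (β j * (1 - α s))
      = (rt A).card * ((S.card : ℤ) - (S ∩ lf A).card) := by
    rw [← hβ, Finset.sum_mul]
    refine Finset.sum_congr rfl fun j _ => ?_
    have : ∀ s, ind S s * (β j * (1 - α s)) = β j * (ind S s - ind S s * α s) := fun s => by ring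
    simp_rw [this]
    rw [← Finset.mul_sum, Finset.sum_sub_distrib, hSα, sum_ind]
  rw [e1, e2]
  ring

end blow

/-- existence of bisections with a prescribed left part -/
lemma exists_set {Z : Type} [Fintype Z] {i : ℕ} (B : Finset Z) {a : ℕ} (ha : a ≤ i) :
    ∃ A : Finset (Z ⊕ Fin i), lf A = B ∧ (rt A).card = a := by
  obtain ⟨C, _, hC⟩ := Finset.exists_subset_card_eq (s := (univ : Finset (Fin i))) (n := a)
    (by simpa using ha)
  refine ⟨univ.filter fun x => match x with
    | Sum.inl z => z ∈ B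
    | Sum.inr j => j ∈ C, ?_, ?_⟩
  · ext z
    simp [lf]
  · rw [← hC]
    congr 1
    ext z
    simp [rt]

lemma maxBisection_mem {V : Type} [Fintype V] (G : SimpleGraph V) :
    ∃ A : Finset V, IsBisection A ∧ cutSize G A = maxBisection G := by
  have hne : {k | ∃ A : Finset V, IsBisection A ∧ cutSize G A = k}.Nonempty := by
    obtain ⟨A, _, hA⟩ := Finset.exists_subset_card_eq (s := (univ : Finset V))
      (n := Fintype.card V / 2) (by
        rw [Finset.card_univ]
        exact Nat.div_le_self _ _)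
    refine ⟨_, A, ?_, rfl⟩
    have := Finset.card_add_card_compl A
    unfold IsBisection
    omega
  exact Nat.sSup_mem hne ⟨_, by
    rintro k ⟨B, _, rfl⟩
    exact cutSize_le G B⟩

lemma isBisection_iff {V : Type} [Fintype V] (A : Finset V) : IsBisection A ↔
    2 * A.card ≤ Fintype.card V ∧ Fintype.card V ≤ 2 * A.card + 1 := by
  have h1 := Finset.card_add_card_compl A
  unfold IsBisection
  omega

section blow2

variable {Z : Type} [Fintype Z] (K : SimpleGraph Z) (S : Finset Z) (i : ℕ)

lemma bis_iff {i : ℕ} (A : Finset (Z ⊕ Fin i)) : IsBisection A ↔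
    2 * ((lf A).card + (rt A).card) ≤ Fintype.card Z + i ∧
      Fintype.card Z + i ≤ 2 * ((lf A).card + (rt A).card) + 1 := by
  rw [isBisection_iff, Fintype.card_sum, Fintype.card_fin, card_lf_rt A]

lemma rt_card_le {i : ℕ} (A : Finset (Z ⊕ Fin i)) : (rt A).card ≤ i := by
  have := Finset.card_le_univ (rt A)
  simpa using this

lemma lf_card_le {i : ℕ} (A : Finset (Z ⊕ Fin i)) : (lf A).card ≤ Fintype.card Z :=
  Finset.card_le_univ (lf A)

lemma blow_step_ge : maxBisection (blow K S i) + S.card ≤ maxBisection (blow K S (i + 2)) := by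
  obtain ⟨A, hA, hc⟩ := maxBisection_mem (blow K S i)
  have ha := rt_card_le A
  obtain ⟨B, hB1, hB2⟩ := exists_set (i := i + 2) (lf A) (a := (rt A).card + 1) (by omega)
  have hB : IsBisection B := by
    rw [bis_iff, hB1, hB2]
    rw [bis_iff] at hA
    omega
  have h1 := le_maxBisection (blow K S (i + 2)) hB
  have h2 := blow_cut K S i A
  have h3 := blow_cut K S (i + 2) B
  rw [hB1, hB2] at h3
  have h4 : (cutSize (blow K S (i + 2)) B : ℤ) = cutSize (blow K S i) A + S.card := by
    rw [h2, h3]; push_cast; ring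
  have h5 : cutSize (blow K S (i + 2)) B = cutSize (blow K S i) A + S.card := by exact_mod_cast h4
  omega

lemma blow_step_le (hi : Fintype.card Z < i) :
    maxBisection (blow K S (i + 2)) ≤ maxBisection (blow K S i) + S.card := by
  apply maxBisection_le
  intro A hA
  have ha := rt_card_le A
  have hl := lf_card_le A
  have hA' := (bis_iff A).mp hA
  obtain ⟨B, hB1, hB2⟩ := exists_set (i := i) (lf A) (a := (rt A).card - 1) (by omega)
  have hpos : 1 ≤ (rt A).card := by omega
  have hB : IsBisection B := by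
    rw [bis_iff, hB1, hB2]
    omega
  have h1 := le_maxBisection (blow K S i) hB
  have h2 := blow_cut K S (i + 2) A
  have h3 := blow_cut K S i B
  rw [hB1, hB2] at h3
  have h4 : (cutSize (blow K S (i + 2)) A : ℤ) = cutSize (blow K S i) B + S.card := by
    rw [h2, h3, Nat.cast_sub hpos]; push_cast; ring
  have h5 : cutSize (blow K S (i + 2)) A = cutSize (blow K S i) B + S.card := by exact_mod_cast h4
  omega

end blow2

/-- Graphs with a majority class are blow-ups. -/
lemma class_blow {V : Type} [Fintype V] {G : SimpleGraph V} {δ : ℕ} {S I : Finset V}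
    (h : IsClass G δ S I) : ∃ (Z : Type) (_ : Fintype Z) (K : SimpleGraph Z) (S' : Finset Z)
      (e : Z ⊕ Fin I.card ≃ V), S'.card = δ ∧ Fintype.card Z < I.card ∧
      ∀ x y, (blow K S' I.card).Adj x y ↔ G.Adj (e x) (e y) := by
  obtain ⟨hSI, hSc, hI, hbig⟩ := h
  let Z : Type := {v : V // v ∉ I}
  have hc : Fintype.card {v : V // ¬ v ∉ I} = I.card := by
    rw [Fintype.card_subtype]
    congr 1
    ext v; simp
  let e₂ : {v : V // ¬ v ∉ I} ≃ Fin I.card := Fintype.equivFinOfCardEq hc
  let f : Z ⊕ Fin I.card ≃ V :=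
    (Equiv.sumCongr (Equiv.refl Z) e₂.symm).trans (Equiv.sumCompl (fun v => v ∉ I))
  have hf1 : ∀ z : Z, f (Sum.inl z) = z.1 := fun z => rfl
  have hf2 : ∀ j, f (Sum.inr j) ∈ I := by
    intro j
    have h1 : f (Sum.inr j) = (e₂.symm j).1 := rfl
    rw [h1]
    exact not_not.mp (e₂.symm j).2
  have hSnI : ∀ v ∈ S, v ∉ I := fun v hv hv' => Finset.disjoint_left.mp hSI hv hv'
  refine ⟨Z, inferInstance, G.comap Subtype.val, S.subtype (fun v => v ∉ I), f, ?_, ?_, ?_⟩
  · rw [Finset.card_subtype, Finset.filter_true_of_mem hSnI, hSc]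
  · have h1 : Fintype.card V = Fintype.card Z + I.card := by
      rw [← Fintype.card_congr f, Fintype.card_sum, Fintype.card_fin]
    omega
  · rintro (z | j) (z' | j')
    · rw [hf1, hf1]; exact Iff.rfl
    · rw [hf1, hI _ (hf2 j')]
      change z ∈ S.subtype (fun v => v ∉ I) ↔ _
      rw [Finset.mem_subtype]
    · rw [hf1, G.adj_comm, hI _ (hf2 j)]
      change z' ∈ S.subtype (fun v => v ∉ I) ↔ _
      rw [Finset.mem_subtype]
    · rw [hI _ (hf2 j')]
      change False ↔ _
      rw [false_iff]
      exact fun h => hSnI _ h (hf2 j)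

end Pool.Agent.Bisect
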