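import Mathlib
import Pool.Agent.Bisect.Periodic

/-!
# The main theorem for `2 m ≥ (δ (δ + 17))²`
-/

set_option autoImplicit false
set_option linter.unusedSectionVars false

namespace Pool.Agent.Bisect

open Finset

open Classical

/-- There is a graph with `m` edges and minimum degree at least `δ`. -/
def Admissible (δ m : ℕ) : Prop := ∃ (V : Type) (_ : Fintype V) (G : SimpleGraph V),
  G.edgeSet.ncard = m ∧ ∀ v, δ ≤ (G.neighborSet v).ncard

lemma bisMin_mem {δ m : ℕ} (h : Admissible δ m) : ∃ (V : Type) (_ : Fintype V)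
    (G : SimpleGraph V), G.edgeSet.ncard = m ∧ (∀ v, δ ≤ (G.neighborSet v).ncard) ∧
      maxBisection G = bisMin δ m := by
  have hne' : {k | ∃ (V : Type) (_ : Fintype V) (G : SimpleGraph V),
    G.edgeSet.ncard = m ∧ (∀ v, δ ≤ (G.neighborSet v).ncard) ∧ maxBisection G = k}.Nonempty := by
    obtain ⟨V, i, G, g1, g2⟩ := h
    exact ⟨_, V, i, G, g1, g2, rfl⟩
  exact Nat.sInf_mem hne'

/-- explicit upper bound -/
theorem upper_explicit {δ m k h : ℕ} (hδ : 1 ≤ δ) (hk1 : 5 * δ + 1 ≤ 2 * k)
    (hk : 2 * m + δ * (δ + 1) = 4 * δ * k + 2 * h) (hh : h < 2 * δ) :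
    Admissible δ m ∧ bisMin δ m ≤ δ * k + min δ (cutMin h) := by
  obtain ⟨R, iR, H, hH, hRc, hHc⟩ := cutMin_mem_small h
  have hkz : (2 * m + δ * (δ + 1) : ℤ) = 4 * δ * k + 2 * h := by exact_mod_cast hk
  -- first construction
  obtain ⟨V, iV, G, g1, g2, g3⟩ := big_admissible (δ := δ) hδ H False (fun h => h.elim)
    (p := k) (F := cutMin h) (m := m) (by omega)
    (fun B => by
      have h2 : (cutSize H B : ℤ) ≤ cutMin h := by exact_mod_cast hHc B
      simpa [mm] using h2)
    (by simp only [mm, if_false, mul_zero, zero_mul, sub_zero, hH]; exact hkz)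
  refine ⟨⟨V, iV, G, g1, g2⟩, ?_⟩
  have hb1 := bisMin_le G g1 g2 g3
  -- second construction
  obtain ⟨j, hj⟩ : ∃ j, h + j = 2 * δ := ⟨2 * δ - h, by omega⟩
  obtain ⟨V', iV', G', g1', g2', g3'⟩ := big_admissible (δ := δ) hδ (mat j) True
    (fun _ r => ⟨(r.1, !r.2), rfl, by simp⟩)
    (p := k + 1) (F := 0) (m := m)
    (by
      rw [Fintype.card_prod, Fintype.card_fin, Fintype.card_bool]
      omega)
    (fun B => by
      have h1 := cut_le_card (mat j) (mat_row j) B
      simp only [mm, if_true, one_mul, Nat.cast_zero, zero_add]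
      exact h1)
    (by
      have h1 : (h:ℤ) + j = 2 * δ := by exact_mod_cast hj
      rw [mat_edges, hkz, Fintype.card_prod, Fintype.card_fin, Fintype.card_bool]
      simp only [mm, if_true]
      push_cast
      linarith)
  have hb2 := bisMin_le G' g1' g2' g3'
  have h3 : δ * (k + 1) = δ * k + δ := by ring
  rcases le_total δ (cutMin h) with h4 | h4
  · rw [min_eq_left h4]; omega
  · rw [min_eq_right h4]; omega

lemma large_order {V : Type} [Fintype V] (G : SimpleGraph V) {δ : ℕ} (hδ : 1 ≤ δ)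
    (hm : (δ * (δ + 17)) ^ 2 ≤ 2 * G.edgeSet.ncard) :
      δ * (δ + 17) + 1 ≤ Fintype.card V := by
  by_contra hcon
  push Not at hcon
  have h1 := two_edges_le' G
  have h2 : (Fintype.card V : ℤ) ≤ δ * (δ + 17) := by
    have : Fintype.card V ≤ δ * (δ + 17) := by omega
    exact_mod_cast this
  have h3 : ((δ:ℤ) * (δ + 17)) ^ 2 ≤ 2 * G.edgeSet.ncard := by exact_mod_cast hm
  have h4 : (1:ℤ) ≤ δ := by exact_mod_cast hδ
  have h0 : (0:ℤ) ≤ Fintype.card V := by positivity
  have h5 : (Fintype.card V : ℤ) * (Fintype.card V - 1) ≤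
      (δ * (δ + 17)) * (Fintype.card V - 1) ∨ (Fintype.card V : ℤ) = 0 := by
    rcases Nat.eq_zero_or_pos (Fintype.card V) with h | h
    · right; exact_mod_cast h
    · left
      have : (1:ℤ) ≤ Fintype.card V := by exact_mod_cast h
      exact mul_le_mul_of_nonneg_right h2 (by linarith)
  have h6 : (0:ℤ) < δ * (δ + 17) := by positivity
  rcases h5 with h5 | h5
  · have h7 : ((δ:ℤ) * (δ + 17)) * (Fintype.card V - 1) ≤ (δ * (δ + 17)) * (δ * (δ + 17) - 1) :=
      mul_le_mul_of_nonneg_left (by linarith) h6.le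
    nlinarith
  · rw [h5] at h1
    nlinarith

lemma large_k {δ m k h : ℕ} (hδ : 1 ≤ δ) (hm : (δ * (δ + 17)) ^ 2 ≤ 2 * m)
    (hk : 2 * m + δ * (δ + 1) = 4 * δ * k + 2 * h) (hh : h < 2 * δ) : 5 * δ + 1 ≤ 2 * k := by
  by_contra hcon
  push Not at hcon
  have h1 : 2 * δ * (2 * k) ≤ 2 * δ * (5 * δ) := Nat.mul_le_mul_left _ (by omega)
  have h2 : 4 * δ * k = 2 * δ * (2 * k) := by ring
  have h3 : (δ * 18) ^ 2 ≤ (δ * (δ + 17)) ^ 2 :=
    Nat.pow_le_pow_left (Nat.mul_le_mul_left δ (by omega)) 2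
  have h4 : δ ≤ δ ^ 2 := by nlinarith
  have h5 : 2 * δ * (5 * δ) = 10 * δ ^ 2 := by ring
  have h6 : 0 < δ * (δ + 1) := by positivity
  have h7 : (δ * 18) ^ 2 = 324 * δ ^ 2 := by ring
  omega

/-- dichotomy for an extremal graph. -/
lemma dichotomy' {V : Type} [Fintype V] (G : SimpleGraph V) {δ k h : ℕ} (hδ : 1 ≤ δ)
    (hdeg : ∀ v, δ ≤ (G.neighborSet v).ncard) (hm : (δ * (δ + 17)) ^ 2 ≤ 2 * G.edgeSet.ncard)
    (hk : 2 * G.edgeSet.ncard + δ * (δ + 1) = 4 * δ * k + 2 * h) (hh : h < 2 * δ) :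
    δ * k + min δ (cutMin h) ≤ maxBisection G ∨
    (δ * k + min δ (weightedCutMin h) ≤ maxBisection G ∧
      ∃ S I : Finset V, IsClass G δ S I) :=
  dichotomy G hδ hdeg (large_order G hδ hm) hk hh

lemma blow_admissible {Z : Type} [Fintype Z] {K : SimpleGraph Z} {S : Finset Z} {i i' δ : ℕ}
    (hdeg : ∀ v, δ ≤ ((blow K S i).neighborSet v).ncard) (hS : S.card = δ) (hi : δ ≤ i') :
    ∀ v, δ ≤ ((blow K S i').neighborSet v).ncard := by
  rintro (z | j)
  · have h1 := hdeg (Sum.inl z)
    rw [blow_deg_l] at h1 ⊢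
    by_cases hz : z ∈ S
    · rw [if_pos hz]; omega
    · rw [if_neg hz] at h1 ⊢; exact h1
  · rw [blow_deg_r, hS]

/-- The two-sided bound and the exact periodicity. -/
theorem main {δ m k h : ℕ} (hδ : 1 ≤ δ) (hm : (δ * (δ + 17)) ^ 2 ≤ 2 * m)
    (hk : 2 * m + δ * (δ + 1) = 4 * δ * k + 2 * h) (hh : h < 2 * δ) :
    Admissible δ m ∧ δ * k + min δ (weightedCutMin h) ≤ bisMin δ m ∧
      bisMin δ m ≤ δ * k + min δ (cutMin h) ∧
      bisMin δ (m + 2 * δ) = bisMin δ m + δ := by
  obtain ⟨hadm, hup⟩ := upper_explicit hδ (large_k hδ hm hk hh) hk hh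
  have hk' : 2 * (m + 2 * δ) + δ * (δ + 1) = 4 * δ * (k + 1) + 2 * h := by
    have : 4 * δ * (k + 1) = 4 * δ * k + 4 * δ := by ring
    omega
  have hm' : (δ * (δ + 17)) ^ 2 ≤ 2 * (m + 2 * δ) := by omega
  obtain ⟨hadm', hup'⟩ := upper_explicit hδ (large_k hδ hm' hk' hh) hk' hh
  have hk1 : δ * (k + 1) = δ * k + δ := by ring
  obtain ⟨V, iV, G, g1, g2, g3⟩ := bisMin_mem hadm
  have hd := dichotomy' G hδ g2 (by rw [g1]; exact hm) (by rw [g1]; exact hk) hh
  rw [g3] at hd
  have hwc : min δ (weightedCutMin h) ≤ min δ (cutMin h) :=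
    min_le_min le_rfl (weightedCutMin_le_cutMin h)
  refine ⟨hadm, ?_, hup, ?_⟩
  · rcases hd with h1 | ⟨h1, _⟩
    · omega
    · exact h1
  · apply le_antisymm
    · -- upper
      rcases hd with h1 | ⟨_, S, I, hSI⟩
      · omega
      · obtain ⟨Z, iZ, K, S', e, e1, e2, e3⟩ := class_blow hSI
        have f1 := iso_edges e e3
        have f2 := iso_maxBisection e e3
        have hdeg : ∀ v, δ ≤ ((blow K S' I.card).neighborSet v).ncard := by
          intro v
          rw [iso_deg e e3]
          exact g2 _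
        have hIδ : δ ≤ I.card := by
          have h1 := large_order G hδ (by rw [g1]; exact hm)
          have h2 := hSI.2.2.2
          nlinarith
        have h1 := blow_edges K S' (I.card + 2)
        have h2 := blow_edges K S' I.card
        apply bisMin_le (blow K S' (I.card + 2))
        · rw [h1, e1]
          rw [f1, g1, e1] at h2
          rw [h2]; ring
        · exact blow_admissible hdeg e1 (by omega)
        · refine (blow_step_le K S' I.card e2).trans ?_
          rw [f2, g3, e1]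
    · -- lower
      obtain ⟨V', iV', G', g1', g2', g3'⟩ := bisMin_mem hadm'
      have hd' := dichotomy' G' hδ g2' (by rw [g1']; exact hm') (by rw [g1']; exact hk') hh
      rw [g3'] at hd'
      rcases hd' with h1 | ⟨_, S, I, hSI⟩
      · omega
      · obtain ⟨Z, iZ, K, S', e, e1, e2, e3⟩ := class_blow hSI
        have f1 := iso_edges e e3
        have f2 := iso_maxBisection e e3
        have hdeg : ∀ v, δ ≤ ((blow K S' I.card).neighborSet v).ncard := by
          intro v
          rw [iso_deg e e3]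
          exact g2' _
        have hIδ : δ + 2 ≤ I.card := by
          have h1 := large_order G' hδ (by rw [g1']; exact hm')
          have h2 := hSI.2.2.2
          nlinarith
        obtain ⟨i, hi⟩ : ∃ i, I.card = i + 2 := ⟨I.card - 2, by omega⟩
        rw [hi] at f1 f2 hdeg
        have h1 := blow_edges K S' i
        have h2 := blow_edges K S' (i + 2)
        have h3 := blow_step_ge K S' i
        rw [f2, g3', e1] at h3
        have h4 : bisMin δ m ≤ maxBisection (blow K S' i) := by
          apply bisMin_le (blow K S' i)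
          · rw [f1, g1', e1] at h2
            rw [h1, e1]
            have : δ * (i + 2) = δ * i + 2 * δ := by ring
            omega
          · exact blow_admissible hdeg e1 (by omega)
          · exact le_rfl
        omega

/-! ### Exact values -/

lemma weighted_clique_lower (t : ℕ) : t * t / 4 ≤ weightedCutMin (t * (t - 1) / 2) := by
  rcases Nat.eq_zero_or_pos t with ht | ht
  · subst ht; simp
  · obtain ⟨s, rfl⟩ : ∃ s, t = s + 1 := ⟨t - 1, by omega⟩
    rw [Nat.add_sub_cancel]
    obtain ⟨h1, h2⟩ := weighted_edwards ((s + 1) * s / 2)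
    obtain ⟨q, hq⟩ : 2 ∣ (s + 1) * s := by
      rw [mul_comm]; exact (Nat.even_mul_succ_self s).two_dvd
    have h3 : (s + 1) * s / 2 = q := by omega
    rw [h3] at h1 h2 ⊢
    have hq' : ((s:ℤ) + 1) * s = 2 * q := by exact_mod_cast hq
    set F : ℤ := (weightedCutMin q : ℤ) with hF
    have h4 : (s:ℤ) ≤ 4 * F - 2 * q := by
      by_contra hcon
      push Not at hcon
      have h5 : 0 ≤ 4 * F - 2 * (q:ℤ) := by linarith
      nlinarith
    have h5 : ((s:ℤ) + 1) * (s + 1) ≤ 4 * F + 1 := by nlinarith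
    have h6 : (s + 1) * (s + 1) ≤ 4 * weightedCutMin q + 1 := by
      have : (((s + 1) * (s + 1) : ℕ) : ℤ) ≤ ((4 * weightedCutMin q + 1 : ℕ) : ℤ) := by
        push_cast
        linarith
      exact_mod_cast this
    have h7 : (s + 1) * (s + 1) % 4 ≠ 1 ∨ (s + 1) * (s + 1) % 4 = 1 := by omega
    omega

lemma clique_values (t : ℕ) : weightedCutMin (t * (t - 1) / 2) = t * t / 4 ∧
    cutMin (t * (t - 1) / 2) = t * t / 4 := by
  have h1 := weighted_clique_lower t
  have h2 := weightedCutMin_le_cutMin (t * (t - 1) / 2)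
  have h3 : cutMin (t * (t - 1) / 2) ≤ t * t / 4 := by
    rcases Nat.eq_zero_or_pos t with ht | ht
    · subst ht; simp [cutMin_zero]
    · have := cutMin_clique_add t 0 ht
      rw [cutMin_zero] at this
      simpa using this
  omega

/-- Values of the Edwards function. -/
def smallCut : List ℕ := [0, 1, 2, 2, 3, 4, 4, 5, 6, 6, 6, 7, 8, 8, 9, 9, 10, 11, 11, 12, 12, 12,
  13, 14, 14, 15, 16, 16, 16, 17]

lemma weighted_small {h : ℕ} (hh : h ≤ 25) : smallCut.getD h 0 ≤ weightedCutMin h := by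
  rcases Nat.eq_zero_or_pos h with h0 | h0
  · subst h0; simp [smallCut]
  · obtain ⟨t, U, ht, hU1, hU2, he, ho, hq⟩ := weightedCutMin_facts h0
    by_contra hcon
    push Not at hcon
    have hF : weightedCutMin h ≤ 14 := by
      have : smallCut.getD h 0 ≤ 15 := by
        interval_cases h <;> simp [smallCut]
      omega
    have ht7 : t ≤ 7 := by
      by_contra h8
      have : 8 * 8 ≤ t * t := Nat.mul_le_mul (by omega) (by omega)
      omega
    generalize weightedCutMin h = F at *
    have he' : t % 2 = 0 → U * t ≤ 4 * (t - 1) * F := fun h => he (Nat.even_iff.mpr h)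
    have ho' : t % 2 = 1 → U * (t + 1) ≤ 4 * t * F := fun h => ho (Nat.odd_iff.mpr h)
    interval_cases t <;> interval_cases h <;> simp [smallCut] at hcon <;> omega

end Pool.Agent.Bisect
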