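import Mathlib
import Pool.Agent.Bisect.Main

/-!
# Exact values for `2 m ≥ (δ (δ + 17))²`
-/

set_option autoImplicit false
set_option linter.unusedSectionVars false

namespace Pool.Agent.Bisect

open Finset

/-- The weighted Edwards function near the top residues. -/
lemma weighted_top {δ h j : ℕ} (hδ : 1 ≤ δ) (hj : h + j = 2 * δ) (h1 : 1 ≤ j)
    (hlt : (j - 1) ^ 2 < δ) : δ ≤ weightedCutMin h := by
  by_contra hcon
  push Not at hcon
  obtain ⟨hE1, hE2⟩ := weighted_edwards h
  obtain ⟨i, rfl⟩ : ∃ i, j = i + 1 := ⟨j - 1, by omega⟩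
  rw [Nat.add_sub_cancel] at hlt
  rcases Nat.eq_zero_or_pos i with hi | hi
  · subst hi
    have hF : (weightedCutMin h : ℤ) + 1 ≤ δ := by exact_mod_cast hcon
    have hj' : (h:ℤ) + 1 = 2 * δ := by exact_mod_cast hj
    linarith
  · have hF : (weightedCutMin h : ℤ) + 1 ≤ δ := by exact_mod_cast hcon
    have hj' : (h:ℤ) + (i + 1) = 2 * δ := by exact_mod_cast hj
    have hi' : (1:ℤ) ≤ i := by exact_mod_cast hi
    have hlt' : (i:ℤ) ^ 2 + 1 ≤ δ := by exact_mod_cast hlt
    set F : ℤ := (weightedCutMin h : ℤ)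
    have hy : 4 * F - 2 * h ≤ 2 * i - 2 := by linarith
    have hy0 : 0 ≤ 4 * F - 2 * (h:ℤ) := by linarith
    have h2 : (4 * F - 2 * h) * (4 * F - 2 * h + 1) ≤ (2 * i - 2) * (2 * i - 2 + 1) :=
      mul_le_mul hy (by linarith) (by linarith) (by linarith)
    nlinarith

theorem exact_values {δ m k h : ℕ} (hδ : 1 ≤ δ) (hm : (δ * (δ + 17)) ^ 2 ≤ 2 * m)
    (hk : 2 * m + δ * (δ + 1) = 4 * δ * k + 2 * h) (hh : h < 2 * δ) :
    (∀ t, h = t * (t - 1) / 2 → bisMin δ m = δ * k + min δ (t * t / 4)) ∧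
    (∀ j, h + j = 2 * δ → (j - 1) ^ 2 < δ → bisMin δ m = δ * (k + 1)) ∧
    (h ≤ 25 ∨ δ ≤ 15 → bisMin δ m = δ * k + min δ (smallCut.getD h 0)) := by
  obtain ⟨_, hlo, hup, _⟩ := main hδ hm hk hh
  refine ⟨?_, ?_, ?_⟩
  · intro t ht
    subst ht
    obtain ⟨h1, h2⟩ := clique_values t
    rw [h1] at hlo
    rw [h2] at hup
    omega
  · intro j hj hlt
    have h1 := weighted_top hδ hj (by omega) hlt
    have h2 : δ * (k + 1) = δ * k + δ := by ring
    have h3 : min δ (cutMin h) ≤ δ := min_le_left _ _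
    rw [min_eq_left h1] at hlo
    omega
  · intro hor
    have htb : ∀ h ≤ 29, smallCut.getD h 0 = tb.getD h 0 := by decide
    rcases Nat.lt_or_ge 25 h with h25 | h25
    · -- then δ ≤ 15 and `h ≥ 26`
      have hδ15 : δ ≤ 15 := by omega
      have h1 : 15 ≤ weightedCutMin h := by
        have h2 := weighted_small (h := 25) le_rfl
        have h3 := weightedCutMin_mono h25.le
        have h4 : smallCut.getD 25 0 = 15 := by decide
        omega
      have h2 : 15 ≤ smallCut.getD h 0 := by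
        have : h ≤ 29 := by omega
        interval_cases h <;> decide
      rw [min_eq_left (by omega)] at hlo
      rw [min_eq_left (by omega)]
      have h3 : min δ (cutMin h) ≤ δ := min_le_left _ _
      omega
    · have h1 := weighted_small h25
      have h2 := cutMin_le_tb h (by omega)
      rw [← htb h (by omega)] at h2
      have h3 : min δ (smallCut.getD h 0) ≤ min δ (weightedCutMin h) := min_le_min le_rfl h1
      have h4 : min δ (cutMin h) ≤ min δ (smallCut.getD h 0) := min_le_min le_rfl h2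
      omega

end Pool.Agent.Bisect
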