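import Mathlib
import Pool.Agent.Bisect.Main

/-!
# The upper bound for all admissible `m`
-/

set_option autoImplicit false
set_option linter.unusedSectionVars false

namespace Pool.Agent.Bisect

open Finset

open Classical

lemma cut_le_quarter {V : Type} [Fintype V] (G : SimpleGraph V) (A : Finset V) :
    4 * cutSize G A ≤ Fintype.card V * Fintype.card V := by
  have h1 : (cutSize G A : ℤ) ≤ (A.card : ℤ) * (Aᶜ.card : ℤ) := by
    rw [cutSize_eq]
    unfold wcut
    have : ∑ u ∈ A, ∑ v ∈ Aᶜ, adjW G u v ≤ ∑ u ∈ A, ∑ v ∈ Aᶜ, (1:ℤ) :=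
      Finset.sum_le_sum fun u _ => Finset.sum_le_sum fun v _ => adjW_le_one G u v
    refine this.trans (le_of_eq ?_)
    simp
  have h2 : cutSize G A ≤ A.card * Aᶜ.card := by exact_mod_cast h1
  have h3 := card_mul_compl_le A
  have h4 : Fintype.card V * Fintype.card V / 4 * 4 ≤ Fintype.card V * Fintype.card V :=
    Nat.div_mul_le_self _ _
  omega

lemma bis_le_quarter {V : Type} [Fintype V] (G : SimpleGraph V) :
    4 * maxBisection G ≤ Fintype.card V * Fintype.card V := by
  obtain ⟨A, _, hA⟩ := maxBisection_mem G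
  rw [← hA]
  exact cut_le_quarter G A

/-- the complete graph on `n` vertices minus a path with `t` edges -/
def pathC (n t : ℕ) : SimpleGraph (Fin n) where
  Adj := fun i j => i ≠ j ∧ ¬ (i.val + 1 = j.val ∧ i.val < t) ∧ ¬ (j.val + 1 = i.val ∧ j.val < t)
  symm := ⟨fun _ _ h => ⟨h.1.symm, h.2.2, h.2.1⟩⟩
  loopless := ⟨fun _ h => h.1 rfl⟩

lemma pathC_adjW (n t : ℕ) (i j : Fin n) : adjW (pathC n t) i j =
    1 - (if i = j then 1 else 0) - (if i.val + 1 = j.val ∧ i.val < t then 1 else 0)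
      - (if j.val + 1 = i.val ∧ j.val < t then 1 else 0) := by
  by_cases h1 : i = j
  · subst h1
    rw [adjW_self]
    simp
  · by_cases h2 : i.val + 1 = j.val ∧ i.val < t
    · have h3 : ¬ (j.val + 1 = i.val ∧ j.val < t) := by omega
      rw [adjW_of_not_adj (pathC n t) (fun h : (pathC n t).Adj i j => h.2.1 h2), if_neg h1,
        if_pos h2, if_neg h3]
      ring
    · by_cases h3 : j.val + 1 = i.val ∧ j.val < t
      · rw [adjW_of_not_adj (pathC n t) (fun h : (pathC n t).Adj i j => h.2.2 h3), if_neg h1,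
          if_neg h2, if_pos h3]
        ring
      · rw [adjW_of_adj (pathC n t) (show (pathC n t).Adj i j from ⟨h1, h2, h3⟩), if_neg h1,
          if_neg h2, if_neg h3]
        ring

lemma sum_succ_le (n t : ℕ) (i : Fin n) :
    ∑ j : Fin n, (if i.val + 1 = j.val ∧ i.val < t then (1:ℤ) else 0) ≤ 1 := by
  have h1 : ∑ j : Fin n, (if i.val + 1 = j.val ∧ i.val < t then (1:ℤ) else 0) =
      ((univ.filter fun j : Fin n => i.val + 1 = j.val ∧ i.val < t).card : ℤ) := by simp
  rw [h1]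
  have : (univ.filter fun j : Fin n => i.val + 1 = j.val ∧ i.val < t).card ≤ 1 := by
    rw [Finset.card_le_one]
    intro a ha b hb
    have h1 := (Finset.mem_filter.mp ha).2.1
    have h2 := (Finset.mem_filter.mp hb).2.1
    exact Fin.ext (by omega)
  exact_mod_cast this

lemma sum_pred_le (n t : ℕ) (i : Fin n) :
    ∑ j : Fin n, (if j.val + 1 = i.val ∧ j.val < t then (1:ℤ) else 0) ≤ 1 := by
  have h1 : ∑ j : Fin n, (if j.val + 1 = i.val ∧ j.val < t then (1:ℤ) else 0) =
      ((univ.filter fun j : Fin n => j.val + 1 = i.val ∧ j.val < t).card : ℤ) := by simp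
  rw [h1]
  have : (univ.filter fun j : Fin n => j.val + 1 = i.val ∧ j.val < t).card ≤ 1 := by
    rw [Finset.card_le_one]
    intro a ha b hb
    have h1 := (Finset.mem_filter.mp ha).2.1
    have h2 := (Finset.mem_filter.mp hb).2.1
    exact Fin.ext (by omega)
  exact_mod_cast this

lemma pathC_deg {n t δ : ℕ} (hδ : δ + 3 ≤ n) (i : Fin n) :
    δ ≤ ((pathC n t).neighborSet i).ncard := by
  have h1 := adjW_row (pathC n t) i
  simp only [pathC_adjW, Finset.sum_sub_distrib] at h1
  have h2 := sum_succ_le n t i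
  have h3 := sum_pred_le n t i
  have h4 : ∑ j : Fin n, (if i = j then (1:ℤ) else 0) = 1 := by simp
  have h5 : ∑ _j : Fin n, (1:ℤ) = n := by simp
  rw [h4, h5] at h1
  have h6 : (δ:ℤ) + 3 ≤ n := by exact_mod_cast hδ
  have h7 : (δ:ℤ) ≤ ((pathC n t).neighborSet i).ncard := by
    rw [← h1]; linarith
  exact_mod_cast h7

lemma pathC_edges {n t : ℕ} (ht : t + 1 ≤ n) :
    (2 * (pathC n t).edgeSet.ncard : ℤ) = n * (n - 1) - 2 * t := by
  rw [← adjW_sum]
  simp only [pathC_adjW, Finset.sum_sub_distrib]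
  have h4 : ∀ i : Fin n, ∑ j : Fin n, (if i = j then (1:ℤ) else 0) = 1 := by simp
  have h1 : ∑ i : Fin n, ∑ j : Fin n, (if i.val + 1 = j.val ∧ i.val < t then (1:ℤ) else 0) = t := by
    have e1 : ∀ i : Fin n, ∑ j : Fin n, (if i.val + 1 = j.val ∧ i.val < t then (1:ℤ) else 0) =
        if i.val < t then 1 else 0 := by
      intro i
      by_cases hi : i.val < t
      · rw [if_pos hi, Finset.sum_eq_single (⟨i.val + 1, by omega⟩ : Fin n)]
        · simp [hi]
        · intro j _ hj
          rw [if_neg]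
          rintro ⟨h, _⟩
          exact hj (Fin.ext h.symm)
        · simp
      · rw [if_neg hi]
        refine Finset.sum_eq_zero fun j _ => ?_
        rw [if_neg]
        rintro ⟨_, h⟩
        exact hi h
    simp_rw [e1]
    have e2 : ∑ i : Fin n, (if i.val < t then (1:ℤ) else 0) =
        ∑ i ∈ Finset.range n, (if i < t then (1:ℤ) else 0) :=
      Fin.sum_univ_eq_sum_range (fun i => if i < t then (1:ℤ) else 0) n
    rw [e2, Finset.sum_boole]
    have e3 : (Finset.range n).filter (fun i => i < t) = Finset.range t := by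
      ext i
      simp only [Finset.mem_filter, Finset.mem_range]
      omega
    rw [e3, Finset.card_range]
  have h2 : ∑ i : Fin n, ∑ j : Fin n, (if j.val + 1 = i.val ∧ j.val < t then (1:ℤ) else 0) = t := by
    rw [Finset.sum_comm]
    exact h1
  simp_rw [h4]
  rw [h1, h2]
  simp
  ring

/-- writing `m` as `n(n-1)/2 - t` -/
lemma exists_nt {m : ℕ} (hm : 1 ≤ m) : ∃ n t : ℕ, 2 * m + 2 * t = n * (n - 1) ∧ t + 2 ≤ n ∧
    (n - 1) * (n - 2) < 2 * m := by
  obtain ⟨s, x, hs, h1, h2⟩ := exists_tri (m - 1)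
  refine ⟨s + 1, s - x - 1, ?_, by omega, ?_⟩
  · rw [Nat.add_sub_cancel]
    obtain ⟨r, rfl⟩ : ∃ r, s = r + 1 := ⟨s - 1, by omega⟩
    rw [Nat.add_sub_cancel] at h1
    have h3 : (r + 1 + 1) * (r + 1) = (r + 1) * r + 2 * (r + 1) := by ring
    omega
  · have h3 : s + 1 - 1 = s := by omega
    have h4 : s + 1 - 2 = s - 1 := by omega
    rw [h3, h4]
    omega

/-- for moderately many edges: complete graph minus a path -/
lemma exists_pathC {δ m : ℕ} (hm : 1 ≤ m) : ∃ n t : ℕ, (n - 1) * (n - 2) < 2 * m ∧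
    2 * m ≤ n * (n - 1) ∧ 2 ≤ n ∧ t + 2 ≤ n ∧ 2 * m + 2 * t = n * (n - 1) ∧
    (pathC n t).edgeSet.ncard = m ∧
    (δ + 3 ≤ n → ∀ v, δ ≤ ((pathC n t).neighborSet v).ncard) := by
  obtain ⟨n, t, h1, h2, h3⟩ := exists_nt hm
  refine ⟨n, t, h3, by omega, by omega, h2, h1, ?_, fun h v => pathC_deg h v⟩
  have h4 := pathC_edges (n := n) (t := t) (by omega)
  have h5 : ((n * (n - 1) : ℕ) : ℤ) = (n:ℤ) * (n - 1) := by
    rw [Nat.cast_mul, Nat.cast_sub (by omega)]; push_cast; ring
  have h6 : (2 * m + 2 * t : ℤ) = n * (n - 1) := by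
    rw [← h5]; exact_mod_cast h1
  have h7 : (2 * (pathC n t).edgeSet.ncard : ℤ) = 2 * m := by linarith
  omega

lemma sq_lt_of {a b : ℕ} (h : a * a < b * b) : a < b := Nat.mul_self_lt_mul_self_iff.mp h

/-- small `m` -/
lemma upper_small {δ m : ℕ} (hδ : 1 ≤ δ) (hadm : Admissible δ m) (hm : m < 7 * δ ^ 2) :
    4 * bisMin δ m ≤ 2 * m + 30 * δ := by
  obtain ⟨V, iV, G, g1, g2, g3⟩ := bisMin_mem hadm
  -- number of edges is positive or the graph is empty
  rcases Nat.eq_zero_or_pos m with hm0 | hm0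
  · -- the empty graph
    have hV : IsEmpty V := by
      by_contra hne
      rw [not_isEmpty_iff] at hne
      obtain ⟨v⟩ := hne
      have h1 := g2 v
      have h2 := adjW_row G v
      have h3 := adjW_sum G
      rw [g1, hm0] at h3
      have h4 := Finset.single_le_sum (f := fun u => ∑ w, adjW G u w)
        (fun u _ => Finset.sum_nonneg fun w _ => adjW_nonneg G u w) (Finset.mem_univ v)
      rw [h2] at h4
      rw [h3] at h4
      have h5 : (1:ℤ) ≤ ((G.neighborSet v).ncard : ℤ) := by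
        have : 1 ≤ (G.neighborSet v).ncard := by omega
        exact_mod_cast this
      push_cast at h4
      linarith
    have h1 := bis_le_quarter G
    have h2 : Fintype.card V = 0 := Fintype.card_eq_zero
    rw [h2] at h1
    rw [g3] at h1
    omega
  · obtain ⟨n, t, h1, h2, h3, h4, h5, h6, h7⟩ := exists_pathC (δ := δ) hm0
    obtain ⟨r, rfl⟩ : ∃ r, n = r + 2 := ⟨n - 2, by omega⟩
    have e1 : r + 2 - 1 = r + 1 := by omega
    have e2 : r + 2 - 2 = r := by omega
    rw [e1, e2] at h1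
    rw [e1] at h2 h5
    rcases Nat.lt_or_ge (r + 2) (δ + 3) with hlt | hge
    · -- every admissible graph has few vertices
      have hrδ : r ≤ δ := by omega
      have h8 : δ * Fintype.card V ≤ 2 * m := by
        have h9 : ∑ _v : V, (δ:ℤ) ≤ ∑ v, ∑ u, adjW G v u := by
          refine Finset.sum_le_sum fun v _ => ?_
          rw [adjW_row]
          exact_mod_cast g2 v
        rw [adjW_sum, g1] at h9
        simp only [Finset.sum_const, Finset.card_univ, nsmul_eq_mul] at h9
        have : ((δ * Fintype.card V : ℕ) : ℤ) ≤ ((2 * m : ℕ) : ℤ) := by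
          push_cast; linarith
        exact_mod_cast this
      have h9 := bis_le_quarter G
      rw [g3] at h9
      set N := Fintype.card V with hN
      have h10 : δ * N ≤ (δ + 2) * (δ + 1) := by
        refine h8.trans (h2.trans ?_)
        exact Nat.mul_le_mul (by omega) (by omega)
      have h11 : N ≤ δ + 5 := by
        by_contra hcon
        push Not at hcon
        have : δ * (δ + 6) ≤ δ * N := Nat.mul_le_mul_left δ hcon
        nlinarith
      nlinarith
    · have h8 := h7 hge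
      have h9 := bis_le_quarter (pathC (r + 2) t)
      have h10 := bisMin_le (pathC (r + 2) t) h6 h8 le_rfl
      rw [Fintype.card_fin] at h9
      have h11 : r < 4 * δ := by
        apply sq_lt_of
        nlinarith
      nlinarith

/-- degrees in a disjoint union with a complete graph -/
lemma cliqueAdd_deg {t δ : ℕ} {V : Type} [Fintype V] (G : SimpleGraph V) (ht : δ + 1 ≤ t)
    (hd : ∀ v, δ ≤ (G.neighborSet v).ncard) : ∀ v, δ ≤ ((cliqueAdd t G).neighborSet v).ncard := by
  rintro (a | b)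
  · have h1 := adjW_row (cliqueAdd t G) (Sum.inl a)
    simp only [Fintype.sum_sum_type, ca_ll, ca_lr, Finset.sum_sub_distrib, Finset.sum_const,
      Finset.sum_ite_eq, Finset.mem_univ, if_true, Finset.card_univ, Fintype.card_fin,
      nsmul_eq_mul, mul_zero, add_zero] at h1
    have h2 : (δ:ℤ) + 1 ≤ t := by exact_mod_cast ht
    have h3 : (δ:ℤ) ≤ ((cliqueAdd t G).neighborSet (Sum.inl a)).ncard := by
      rw [← h1]; linarith
    exact_mod_cast h3
  · have h1 := adjW_row (cliqueAdd t G) (Sum.inr b)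
    rw [Fintype.sum_sum_type] at h1
    simp only [ca_rl, ca_rr, Finset.sum_const_zero, zero_add] at h1
    rw [adjW_row] at h1
    have h3 : (δ:ℤ) ≤ ((cliqueAdd t G).neighborSet (Sum.inr b)).ncard := by
      rw [← h1]; exact_mod_cast hd b
    exact_mod_cast h3

/-- the intermediate range -/
lemma upper_mid {δ m : ℕ} (hδ : 1 ≤ δ) (hm : 7 * δ ^ 2 ≤ m)
    (hm' : 2 * m ≤ (δ * (δ + 1) + 1) * (δ * (δ + 1))) :
    Admissible δ m ∧ ∃ a : ℕ, 1 ≤ a ∧ a * (a - 1) ≤ 2 * m ∧
      4 * bisMin δ m ≤ 2 * m + (a - 1) + 16 * δ := by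
  obtain ⟨c, hc⟩ : ∃ c, (δ + 3) * (δ + 2) = 2 * c := by
    obtain ⟨s, hs⟩ := (Nat.even_mul_succ_self (δ + 2)).two_dvd
    exact ⟨s, by rw [← hs]; ring⟩
  have hcm : c + δ * (δ + 1) ≤ m + 0 := by nlinarith
  obtain ⟨a, x, ha, h1, h2⟩ := exists_tri (m - c)
  have hmc : m = (m - c) + c := by omega
  -- `a ≥ δ + 1`
  have haδ : δ + 1 ≤ a := by
    by_contra hcon
    push Not at hcon
    obtain ⟨b, rfl⟩ : ∃ b, a = b + 1 := ⟨a - 1, by omega⟩
    rw [Nat.add_sub_cancel] at h1
    have : (b + 1) * b ≤ δ * δ := Nat.mul_le_mul (by omega) (by omega)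
    nlinarith
  obtain ⟨b, rfl⟩ : ∃ b, a = b + 1 := ⟨a - 1, by omega⟩
  rw [Nat.add_sub_cancel] at h1
  -- upper bound for `a`
  have hb : b ≤ δ * (δ + 1) := by
    by_contra hcon
    push Not at hcon
    have h3 : (δ * (δ + 1) + 1 + 1) * (δ * (δ + 1) + 1) ≤ (b + 1) * b :=
      Nat.mul_le_mul (by omega) (by omega)
    nlinarith
  have hm'1 : 1 ≤ c + x := by nlinarith
  obtain ⟨n, t, k1, k2, k3, k4, k5, k6, k7⟩ := exists_pathC (δ := δ) hm'1
  have hnδ : δ + 3 ≤ n := by
    by_contra hcon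
    push Not at hcon
    have : n * (n - 1) ≤ (δ + 2) * (δ + 1) := Nat.mul_le_mul (by omega) (by omega)
    nlinarith
  have hdeg := cliqueAdd_deg (pathC n t) haδ (k7 hnδ)
  have hedge := cliqueAdd_edges (b + 1) (pathC n t) (by omega)
  rw [Nat.add_sub_cancel, k6] at hedge
  have hedge' : (cliqueAdd (b + 1) (pathC n t)).edgeSet.ncard = m := by
    rw [hedge]
    have : (b + 1) * b / 2 = m - c - x := by omega
    omega
  refine ⟨⟨_, inferInstance, _, hedge', hdeg⟩, b + 1, by omega, ?_, ?_⟩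
  · rw [Nat.add_sub_cancel]; omega
  · rw [Nat.add_sub_cancel]
    have hcut : ∀ B, cutSize (pathC n t) B ≤ n * n / 4 := by
      intro B
      have := cut_le_quarter (pathC n t) B
      rw [Fintype.card_fin] at this
      omega
    have hbis : maxBisection (cliqueAdd (b + 1) (pathC n t)) ≤ (b + 1) * (b + 1) / 4 + n * n / 4 := by
      apply maxBisection_le
      intro A _
      exact cliqueAdd_cut (b + 1) (pathC n t) A hcut
    have h3 := bisMin_le _ hedge' hdeg hbis
    have h4 : (b + 1) * (b + 1) / 4 * 4 ≤ (b + 1) * (b + 1) := Nat.div_mul_le_self _ _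
    have h5 : n * n / 4 * 4 ≤ n * n := Nat.div_mul_le_self _ _
    -- bound on `n`
    obtain ⟨r, rfl⟩ : ∃ r, n = r + 2 := ⟨n - 2, by omega⟩
    have e1 : r + 2 - 1 = r + 1 := by omega
    have e2 : r + 2 - 2 = r := by omega
    rw [e1, e2] at k1
    rw [e1] at k5
    have h6 : r < 4 * δ := by
      apply sq_lt_of
      nlinarith
    have h7 : 4 * bisMin δ m ≤ (b + 1) * (b + 1) + (r + 2) * (r + 2) := by omega
    have h8 : 2 * m = (b + 1) * b + 2 * (c + x) := by omega
    nlinarith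

/-- the top range -/
lemma upper_top {δ m : ℕ} (hδ : 1 ≤ δ) (hm : 7 * δ ^ 2 ≤ m) :
    Admissible δ m ∧ 4 * bisMin δ m ≤ 2 * m + δ * (δ + 1) + 4 * δ := by
  obtain ⟨s, hs⟩ := (Nat.even_mul_succ_self δ).two_dvd
  set k := (m + s) / (2 * δ) with hk
  set h := (m + s) % (2 * δ) with hh
  have h1 : 2 * δ * k + h = m + s := Nat.div_add_mod (m + s) (2 * δ)
  have h2 : h < 2 * δ := Nat.mod_lt _ (by omega)
  have h3 : 2 * m + δ * (δ + 1) = 4 * δ * k + 2 * h := by
    rw [hs]
    have : 4 * δ * k = 2 * (2 * δ * k) := by ring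
    omega
  have h4 : 5 * δ + 1 ≤ 2 * k := by
    by_contra hcon
    push Not at hcon
    have h5 : 2 * δ * (2 * k) ≤ 2 * δ * (5 * δ) := Nat.mul_le_mul_left _ (by omega)
    nlinarith
  obtain ⟨h5, h6⟩ := upper_explicit hδ h4 h3 h2
  refine ⟨h5, ?_⟩
  have h7 : min δ (cutMin h) ≤ δ := min_le_left _ _
  have h8 : 4 * δ * k = 4 * (δ * k) := by ring
  omega

lemma edw_ge {m q : ℕ} (h : q * (q + 1) ≤ 2 * m) : (q:ℝ) / 4 ≤ edw m := by
  unfold edw
  have h1 : (q:ℝ) / 4 + 1 / 8 ≤ Real.sqrt (m / 8 + 1 / 64) := by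
    apply Real.le_sqrt_of_sq_le
    have h2 : (q:ℝ) * (q + 1) ≤ 2 * m := by exact_mod_cast h
    nlinarith
  linarith

lemma edw_nonneg (m : ℕ) : 0 ≤ edw m := by
  have := edw_ge (m := m) (q := 0) (by omega)
  simpa using this

/-- The upper bound. -/
theorem upper_all {δ m : ℕ} (hδ : 1 ≤ δ) (hadm : Admissible δ m) :
    (bisMin δ m : ℝ) ≤ m / 2 + min (edw m) ((δ:ℝ) * (δ + 1) / 4) + 8 * δ := by
  have hδ' : (1:ℝ) ≤ δ := by exact_mod_cast hδ
  have hmin0 : 0 ≤ min (edw m) ((δ:ℝ) * (δ + 1) / 4) :=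
    le_min (edw_nonneg m) (by positivity)
  rcases Nat.lt_or_ge m (7 * δ ^ 2) with hlt | hge
  · have h1 := upper_small hδ hadm hlt
    have h2 : (4:ℝ) * bisMin δ m ≤ 2 * m + 30 * δ := by exact_mod_cast h1
    linarith
  · obtain ⟨_, h1⟩ := upper_top hδ hge
    have h2 : (4:ℝ) * bisMin δ m ≤ 2 * m + δ * (δ + 1) + 4 * δ := by exact_mod_cast h1
    rcases le_total (edw m) ((δ:ℝ) * (δ + 1) / 4) with h | h
    · rw [min_eq_left h]
      rcases Nat.lt_or_ge ((δ * (δ + 1) + 1) * (δ * (δ + 1))) (2 * m) with h3 | h3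
      · -- then the Edwards term is at least `δ(δ+1)/4`
        have h4 := edw_ge (m := m) (q := δ * (δ + 1)) (by rw [mul_comm]; omega)
        push_cast at h4
        linarith
      · obtain ⟨_, a, ha, h4, h5⟩ := upper_mid hδ hge h3
        obtain ⟨b, rfl⟩ : ∃ b, a = b + 1 := ⟨a - 1, by omega⟩
        rw [Nat.add_sub_cancel] at h4 h5
        have h6 := edw_ge (m := m) (q := b) (by rw [mul_comm]; exact h4)
        have h7 : (4:ℝ) * bisMin δ m ≤ 2 * m + b + 16 * δ := by exact_mod_cast h5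
        linarith
    · rw [min_eq_right h]
      linarith

/-- The lower bound. -/
theorem lower_all {δ m : ℕ} (hadm : Admissible δ m) :
    (m:ℝ) / 2 + min (edw m) ((δ:ℝ) * (δ + 1) / 4) ≤ bisMin δ m := by
  obtain ⟨V, iV, G, g1, g2, g3⟩ := bisMin_mem hadm
  have := bisection_lower G g2
  rw [g1, g3] at this
  exact this

end Pool.Agent.Bisect
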