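import Mathlib
import Pool.Agent.Bisect.UpperAll

/-!
# Sharpness of the lower bound
-/

set_option autoImplicit false
set_option linter.unusedSectionVars false

namespace Pool.Agent.Bisect

open Finset

lemma bot_edges : (⊥ : SimpleGraph (Fin 0)).edgeSet.ncard = 0 := by simp

/-- complete graphs of odd order -/
theorem exact_clique {δ n : ℕ} (hδ : 1 ≤ δ) (hn : Odd n) (h1 : δ + 1 ≤ n)
    (h2 : n ≤ δ * (δ + 1) + 1) : 4 * bisMin δ (n * (n - 1) / 2) + 1 = n ^ 2 := by
  obtain ⟨b, rfl⟩ : ∃ b, n = b + 1 := ⟨n - 1, by omega⟩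
  rw [Nat.add_sub_cancel]
  obtain ⟨q, hq⟩ : 2 ∣ (b + 1) * b := by
    rw [mul_comm]; exact (Nat.even_mul_succ_self b).two_dvd
  have hq2 : (b + 1) * b / 2 = q := by omega
  rw [hq2]
  have hedge := cliqueAdd_edges (b + 1) (⊥ : SimpleGraph (Fin 0)) (by omega)
  rw [Nat.add_sub_cancel, hq2, bot_edges, add_zero] at hedge
  have hdeg := cliqueAdd_deg (⊥ : SimpleGraph (Fin 0)) h1 (fun v => v.elim0)
  have hadm : Admissible δ q := ⟨_, inferInstance, _, hedge, hdeg⟩
  have hbis : maxBisection (cliqueAdd (b + 1) (⊥ : SimpleGraph (Fin 0))) ≤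
      (b + 1) * (b + 1) / 4 := by
    apply maxBisection_le
    intro A _
    have := cliqueAdd_cut (b + 1) (⊥ : SimpleGraph (Fin 0)) A (c := 0) (by
      intro B
      have := cut_le_quarter (⊥ : SimpleGraph (Fin 0)) B
      simp only [Fintype.card_fin] at this
      omega)
    simpa using this
  have h3 := bisMin_le _ hedge hdeg hbis
  have h4 := lower_all hadm
  have h5 := edw_ge (m := q) (q := b) (by rw [mul_comm]; omega)
  have h6 : (b:ℝ) / 4 ≤ (δ:ℝ) * (δ + 1) / 4 := by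
    have : (b:ℝ) ≤ δ * (δ + 1) := by
      have : b ≤ δ * (δ + 1) := by omega
      exact_mod_cast this
    linarith
  have h7 := le_min h5 h6
  have h8 : (2:ℝ) * q = (b + 1) * b := by
    have : 2 * q = (b + 1) * b := by omega
    exact_mod_cast this
  have h9 : ((b:ℝ) + 1) ^ 2 ≤ 4 * bisMin δ q + 1 := by nlinarith
  have h10 : (b + 1) ^ 2 ≤ 4 * bisMin δ q + 1 := by exact_mod_cast h9
  obtain ⟨r, hr⟩ := hn
  have hb : b = 2 * r := by omega
  have h11 : (b + 1) ^ 2 = 4 * (r * r + r) + 1 := by rw [hb]; ring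
  have h12 : (b + 1) * (b + 1) = 4 * (r * r + r) + 1 := by rw [hb]; ring
  omega

/-- the base residue class -/
theorem exact_base {δ m k : ℕ} (hδ : 1 ≤ δ) (hk : 2 * m + δ * (δ + 1) = 4 * δ * k)
    (hm : δ * (δ + 1) * (δ * (δ + 1) + 1) ≤ 2 * m) : bisMin δ m = δ * k := by
  have hkz : (2 * m + δ * (δ + 1) : ℤ) = 4 * δ * k := by exact_mod_cast hk
  have hk1 : δ + 1 ≤ 2 * k := by
    by_contra hcon
    push Not at hcon
    have h1 : 2 * δ * (2 * k) ≤ 2 * δ * δ := Nat.mul_le_mul_left _ (by omega)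
    have h2 : 4 * δ * k = 2 * δ * (2 * k) := by ring
    have h3 : 1 * (δ + 1) ≤ δ * (δ + 1) := Nat.mul_le_mul_right _ hδ
    have h4 : δ * (δ + 1) * (1 * (δ + 1)) ≤ δ * (δ + 1) * (δ * (δ + 1)) :=
      Nat.mul_le_mul_left _ h3
    nlinarith
  obtain ⟨V, iV, G, g1, g2, g3⟩ := big_admissible (δ := δ) hδ (⊥ : SimpleGraph (Fin 0)) False
    (fun h => h.elim) (p := k) (F := 0) (m := m) (by rw [Fintype.card_fin]; omega)
    (fun B => by
      have := cut_le_quarter (⊥ : SimpleGraph (Fin 0)) B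
      simp only [Fintype.card_fin] at this
      have h0 : cutSize (⊥ : SimpleGraph (Fin 0)) B = 0 := by omega
      rw [h0]
      simp [mm])
    (by
      rw [bot_edges]
      simp only [mm, if_false, mul_zero, zero_mul, sub_zero, Nat.cast_zero, add_zero]
      exact hkz)
  have hup := bisMin_le G g1 g2 g3
  have hadm : Admissible δ m := ⟨V, iV, G, g1, g2⟩
  have h4 := lower_all hadm
  have h5 := edw_ge (m := m) (q := δ * (δ + 1)) hm
  push_cast at h5
  rw [min_eq_right h5] at h4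
  have h6 : (2:ℝ) * m + δ * (δ + 1) = 4 * δ * k := by exact_mod_cast hk
  have h7 : ((δ * k : ℕ) : ℝ) ≤ bisMin δ m := by
    push_cast
    linarith
  have h8 : δ * k ≤ bisMin δ m := by exact_mod_cast h7
  omega

end Pool.Agent.Bisect
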